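import Pool.Agent.Lib.MP_d577c7_co.CN.Walk

/-!
# Stokes: discrete Stokes formula for the disc (60 min)

Let `F` be antisymmetric (so `F u u = 0`). SECTOR FORMULA. For `(a, b)` put
`Ψ (a, b) = ∑ i < b, F (0, i) (0, i + 1) + ∑ i < a, F (i, b) (i + 1, b)` (natural numbers `a, b`).
Claim, by induction on `k ≤ 2 R`, with `g R k = (a, b)`:
`∑ m < k, F (g m) (g (m + 1)) + Ψ (R, 0) - Ψ (a, b) = ∑ r ∈ Sect R, r.2 < b, rh (curl F) r`.
Left step `(a, b) → (a - 1, b)`: `F (a, b) (a - 1, b) = - F (a - 1, b) (a, b)`, no change.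
Up step `(a, b) → (a, b + 1)`: the left side changes by
`F (a, b) (a, b + 1) + Ψ (a, b) - Ψ (a, b + 1) = ∑ i < a, rh (curl F) (i, b)` (telescoping:
`rh (curl F) (i, b) = F (i,b) (i+1,b) + F (i+1,b) (i+1,b+1) - F (i,b+1) (i+1,b+1) - F (i,b) (i,b+1)`,
the diagonal cancels), and the row `b` of `Sect R` is `{i | i < a}`: `N (i + 1, b + 1) ≤ R ^ 2` iff
`i < a`, because `N (a, b + 1) ≤ R ^ 2 < N (a + 1, b + 1)` (`g_inv`) and `N` is monotone.
At `k = 2 R`, `g = (0, R)`, and all rows of `Sect R` are `< R`: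
`∑ r ∈ Sect R, rh (curl F) r = ∑ m < 2 R, F (g m) (g (m + 1)) + ∑ i < R, F (i, 0) (i + 1, 0)
  - ∑ i < R, F (0, i) (0, i + 1)`.
SUM OF SECTORS. Apply this to `F_j u v = F (rot^[j] u) (rot^[j] v)`, `j < 6`. The ray terms cancel:
`rot^[j] (0, i) = rot^[j + 1] (i, 0)`, `rot^[6] = id`. The walk terms give
`∑ j < 6, ∑ m < 2 R, F (rot^[j] (g m)) (rot^[j] (g (m + 1))) = ∑ k < 12 R, F (G k) (G (k + 1))`
(`G_sector`; `Finset.sum_range` over `12 R = 6 * (2 R)`, e.g. by induction on the number of sectors).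
-/

namespace Pool.Agent.Lib.MP_d577c7_co.CN

open Finset

noncomputable section

private def Ps (F : P → P → ℤ) (a b : ℕ) : ℤ :=
  ∑ i ∈ range b, F (0, (i : ℤ)) (0, (i : ℤ) + 1) + ∑ i ∈ range a, F ((i : ℤ), (b : ℤ)) ((i : ℤ) + 1, (b : ℤ))

private theorem row_tel (F : P → P → ℤ) (hF : ∀ u v, F u v = -F v u) (b a : ℕ) :
    ∑ i ∈ range a, rh (fun u v w => F u v + F v w + F w u) ((i : ℤ), (b : ℤ)) =
      F ((a : ℤ), (b : ℤ)) ((a : ℤ), (b : ℤ) + 1) + Ps F a b - Ps F a (b + 1) := by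
  induction a with
  | zero =>
    simp only [Ps, range_zero, sum_empty, sum_range_succ, Nat.cast_zero, Nat.cast_add, Nat.cast_one]
    ring
  | succ a ih =>
    rw [sum_range_succ, ih]
    simp only [Ps, sum_range_succ, rh, Prod.mk_add_mk, add_zero, Nat.cast_add, Nat.cast_one]
    have h1 := hF ((a : ℤ), (b : ℤ)) ((a : ℤ), (b : ℤ) + 1)
    have h2 := hF ((a : ℤ) + 1, (b : ℤ) + 1) ((a : ℤ), (b : ℤ) + 1)
    have h3 := hF ((a : ℤ) + 1, (b : ℤ)) ((a : ℤ), (b : ℤ) + 1)
    have h4 := hF ((a : ℤ) + 1, (b : ℤ)) ((a : ℤ) + 1, (b : ℤ) + 1)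
    linarith

private theorem N_row {R a b : ℕ} (h1 : N ((a : ℤ), (b : ℤ) + 1) ≤ (R : ℤ) ^ 2)
    (h2 : (R : ℤ) ^ 2 < N ((a : ℤ) + 1, (b : ℤ) + 1)) :
    (Sect R).filter (fun r => r.2 = b) = (range a).image (fun i => (i, b)) := by
  ext ⟨i, j⟩
  simp only [Sect, mem_filter, mem_product, mem_range, mem_image, Prod.mk.injEq]
  constructor
  · rintro ⟨⟨⟨hi, hj⟩, hN⟩, rfl⟩
    refine ⟨i, ?_, rfl, rfl⟩
    by_contra hlt
    have hle : (a : ℤ) ≤ (i : ℤ) := by exact_mod_cast (not_lt.1 hlt)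
    have ha0 : (0 : ℤ) ≤ a := Int.natCast_nonneg a
    have hj0 : (0 : ℤ) ≤ j := Int.natCast_nonneg j
    simp only [N] at h2 hN
    nlinarith
  · rintro ⟨i', hi', rfl, rfl⟩
    have hi2 : (i' : ℤ) + 1 ≤ (a : ℤ) := by exact_mod_cast hi'
    have hi0 : (0 : ℤ) ≤ i' := Int.natCast_nonneg i'
    have hb0 : (0 : ℤ) ≤ b := Int.natCast_nonneg b
    have hR0 : (0 : ℤ) ≤ R := Int.natCast_nonneg R
    simp only [N] at h1
    refine ⟨⟨⟨?_, ?_⟩, ?_⟩, rfl⟩
    · have : (i' : ℤ) < (R : ℤ) := by nlinarith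
      exact_mod_cast this
    · have : (b : ℤ) < (R : ℤ) := by nlinarith
      exact_mod_cast this
    · simp only [N]
      nlinarith

private theorem sect_lt (R : ℕ) (f : ℕ × ℕ → ℤ) (b : ℕ) :
    ∑ r ∈ (Sect R).filter (fun r => r.2 < b + 1), f r =
      ∑ r ∈ (Sect R).filter (fun r => r.2 < b), f r +
        ∑ r ∈ (Sect R).filter (fun r => r.2 = b), f r := by
  rw [← sum_union]
  · apply sum_congr
    · ext r
      simp only [mem_filter, mem_union]
      constructor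
      · rintro ⟨h, h'⟩
        rcases Nat.lt_succ_iff_lt_or_eq.1 h' with h' | h'
        · exact Or.inl ⟨h, h'⟩
        · exact Or.inr ⟨h, h'⟩
      · rintro (⟨h, h'⟩ | ⟨h, h'⟩)
        · exact ⟨h, Nat.lt_succ_of_lt h'⟩
        · exact ⟨h, by omega⟩
    · intros; rfl
  · rw [disjoint_filter]
    intro r _ h h'
    omega

private theorem sector_ind (R : ℕ) (F : P → P → ℤ) (hF : ∀ u v, F u v = -F v u) (k : ℕ)
    (hk : k ≤ 2 * R) :
    ∀ a b : ℕ, g R k = ((a : ℤ), (b : ℤ)) →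
      ∑ m ∈ range k, F (g R m) (g R (m + 1)) + Ps F R 0 - Ps F a b =
        ∑ r ∈ (Sect R).filter (fun r => r.2 < b),
          rh (fun u v w => F u v + F v w + F w u) ((r.1 : ℤ), (r.2 : ℤ)) := by
  induction k with
  | zero =>
    intro a b h
    have h0 : g R 0 = ((R : ℤ), 0) := rfl
    rw [h0] at h
    have ha : a = R := by
      have := congrArg Prod.fst h
      simp only at this
      exact_mod_cast this.symm
    have hb : b = 0 := by
      have := congrArg Prod.snd h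
      simp only at this
      exact_mod_cast this.symm
    subst ha hb
    simp
  | succ k ih =>
    intro a b h
    have hs : g R (k + 1) = stepP R (g R k) := Function.iterate_succ_apply' _ _ _
    obtain ⟨h1, h2, h3, h4, h5⟩ := g_inv R k (by omega)
    obtain ⟨a', ha'⟩ := Int.eq_ofNat_of_zero_le h1
    obtain ⟨b', hb'⟩ := Int.eq_ofNat_of_zero_le h2
    have hg : g R k = ((a' : ℤ), (b' : ℤ)) := Prod.ext ha' hb'
    have ih' := ih (by omega) a' b' hg
    rw [sum_range_succ, h, hg]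
    rw [hg] at h4 hs
    by_cases hc : N ((a' : ℤ), (b' : ℤ) + 1) ≤ (R : ℤ) ^ 2
    · have e : stepP R ((a' : ℤ), (b' : ℤ)) = ((a' : ℤ), (b' : ℤ) + 1) := if_pos hc
      rw [e, h] at hs
      have ha : a = a' := by
        have := congrArg Prod.fst hs
        simp only at this
        exact_mod_cast this
      have hb : b = b' + 1 := by
        have := congrArg Prod.snd hs
        simp only at this
        exact_mod_cast this
      subst ha hb
      rw [sect_lt, N_row hc h4, ← ih', sum_image (fun x _ y _ hxy => (Prod.mk.inj hxy).1)]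
      rw [row_tel F hF b' a]
      push_cast
      ring
    · have e : stepP R ((a' : ℤ), (b' : ℤ)) = ((a' : ℤ) - 1, (b' : ℤ)) := if_neg hc
      rw [e, h] at hs
      have ha : a' = a + 1 := by
        have := congrArg Prod.fst hs
        simp only at this
        omega
      have hb : b' = b := by
        have := congrArg Prod.snd hs
        simp only at this
        exact_mod_cast this.symm
      subst ha hb
      rw [← ih']
      have h6 := hF ((a : ℤ) + 1, (b' : ℤ)) ((a : ℤ), (b' : ℤ))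
      simp only [Ps, sum_range_succ, Nat.cast_add, Nat.cast_one]
      linarith

theorem stokes_sector (R : ℕ) (F : P → P → ℤ) (hF : ∀ u v, F u v = -F v u) :
    ∑ r ∈ Sect R, rh (fun u v w => F u v + F v w + F w u) ((r.1 : ℤ), (r.2 : ℤ)) =
      ∑ m ∈ range (2 * R), F (g R m) (g R (m + 1)) +
        ∑ i ∈ range R, F ((i : ℤ), 0) ((i : ℤ) + 1, 0) -
        ∑ i ∈ range R, F (0, (i : ℤ)) (0, (i : ℤ) + 1) := by
  have h := sector_ind R F hF (2 * R) le_rfl 0 R (by rw [g_end]; rfl)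
  have e : (Sect R).filter (fun r => r.2 < R) = Sect R := by
    apply filter_true_of_mem
    intro r hr
    exact mem_range.1 (mem_product.1 (mem_filter.1 hr).1).2
  rw [e] at h
  rw [← h]
  simp [Ps]

theorem stokes {R : ℕ} (hR : 0 < R) (F : P → P → ℤ) (hF : ∀ u v, F u v = -F v u) :
    chain R (fun u v w => F u v + F v w + F w u) =
      ∑ k ∈ range (12 * R), F (G R k) (G R (k + 1)) := by
  have h1 : ∀ j, ∑ r ∈ Sect R, rh (fun u v w => F (rot^[j] u) (rot^[j] v) + F (rot^[j] v) (rot^[j] w) +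
      F (rot^[j] w) (rot^[j] u)) ((r.1 : ℤ), (r.2 : ℤ)) =
      ∑ m ∈ range (2 * R), F (rot^[j] (g R m)) (rot^[j] (g R (m + 1))) +
        ∑ i ∈ range R, F (rot^[j] ((i : ℤ), 0)) (rot^[j] ((i : ℤ) + 1, 0)) -
        ∑ i ∈ range R, F (rot^[j] (0, (i : ℤ))) (rot^[j] (0, (i : ℤ) + 1)) := fun j =>
    stokes_sector R (fun u v => F (rot^[j] u) (rot^[j] v)) (fun u v => hF _ _)
  have h2 : ∀ n, ∑ k ∈ range (2 * R * n), F (G R k) (G R (k + 1)) =
      ∑ j ∈ range n, ∑ m ∈ range (2 * R), F (rot^[j] (g R m)) (rot^[j] (g R (m + 1))) := by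
    intro n
    induction n with
    | zero => simp
    | succ n ih =>
      rw [sum_range_succ, ← ih, Nat.mul_succ, sum_range_add]
      congr 1
      apply sum_congr rfl
      intro m hm
      have hm' := mem_range.1 hm
      rw [G_sector hR n m hm'.le, add_assoc, G_sector hR n (m + 1) hm']
  have h3 : ∀ (j i : ℕ), rot^[j] (0, (i : ℤ)) = rot^[j + 1] ((i : ℤ), 0) := by
    intro j i
    rw [Function.iterate_succ_apply]
    congr 1
  have h3' : ∀ (j i : ℕ), rot^[j] (0, (i : ℤ) + 1) = rot^[j + 1] ((i : ℤ) + 1, 0) := by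
    intro j i
    rw [Function.iterate_succ_apply]
    congr 1
  have h6 : ∀ z : P, rot^[6] z = z := by
    intro z
    ext <;> simp [rot, Function.iterate_succ_apply]
  unfold chain
  rw [sum_congr rfl (fun j _ => h1 j)]
  have e12 : 12 * R = 2 * R * 6 := by ring
  rw [e12, h2 6]
  simp only [sum_sub_distrib, sum_add_distrib]
  have h7 : ∑ j ∈ range 6, ∑ i ∈ range R, F (rot^[j] (0, (i : ℤ))) (rot^[j] (0, (i : ℤ) + 1)) =
      ∑ j ∈ range 6, ∑ i ∈ range R, F (rot^[j] ((i : ℤ), 0)) (rot^[j] ((i : ℤ) + 1, 0)) := by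
    simp only [h3, h3']
    rw [sum_range_succ _ 5, sum_range_succ' _ 5]
    congr 1
    apply sum_congr rfl
    intro i _
    rw [h6, h6]
    rfl
  rw [h7]
  ring

end

end Pool.Agent.Lib.MP_d577c7_co.CN
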