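import Pool.Agent.Lib.MP_d577c7_co.CN.Geo

/-!
# Supp: support and congruence for sums over the disc (25 min)

Unfold `chain`, `rh`; a nonzero sum has a nonzero term (`Finset.exists_ne_zero_of_sum_ne_zero`).
For `r ∈ Sect R`, `r = (a, b)`, `a, b ≥ 0`, the vertices `(a,b), (a+1,b), (a,b+1), (a+1,b+1)` have
`N ≤ N (a + 1, b + 1) ≤ R ^ 2`, so `nm ≤ R` (`nm_le_of_sq`), `nm_rot_iter`. Sides: differences of
the vertices are `dir m` up to rotation, `nm_dir`.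
-/

namespace Pool.Agent.Lib.MP_d577c7_co.CN

open Finset

noncomputable section

/-- a lattice triangle inside the ball of radius `R` -/
def Trg (R : ℕ) (u v w : P) : Prop :=
  nm u ≤ R ∧ nm v ≤ R ∧ nm w ≤ R ∧ nm (v - u) = 1 ∧ nm (w - v) = 1 ∧ nm (u - w) = 1

private theorem supp_le {R : ℕ} {a b : ℤ} (ha : 0 ≤ a) (hb : 0 ≤ b)
    (h : N (a + 1, b + 1) ≤ (R : ℤ) ^ 2) (c d : ℤ) (hc : c ≤ a + 1) (hd : d ≤ b + 1) (hc0 : 0 ≤ c)
    (hd0 : 0 ≤ d) : nm (c, d) ≤ R := by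
  apply nm_le_of_sq (Nat.cast_nonneg R)
  have h1 : N (c, d) ≤ (R : ℤ) ^ 2 := by
    refine le_trans ?_ h
    simp only [N]
    nlinarith [mul_nonneg hc0 hd0, mul_nonneg (sub_nonneg.2 hc) hc0, mul_nonneg (sub_nonneg.2 hd) hd0,
      mul_nonneg (sub_nonneg.2 hc) hd0, mul_nonneg (sub_nonneg.2 hd) hc0,
      mul_nonneg (sub_nonneg.2 hc) (sub_nonneg.2 hd), sq_nonneg (a + 1 - c), sq_nonneg (b + 1 - d)]
  exact_mod_cast h1

private theorem supp_side {j m : ℕ} {x y : P} (h : y - x = dir m) :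
    nm (rot^[j] y - rot^[j] x) = 1 := by
  rw [← rot_iter_sub, nm_rot_iter, h, nm_dir]

private theorem supp_trg {R : ℕ} {r : ℕ × ℕ} (hr : r ∈ Sect R) (j : ℕ) :
    Trg R (rot^[j] ((r.1 : ℤ), (r.2 : ℤ))) (rot^[j] (((r.1 : ℤ), (r.2 : ℤ)) + (1, 0)))
      (rot^[j] (((r.1 : ℤ), (r.2 : ℤ)) + (0, 1))) ∧
    Trg R (rot^[j] (((r.1 : ℤ), (r.2 : ℤ)) + (1, 0))) (rot^[j] (((r.1 : ℤ), (r.2 : ℤ)) + (1, 1)))
      (rot^[j] (((r.1 : ℤ), (r.2 : ℤ)) + (0, 1))) := by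
  obtain ⟨a, b⟩ := r
  simp only [Sect, mem_filter] at hr
  have ha : (0 : ℤ) ≤ a := Int.natCast_nonneg a
  have hb : (0 : ℤ) ≤ b := Int.natCast_nonneg b
  have key := fun c d h1 h2 h3 h4 => supp_le ha hb hr.2 c d h1 h2 h3 h4
  have e0 : nm (rot^[j] ((a : ℤ), (b : ℤ))) ≤ R := by
    rw [nm_rot_iter]; exact key _ _ (by linarith) (by linarith) ha hb
  have e1 : nm (rot^[j] (((a : ℤ), (b : ℤ)) + (1, 0))) ≤ R := by
    rw [nm_rot_iter, Prod.mk_add_mk]
    exact key _ _ (by linarith) (by linarith) (by linarith) (by linarith)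
  have e2 : nm (rot^[j] (((a : ℤ), (b : ℤ)) + (0, 1))) ≤ R := by
    rw [nm_rot_iter, Prod.mk_add_mk]
    exact key _ _ (by linarith) (by linarith) (by linarith) (by linarith)
  have e3 : nm (rot^[j] (((a : ℤ), (b : ℤ)) + (1, 1))) ≤ R := by
    rw [nm_rot_iter, Prod.mk_add_mk]
    exact key _ _ (by linarith) (by linarith) (by linarith) (by linarith)
  refine ⟨⟨e0, e1, e2, ?_, ?_, ?_⟩, ⟨e1, e3, e2, ?_, ?_, ?_⟩⟩
  · exact supp_side (m := 0) (by rw [dir0]; ext <;> simp)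
  · exact supp_side (m := 2) (by rw [dir2]; ext <;> simp)
  · exact supp_side (m := 4) (by rw [dir4]; ext <;> simp)
  · exact supp_side (m := 1) (by rw [dir1]; ext <;> simp)
  · exact supp_side (m := 3) (by rw [dir3]; ext <;> simp)
  · exact supp_side (m := 5) (by rw [dir5]; ext <;> simp)

theorem chain_supp {R : ℕ} {F : P → P → P → ℤ} (h : chain R F ≠ 0) :
    ∃ u v w, Trg R u v w ∧ F u v w ≠ 0 := by
  rw [chain] at h
  obtain ⟨j, -, hj⟩ := Finset.exists_ne_zero_of_sum_ne_zero h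
  obtain ⟨r, hr, hr'⟩ := Finset.exists_ne_zero_of_sum_ne_zero hj
  obtain ⟨h1, h2⟩ := supp_trg hr j
  simp only [rh] at hr'
  by_cases hF : F (rot^[j] ((r.1 : ℤ), (r.2 : ℤ))) (rot^[j] (((r.1 : ℤ), (r.2 : ℤ)) + (1, 0)))
      (rot^[j] (((r.1 : ℤ), (r.2 : ℤ)) + (0, 1))) = 0
  · refine ⟨_, _, _, h2, ?_⟩
    intro h3
    apply hr'
    rw [hF, h3, add_zero]
  · exact ⟨_, _, _, h1, hF⟩

theorem chain_congr {R : ℕ} {F F' : P → P → P → ℤ} (h : ∀ u v w, Trg R u v w → F u v w = F' u v w) :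
    chain R F = chain R F' := by
  rw [chain, chain]
  refine Finset.sum_congr rfl fun j _ => Finset.sum_congr rfl fun r hr => ?_
  obtain ⟨h1, h2⟩ := supp_trg hr j
  simp only [rh]
  rw [h _ _ _ h1, h _ _ _ h2]

theorem chain_add (R : ℕ) (F F' : P → P → P → ℤ) :
    chain R (fun u v w => F u v w + F' u v w) = chain R F + chain R F' := by
  rw [chain, chain, chain, ← Finset.sum_add_distrib]
  refine Finset.sum_congr rfl fun j _ => ?_
  rw [← Finset.sum_add_distrib]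
  refine Finset.sum_congr rfl fun r _ => ?_
  simp only [rh]
  ring

theorem chain_neg (R : ℕ) (F : P → P → P → ℤ) :
    chain R (fun u v w => -F u v w) = -chain R F := by
  rw [chain, chain, ← Finset.sum_neg_distrib]
  refine Finset.sum_congr rfl fun j _ => ?_
  rw [← Finset.sum_neg_distrib]
  refine Finset.sum_congr rfl fun r _ => ?_
  simp only [rh]
  ring

end

end Pool.Agent.Lib.MP_d577c7_co.CN
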