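import Pool.Agent.Lib.MP_d577c7_co.CN.Eps
import Pool.Agent.Lib.MP_d577c7_co.CN.Supp
import Pool.Agent.Lib.MP_d577c7_co.CN.Stokes

/-!
# Alg: `cc` is alternating, Stokes formula for `cc` (25 min)

`chain_congr` with `eps_rot`, `eps_swap`, `chain_neg`. `cc_stokes`: `chain_add`, `eps_sum`, and
`stokes` for `F u v = E i j (κ (x + u)) (κ (x + v))`, antisymmetric by `E_swap`.
`cc_supp`: `chain_supp` and `eps_ne`: one of the three vertices has colour `i`, the other two have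
the colours `j`, `k`; translate by `x`.
-/

namespace Pool.Agent.Lib.MP_d577c7_co.CN

open Finset

variable {κ : P → Fin 6} {R : ℕ}

theorem cc_rot (x : P) {i j k : Fin 6} (hij : i ≠ j) (hjk : j ≠ k) (hik : i ≠ k) :
    cc κ R x j k i = cc κ R x i j k := by
  unfold cc
  refine congrArg (chain R) ?_
  funext u v w
  exact eps_rot hij hjk hik _ _ _

theorem cc_swap (x : P) (i j k : Fin 6) : cc κ R x i k j = -cc κ R x i j k := by
  unfold cc
  rw [← chain_neg]
  refine congrArg (chain R) ?_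
  funext u v w
  exact eps_swap _ _ _

theorem ww_swap (x : P) (i j : Fin 6) : ww κ R x j i = -ww κ R x i j := by
  unfold ww
  rw [← Finset.sum_neg_distrib]
  refine Finset.sum_congr rfl (fun k _ => ?_)
  exact E_swap' _ _ _ _

theorem cc_stokes (hR : 0 < R) (x : P) {i j k l m n : Fin 6} (h : Six i j k l m n) :
    cc κ R x i j k + cc κ R x i j l + cc κ R x i j m + cc κ R x i j n = ww κ R x i j := by
  unfold cc ww
  rw [← chain_add, ← chain_add, ← chain_add,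
    ← stokes hR (fun u v => E i j (κ (x + u)) (κ (x + v))) (fun u v => E_swap _ _ _ _)]
  refine congrArg (chain R) ?_
  funext u v w
  exact eps_sum h _ _ _

private theorem Alg_tp {x u v w : P} {i j k : Fin 6} (huv : nm (v - u) = 1) (huw : nm (w - u) = 1)
    (hu : κ (x + u) = i) (hv : κ (x + v) = j) (hw : κ (x + w) = k) : Tp κ i j k (x + u) := by
  refine ⟨hu, ⟨x + v, ?_, hv⟩, ⟨x + w, ?_, hw⟩⟩
  · rw [add_sub_add_left_eq_sub]
    exact huv.le
  · rw [add_sub_add_left_eq_sub]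
    exact huw.le

theorem cc_supp (x : P) {i j k : Fin 6} (hij : i ≠ j) (hjk : j ≠ k) (hik : i ≠ k)
    (h : cc κ R x i j k ≠ 0) : ∃ u, nm (u - x) ≤ R ∧ Tp κ i j k u := by
  obtain ⟨u, v, w, ⟨hu, hv, hw, huv, hvw, hwu⟩, hne⟩ := chain_supp h
  have hvu : nm (u - v) = 1 := by rw [nm_comm]; exact huv
  have hwv : nm (v - w) = 1 := by rw [nm_comm]; exact hvw
  have huw : nm (w - u) = 1 := by rw [nm_comm]; exact hwu
  have e : ∀ z : P, x + z - x = z := fun z => add_sub_cancel_left x z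
  rcases eps_ne hij hjk hik hne with ⟨h1, h2, h3⟩ | ⟨h1, h2, h3⟩ | ⟨h1, h2, h3⟩ | ⟨h1, h2, h3⟩ |
    ⟨h1, h2, h3⟩ | ⟨h1, h2, h3⟩
  · exact ⟨x + u, by rw [e]; exact hu, Alg_tp huv huw h1 h2 h3⟩
  · exact ⟨x + w, by rw [e]; exact hw, Alg_tp hwu hwv h3 h1 h2⟩
  · exact ⟨x + v, by rw [e]; exact hv, Alg_tp hvw hvu h2 h3 h1⟩
  · exact ⟨x + u, by rw [e]; exact hu, Alg_tp huw huv h1 h3 h2⟩
  · exact ⟨x + w, by rw [e]; exact hw, Alg_tp hwv hwu h3 h2 h1⟩
  · exact ⟨x + v, by rw [e]; exact hv, Alg_tp hvu hvw h2 h1 h3⟩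

end Pool.Agent.Lib.MP_d577c7_co.CN
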