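import Pool.Agent.Lib.MP_d577c7_co.CN.Edge

/-!
# Cyc: the three linear contradictions (40 min)

Let `x ∈ U` with `Tp κ a 1 2 x` (`1, 2, ..` = `b₁, b₂, ..`), `c = cc κ R x`, `w = ww κ R x`. `w i j = 0`
if `i` or `j` is in `{a, 1, 2}` (`ww_zero`), `w` of the other three colours is odd (`ww_odd`). By `cc_zero`
(points of `U` are within `R` of each other, `hU.dia`) `c` vanishes on every triple whose complement
`{a, i, j}` is a `Tp` of some point of `U`. `c` is alternating (`cc_rot`, `cc_swap`).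
`cyc3` (others `f, g`): `cc_stokes (a, f)`: `c a f 1 + c a f 2 + c a f 3 + c a f g = w a f = 0`, the
first three are `0` by `hf`, so `c a f g = 0`. `cc_stokes (f, g)`: `w f g = c f g a + c f g 1 + c f g 2 +
c f g 3 = 0` (complements `{a,2,3}`, `{a,3,1}`, `{a,1,2}`), but `w f g` is odd (complement of `{a,1,2}` is
`{3, f, g}`).
`cyc4` (other `g`): `cc_stokes (2, g)`: `0 = c 2 g a + c 2 g 1 + c 2 g 3 + c 2 g 4`, `{1,2,g}` is the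
complement of `{a,3,4}`, `{2,3,g}` of `{a,4,1}`, so `c 2 g 4 = 0`. `cc_stokes (4, g)`: `w 4 g = c 4 g a +
c 4 g 1 + c 4 g 2 + c 4 g 3`, `{1,4,g}` is the complement of `{a,2,3}`, `{3,4,g}` of `{a,1,2}`, so
`w 4 g = 0`, but it is odd.
`cyc5`: `c a i (i+2) = 0`, `c i (i+1) (i+2) = 0` (indices mod 5; complement `{a, i+3, i+4}`).
`cc_stokes (a, i)`: `c a i (i+1) = c a (i-1) i`, so `l := c a 3 4 = c a 4 5 = c a 5 1` etc.
`cc_stokes (3, 4)`: `w 3 4 = c 3 4 a + c 3 4 1 (+ c 3 4 2 + c 3 4 5 = 0)`, `c 3 4 a = c a 3 4 = l`.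
`cc_stokes (5, 1)`: `0 = c 5 1 a + c 5 1 3 (+ c 5 1 2 + c 5 1 4 = 0)`, `c 5 1 a = c a 5 1 = l`.
`cc_stokes (1, 3)`: `0 = c 1 3 a + c 1 3 2 + c 1 3 4 + c 1 3 5 = 0 + 0 + c 3 4 1 + c 5 1 3`.
So `w 3 4 - l - l = 0`, but `w 3 4` is odd.
-/

namespace Pool.Agent.Lib.MP_d577c7_co.CN

open Finset

noncomputable section

variable {κ : P → Fin 6} {R : ℕ}

private theorem cyc_ne {i j k l m n : Fin 6} (h : Six i j k l m n) :
    (i ≠ j ∧ i ≠ k ∧ i ≠ l ∧ i ≠ m ∧ i ≠ n) ∧ (j ≠ k ∧ j ≠ l ∧ j ≠ m ∧ j ≠ n) ∧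
      (k ≠ l ∧ k ≠ m ∧ k ≠ n) ∧ (l ≠ m ∧ l ≠ n) ∧ m ≠ n := by
  unfold Six at h
  simp only [List.nodup_cons, List.mem_cons, List.not_mem_nil, or_false, not_or,
    not_false_eq_true, List.nodup_nil, and_true] at h
  tauto

private theorem cyc_six {i j k l m n : Fin 6}
    (h : (i ≠ j ∧ i ≠ k ∧ i ≠ l ∧ i ≠ m ∧ i ≠ n) ∧ (j ≠ k ∧ j ≠ l ∧ j ≠ m ∧ j ≠ n) ∧
      (k ≠ l ∧ k ≠ m ∧ k ≠ n) ∧ (l ≠ m ∧ l ≠ n) ∧ m ≠ n) : Six i j k l m n := by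
  unfold Six
  simp only [List.nodup_cons, List.mem_cons, List.not_mem_nil, or_false, not_or,
    not_false_eq_true, List.nodup_nil, and_true]
  tauto

private theorem cyc_rg {a : Fin 6} {U : Finset P} (hU : Cell κ R a U) {x : P} (hx : x ∈ U) :
    nm x ≤ 7 * R := by
  have h1 := hU.reg x hx
  have h2 : (0 : ℝ) ≤ R := Nat.cast_nonneg R
  linarith

private theorem cyc_z (hA : Avoid κ R) (hR : 100 ≤ R) {a b d e f g : Fin 6}
    (h6 : Six a b d e f g) {U : Finset P} (hU : Cell κ R a U) (h : ∃ y ∈ U, Tp κ a b d y)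
    {x : P} (hx : x ∈ U) : cc κ R x e f g = 0 := by
  obtain ⟨y, hy, ht⟩ := h
  exact cc_zero hA hR h6 (cyc_rg hU hy) (cyc_rg hU hx) (hU.dia y hy x hx) ht

theorem cyc3 (hA : Avoid κ R) (hR : 100 ≤ R) {a b₁ b₂ b₃ f g : Fin 6} (h6 : Six a b₁ b₂ b₃ f g)
    {U : Finset P} (hU : Cell κ R a U) (h12 : ∃ x ∈ U, Tp κ a b₁ b₂ x)
    (h23 : ∃ x ∈ U, Tp κ a b₂ b₃ x) (h31 : ∃ x ∈ U, Tp κ a b₃ b₁ x)
    (hf : ∀ x ∈ U, cc κ R x a b₁ f = 0 ∧ cc κ R x a b₂ f = 0 ∧ cc κ R x a b₃ f = 0) : False := by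
  obtain ⟨⟨n1, n2, n3, n4, n5⟩, ⟨m1, m2, m3, m4⟩, ⟨l1, l2, l3⟩, ⟨k1, k2⟩, j1⟩ := cyc_ne h6
  have z1 := fun {x : P} (hx : x ∈ U) => cyc_z hA hR (a := a) (b := b₂) (d := b₃) (e := f) (f := g)
    (g := b₁) (cyc_six (by tauto)) hU h23 hx
  have z2 := fun {x : P} (hx : x ∈ U) => cyc_z hA hR (a := a) (b := b₃) (d := b₁) (e := f) (f := g)
    (g := b₂) (cyc_six (by tauto)) hU h31 hx
  have z3 := fun {x : P} (hx : x ∈ U) => cyc_z hA hR (a := a) (b := b₁) (d := b₂) (e := f) (f := g)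
    (g := b₃) (cyc_six (by tauto)) hU h12 hx
  obtain ⟨x, hx, ht⟩ := h12
  have hR0 : 0 < R := by omega
  obtain ⟨f1, f2, f3⟩ := hf x hx
  have s1 := cc_stokes (κ := κ) hR0 x (i := a) (j := f) (k := b₁) (l := b₂) (m := b₃) (n := g)
    (cyc_six (by tauto))
  have s2 := cc_stokes (κ := κ) hR0 x (i := f) (j := g) (k := a) (l := b₁) (m := b₂) (n := b₃)
    (cyc_six (by tauto))
  have w1 := (ww_zero hA hR (cyc_rg hU hx) ht (i := a) (Or.inl rfl) f).1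
  have r1 := cc_rot (κ := κ) (R := R) x (i := a) (j := f) (k := g) n4 j1 n5
  have t1 := cc_swap (κ := κ) (R := R) x a b₁ f
  have t2 := cc_swap (κ := κ) (R := R) x a b₂ f
  have t3 := cc_swap (κ := κ) (R := R) x a b₃ f
  obtain ⟨o1, o2, o3⟩ := ww_odd hA hR (a := a) (b := b₁) (d := b₂) (e := b₃) (f := f) (g := g) h6
    (cyc_rg hU hx) ht
  rw [z1 hx, z2 hx, z3 hx] at s2
  have h0 : ww κ R x b₃ f = 0 := by linarith
  rw [h0] at o3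
  revert o3
  decide

theorem cyc4 (hA : Avoid κ R) (hR : 100 ≤ R) {a b₁ b₂ b₃ b₄ g : Fin 6}
    (h6 : Six a b₁ b₂ b₃ b₄ g) {U : Finset P} (hU : Cell κ R a U)
    (h12 : ∃ x ∈ U, Tp κ a b₁ b₂ x) (h23 : ∃ x ∈ U, Tp κ a b₂ b₃ x)
    (h34 : ∃ x ∈ U, Tp κ a b₃ b₄ x) (h41 : ∃ x ∈ U, Tp κ a b₄ b₁ x)
    (hg : ∀ x ∈ U, cc κ R x a b₂ g = 0 ∧ cc κ R x a b₄ g = 0) : False := by
  obtain ⟨⟨n1, n2, n3, n4, n5⟩, ⟨m1, m2, m3, m4⟩, ⟨l1, l2, l3⟩, ⟨k1, k2⟩, j1⟩ := cyc_ne h6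
  have z1 := fun {x : P} (hx : x ∈ U) => cyc_z hA hR (a := a) (b := b₃) (d := b₄) (e := b₂) (f := g)
    (g := b₁) (cyc_six (by tauto)) hU h34 hx
  have z2 := fun {x : P} (hx : x ∈ U) => cyc_z hA hR (a := a) (b := b₄) (d := b₁) (e := b₂) (f := g)
    (g := b₃) (cyc_six (by tauto)) hU h41 hx
  have z3 := fun {x : P} (hx : x ∈ U) => cyc_z hA hR (a := a) (b := b₂) (d := b₃) (e := b₄) (f := g)
    (g := b₁) (cyc_six (by tauto)) hU h23 hx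
  have z4 := fun {x : P} (hx : x ∈ U) => cyc_z hA hR (a := a) (b := b₁) (d := b₂) (e := b₄) (f := g)
    (g := b₃) (cyc_six (by tauto)) hU h12 hx
  obtain ⟨x, hx, ht⟩ := h12
  have hR0 : 0 < R := by omega
  obtain ⟨f1, f2⟩ := hg x hx
  have s1 := cc_stokes (κ := κ) hR0 x (i := b₂) (j := g) (k := a) (l := b₁) (m := b₃) (n := b₄)
    (cyc_six (by tauto))
  have s2 := cc_stokes (κ := κ) hR0 x (i := b₄) (j := g) (k := a) (l := b₁) (m := b₂) (n := b₃)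
    (cyc_six (by tauto))
  have w1 := (ww_zero hA hR (cyc_rg hU hx) ht (i := b₂) (Or.inr (Or.inr rfl)) g).1
  have r1 := cc_rot (κ := κ) (R := R) x (i := a) (j := b₂) (k := g) n2 l3 n5
  have r2 := cc_rot (κ := κ) (R := R) x (i := a) (j := b₄) (k := g) n4 j1 n5
  have r3 := cc_rot (κ := κ) (R := R) x (i := b₂) (j := b₄) (k := g) l2 j1 l3
  have t1 := cc_swap (κ := κ) (R := R) x b₂ g b₄
  obtain ⟨o1, o2, o3⟩ := ww_odd hA hR (a := a) (b := b₁) (d := b₂) (e := b₃) (f := b₄) (g := g) h6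
    (cyc_rg hU hx) ht
  rw [z1 hx, z2 hx] at s1
  rw [z3 hx, z4 hx] at s2
  have h0 : ww κ R x b₃ b₄ = 0 := by linarith
  rw [h0] at o3
  revert o3
  decide

theorem cyc5 (hA : Avoid κ R) (hR : 100 ≤ R) {a b₁ b₂ b₃ b₄ b₅ : Fin 6}
    (h6 : Six a b₁ b₂ b₃ b₄ b₅) {U : Finset P} (hU : Cell κ R a U)
    (h12 : ∃ x ∈ U, Tp κ a b₁ b₂ x) (h23 : ∃ x ∈ U, Tp κ a b₂ b₃ x)
    (h34 : ∃ x ∈ U, Tp κ a b₃ b₄ x) (h45 : ∃ x ∈ U, Tp κ a b₄ b₅ x)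
    (h51 : ∃ x ∈ U, Tp κ a b₅ b₁ x)
    (h0 : ∀ x ∈ U, cc κ R x a b₁ b₃ = 0 ∧ cc κ R x a b₂ b₄ = 0 ∧ cc κ R x a b₃ b₅ = 0 ∧
      cc κ R x a b₄ b₁ = 0 ∧ cc κ R x a b₅ b₂ = 0) : False := by
  obtain ⟨⟨n1, n2, n3, n4, n5⟩, ⟨m1, m2, m3, m4⟩, ⟨l1, l2, l3⟩, ⟨k1, k2⟩, j1⟩ := cyc_ne h6
  have z1 := fun {x : P} (hx : x ∈ U) => cyc_z hA hR (a := a) (b := b₄) (d := b₅) (e := b₁)
    (f := b₂) (g := b₃) (cyc_six (by tauto)) hU h45 hx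
  have z2 := fun {x : P} (hx : x ∈ U) => cyc_z hA hR (a := a) (b := b₅) (d := b₁) (e := b₂)
    (f := b₃) (g := b₄) (cyc_six (by tauto)) hU h51 hx
  have z3 := fun {x : P} (hx : x ∈ U) => cyc_z hA hR (a := a) (b := b₁) (d := b₂) (e := b₃)
    (f := b₄) (g := b₅) (cyc_six (by tauto)) hU h12 hx
  have z4 := fun {x : P} (hx : x ∈ U) => cyc_z hA hR (a := a) (b := b₂) (d := b₃) (e := b₄)
    (f := b₅) (g := b₁) (cyc_six (by tauto)) hU h23 hx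
  have z5 := fun {x : P} (hx : x ∈ U) => cyc_z hA hR (a := a) (b := b₃) (d := b₄) (e := b₅)
    (f := b₁) (g := b₂) (cyc_six (by tauto)) hU h34 hx
  obtain ⟨x, hx, ht⟩ := h12
  have hR0 : 0 < R := by omega
  obtain ⟨f1, f2, f3, f4, f5⟩ := h0 x hx
  have y1 := z1 hx
  have y2 := z2 hx
  have y3 := z3 hx
  have y4 := z4 hx
  have y5 := z5 hx
  -- the pairs `(a, 4)`, `(a, 5)`
  have s4 := cc_stokes (κ := κ) hR0 x (i := a) (j := b₄) (k := b₁) (l := b₂) (m := b₃) (n := b₅)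
    (cyc_six (by tauto))
  have s5 := cc_stokes (κ := κ) hR0 x (i := a) (j := b₅) (k := b₁) (l := b₂) (m := b₃) (n := b₄)
    (cyc_six (by tauto))
  have w4 := (ww_zero hA hR (cyc_rg hU hx) ht (i := a) (Or.inl rfl) b₄).1
  have w5 := (ww_zero hA hR (cyc_rg hU hx) ht (i := a) (Or.inl rfl) b₅).1
  have t1 := cc_swap (κ := κ) (R := R) x a b₂ b₄
  have t2 := cc_swap (κ := κ) (R := R) x a b₃ b₄
  have t3 := cc_swap (κ := κ) (R := R) x a b₃ b₅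
  have t4 := cc_swap (κ := κ) (R := R) x a b₄ b₅
  -- the pairs `(3, 4)`, `(5, 1)`, `(1, 3)`
  have s34 := cc_stokes (κ := κ) hR0 x (i := b₃) (j := b₄) (k := a) (l := b₁) (m := b₂) (n := b₅)
    (cyc_six (by tauto))
  have s51 := cc_stokes (κ := κ) hR0 x (i := b₅) (j := b₁) (k := a) (l := b₂) (m := b₃) (n := b₄)
    (cyc_six (by tauto))
  have s13 := cc_stokes (κ := κ) hR0 x (i := b₁) (j := b₃) (k := a) (l := b₂) (m := b₄) (n := b₅)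
    (cyc_six (by tauto))
  have w51 := (ww_zero hA hR (cyc_rg hU hx) ht (i := b₁) (Or.inr (Or.inl rfl)) b₅).2
  have w13 := (ww_zero hA hR (cyc_rg hU hx) ht (i := b₁) (Or.inr (Or.inl rfl)) b₃).1
  have r1 := cc_rot (κ := κ) (R := R) x (i := a) (j := b₃) (k := b₄) n3 k1 n4
  have r2 := cc_rot (κ := κ) (R := R) x (i := b₂) (j := b₃) (k := b₄) l1 k1 l2
  have r3 := cc_rot (κ := κ) (R := R) x (i := a) (j := b₅) (k := b₁) n5 m4.symm n1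
  have r4 := cc_rot (κ := κ) (R := R) x (i := b₄) (j := b₅) (k := b₁) j1 m4.symm m3.symm
  have r5 := cc_rot (κ := κ) (R := R) x (i := a) (j := b₁) (k := b₃) n1 m2 n3
  have t5 := cc_swap (κ := κ) (R := R) x b₁ b₂ b₃
  have r6 := cc_rot (κ := κ) (R := R) x (i := b₁) (j := b₃) (k := b₄) m2 k1 m3
  have r7 := cc_rot (κ := κ) (R := R) x (i := b₅) (j := b₁) (k := b₃) m4.symm m2 k2.symm
  obtain ⟨o1, o2, o3⟩ := ww_odd hA hR (a := a) (b := b₁) (d := b₂) (e := b₃) (f := b₄) (g := b₅) h6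
    (cyc_rg hU hx) ht
  obtain ⟨q, hq⟩ := o3
  have key : ww κ R x b₃ b₄ = 2 * cc κ R x a b₃ b₄ := by linarith
  omega

end

end Pool.Agent.Lib.MP_d577c7_co.CN
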