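import Pool.Agent.Lib.MP_d577c7_co.CN.Rule
import Pool.Agent.Lib.MP_d577c7_co.CN.Cyc

/-!
# CellZ: all corner counts of a cell are zero (45 min)

Write `ω i j = ∑ v ∈ U, om κ i j v`. Suppose `ω 1 2 ≠ 0`. A point of `U` has `Tp κ a 1 2` (`om_tp`,
`hU.col`, `Finset.exists_ne_zero_of_sum_ne_zero`); the same for all `ω i j ≠ 0`.
`rule` for `(1, 2)`: `3`, `ω 2 3 ≠ 0`, and (R2): for `f ∉ {a, 1, 2, 3}`: `c a 2 f = 0`, no `Tp κ a 2 f`.
`rule` for `(2, 3)`: `4` (`≠ a, 2, 3`), `ω 3 4 ≠ 0`, (R3) for `f ∉ {a, 2, 3, 4}`.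
Case `4 = 1`: `ω 3 1 ≠ 0`, `rule` for `(3, 1)`: `e`, (R1) for `f ∉ {a, 3, 1, e}`: as some point has
`Tp κ a 1 2`, `e = 2`. `cyc3`.
Case `4 ≠ 1`: `rule` for `(3, 4)`: `5`, `ω 4 5 ≠ 0`, (R4) for `f ∉ {a, 3, 4, 5}`. `5 ≠ 2`: otherwise some
point has `Tp κ a 4 2`, against (R2) for `f = 4` (`4 ≠ 1`, `4 ≠ 3`).
 Case `5 = 1`: `ω 4 1 ≠ 0`. `cyc4` with the sixth colour `g`: `c a 2 g = 0` (R2), `c a 4 g = 0` (R4).
 Case `5 ≠ 1`: so `a, 1, 2, 3, 4, 5` are the six colours. `rule` for `(4, 5)`: `e`, `ω 5 e ≠ 0`, `e ≠ 4, 5, a`.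
  `e = 2`: some point has `Tp κ a 5 2`, against (R2). `e = 3`: `Tp κ a 5 3` against (R3) (`f = 5`). So
  `e = 1`, (R5) for `f ∉ {a, 4, 5, 1}`. `rule` for `(5, 1)`: `e'`, (R1) for `f ∉ {a, 5, 1, e'}`; as some
  point has `Tp κ a 1 2`, `e' = 2`. `cyc5`: `c a 1 3 = 0` (R1), `c a 2 4 = 0` (R2), `c a 3 5 = 0` (R3),
  `c a 4 1 = 0` (R4), `c a 5 2 = 0` (R5).
-/

namespace Pool.Agent.Lib.MP_d577c7_co.CN

open Finset

noncomputable section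

variable {κ : P → Fin 6} {R : ℕ}

private theorem cz_tp {a : Fin 6} {U : Finset P} (hU : Cell κ R a U) {i j : Fin 6}
    (h : ∑ v ∈ U, om κ i j v ≠ 0) : ∃ x ∈ U, Tp κ a i j x := by
  obtain ⟨v, hv, hne⟩ := Finset.exists_ne_zero_of_sum_ne_zero h
  have h1 := om_tp hne
  rw [hU.col v hv] at h1
  exact ⟨v, hv, h1⟩

private theorem cz_six {i j k l m n : Fin 6} (h1 : i ≠ j) (h2 : i ≠ k) (h3 : i ≠ l) (h4 : i ≠ m)
    (h5 : i ≠ n) (h6 : j ≠ k) (h7 : j ≠ l) (h8 : j ≠ m) (h9 : j ≠ n) (h10 : k ≠ l) (h11 : k ≠ m)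
    (h12 : k ≠ n) (h13 : l ≠ m) (h14 : l ≠ n) (h15 : m ≠ n) : Six i j k l m n := by
  simp only [Six, List.nodup_cons, List.mem_cons, List.not_mem_nil, or_false, not_or,
    not_false_eq_true, List.nodup_nil, and_true]
  exact ⟨⟨h1, h2, h3, h4, h5⟩, ⟨h6, h7, h8, h9⟩, ⟨h10, h11, h12⟩, ⟨h13, h14⟩, h15⟩

private theorem cz_six4 {i j k l : Fin 6} (h1 : i ≠ j) (h2 : i ≠ k) (h3 : i ≠ l) (h6 : j ≠ k)
    (h7 : j ≠ l) (h10 : k ≠ l) : ∃ f g, (f ≠ i ∧ f ≠ j ∧ f ≠ k ∧ f ≠ l) ∧ Six i j k l f g := by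
  have hc : (({i, j, k, l} : Finset (Fin 6))ᶜ).card = 2 := by
    rw [Finset.card_compl, Fintype.card_fin, Finset.card_insert_of_notMem (by simp [h1, h2, h3]),
      Finset.card_insert_of_notMem (by simp [h6, h7]), Finset.card_pair h10]
  obtain ⟨f, g, hfg, he⟩ := Finset.card_eq_two.1 hc
  have hf : f ∈ ({i, j, k, l} : Finset (Fin 6))ᶜ := by rw [he]; simp
  have hg : g ∈ ({i, j, k, l} : Finset (Fin 6))ᶜ := by rw [he]; simp
  simp only [Finset.mem_compl, Finset.mem_insert, Finset.mem_singleton, not_or] at hf hg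
  obtain ⟨f1, f2, f3, f4⟩ := hf
  obtain ⟨g1, g2, g3, g4⟩ := hg
  exact ⟨f, g, ⟨f1, f2, f3, f4⟩, cz_six h1 h2 h3 (Ne.symm f1) (Ne.symm g1) h6 h7
    (Ne.symm f2) (Ne.symm g2) h10 (Ne.symm f3) (Ne.symm g3) (Ne.symm f4) (Ne.symm g4) hfg⟩

private theorem cz_six5 {i j k l m : Fin 6} (h1 : i ≠ j) (h2 : i ≠ k) (h3 : i ≠ l) (h4 : i ≠ m)
    (h6 : j ≠ k) (h7 : j ≠ l) (h8 : j ≠ m) (h10 : k ≠ l) (h11 : k ≠ m) (h13 : l ≠ m) :
    ∃ g, (g ≠ i ∧ g ≠ j ∧ g ≠ k ∧ g ≠ l ∧ g ≠ m) ∧ Six i j k l m g := by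
  have hc : (({i, j, k, l, m} : Finset (Fin 6))ᶜ).card = 1 := by
    rw [Finset.card_compl, Fintype.card_fin,
      Finset.card_insert_of_notMem (by simp [h1, h2, h3, h4]),
      Finset.card_insert_of_notMem (by simp [h6, h7, h8]),
      Finset.card_insert_of_notMem (by simp [h10, h11]), Finset.card_pair h13]
  obtain ⟨g, he⟩ := Finset.card_eq_one.1 hc
  have hg : g ∈ ({i, j, k, l, m} : Finset (Fin 6))ᶜ := by rw [he]; simp
  simp only [Finset.mem_compl, Finset.mem_insert, Finset.mem_singleton, not_or] at hg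
  obtain ⟨g1, g2, g3, g4, g5⟩ := hg
  exact ⟨g, ⟨g1, g2, g3, g4, g5⟩, cz_six h1 h2 h3 h4 (Ne.symm g1) h6 h7 h8
    (Ne.symm g2) h10 h11 (Ne.symm g3) h13 (Ne.symm g4) (Ne.symm g5)⟩

theorem cell_zero (hA : Avoid κ R) (hR : 100 ≤ R) {a b d : Fin 6} (hab : a ≠ b) (had : a ≠ d)
    (hbd : b ≠ d) {U : Finset P} (hU : Cell κ R a U) : ∑ v ∈ U, om κ b d v = 0 := by
  by_contra h12
  obtain ⟨x12, hx12, t12⟩ := cz_tp hU h12
  obtain ⟨b3, h3a, h31, h32, h23, r2⟩ := rule hA hR hab had hbd hU h12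
  obtain ⟨x23, hx23, t23⟩ := cz_tp hU h23
  obtain ⟨b4, h4a, h42, h43, h34, r3⟩ := rule hA hR had h3a.symm h32.symm hU h23
  obtain ⟨x34, hx34, t34⟩ := cz_tp hU h34
  by_cases h41 : b4 = b
  · subst h41
    obtain ⟨e, hea, he3, heb, -, r1⟩ := rule hA hR h3a.symm hab h31 hU h34
    have he : d = e := by
      by_contra hed
      exact (r1 d had.symm h32.symm hbd.symm hed).2 x12 hx12 t12
    subst he
    obtain ⟨f, g, ⟨f1, f2, f3, f4⟩, h6⟩ := cz_six4 hab had h3a.symm hbd h31.symm h32.symm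
    exact cyc3 hA hR h6 hU ⟨x12, hx12, t12⟩ ⟨x23, hx23, t23⟩ ⟨x34, hx34, t34⟩ fun x hx =>
      ⟨(r1 f f1 f4 f2 f3).1 x hx, (r2 f f1 f2 f3 f4).1 x hx, (r3 f f1 f3 f4 f2).1 x hx⟩
  · obtain ⟨b5, h5a, h53, h54, h45, r4⟩ := rule hA hR h3a.symm h4a.symm h43.symm hU h34
    obtain ⟨x45, hx45, t45⟩ := cz_tp hU h45
    have h52 : b5 ≠ d := by
      intro h
      subst h
      exact (r2 b4 h4a h41 h42 h43).2 x45 hx45 (Tp_swap t45)
    by_cases h51 : b5 = b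
    · subst h51
      obtain ⟨g, ⟨g1, g2, g3, g4, g5⟩, h6⟩ := cz_six5 hab had h3a.symm h4a.symm hbd h31.symm
        (Ne.symm h41) h32.symm h42.symm h43.symm
      exact cyc4 hA hR h6 hU ⟨x12, hx12, t12⟩ ⟨x23, hx23, t23⟩ ⟨x34, hx34, t34⟩ ⟨x45, hx45, t45⟩
        fun x hx => ⟨(r2 g g1 g2 g3 g4).1 x hx, (r4 g g1 g4 g5 g2).1 x hx⟩
    · have h6 : Six a b d b3 b4 b5 := cz_six hab had h3a.symm h4a.symm h5a.symm hbd h31.symm
        (Ne.symm h41) (Ne.symm h51) h32.symm h42.symm h52.symm h43.symm h53.symm h54.symm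
      obtain ⟨e, hea, he4, he5, h5e, r5⟩ := rule hA hR h4a.symm h5a.symm h54.symm hU h45
      obtain ⟨x5e, hx5e, t5e⟩ := cz_tp hU h5e
      have he : b = e := by
        rcases six_mem h6 e with h | h | h | h | h | h
        · exact absurd h hea
        · exact h.symm
        · subst h
          exact absurd (Tp_swap t5e) ((r2 b5 h5a h51 h52 h53).2 x5e hx5e)
        · subst h
          exact absurd (Tp_swap t5e) ((r3 b5 h5a h52 h53 h54).2 x5e hx5e)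
        · exact absurd h he4
        · exact absurd h he5
      subst he
      obtain ⟨e', hea', he5', heb', -, r1⟩ := rule hA hR h5a.symm hab h51 hU h5e
      have he' : d = e' := by
        by_contra hed
        exact (r1 d had.symm h52.symm hbd.symm hed).2 x12 hx12 t12
      subst he'
      exact cyc5 hA hR h6 hU ⟨x12, hx12, t12⟩ ⟨x23, hx23, t23⟩ ⟨x34, hx34, t34⟩ ⟨x45, hx45, t45⟩
        ⟨x5e, hx5e, t5e⟩ fun x hx => ⟨(r1 b3 h3a h53.symm h31 h32).1 x hx,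
          (r2 b4 h4a h41 h42 h43).1 x hx, (r3 b5 h5a h52 h53 h54).1 x hx,
          (r4 b hab.symm h31.symm (Ne.symm h41) (Ne.symm h51)).1 x hx,
          (r5 d had.symm h42.symm h52.symm hbd.symm).1 x hx⟩

end

end Pool.Agent.Lib.MP_d577c7_co.CN
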