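import Pool.Agent.Lib.MP_d577c7_co.CN.Disc

/-!
# Closed: closed sets (45 min)

`eps_exists`: for a closed set `A` of the plane without two points at distance `1` there is `ε > 0` with
`|dist p q - 1| ≥ ε` for all `p, q ∈ A ∩ closedBall 0 11`: `(p, q) ↦ |dist p q - 1|` is continuous and
positive on the compact set `(A ∩ closedBall 0 11) ×ˢ (A ∩ closedBall 0 11)`
(`IsCompact.exists_isMinOn`; if it is empty take `ε = 1`).
`no_six_complex`: minimum of the six `ε`; `R ≥ 100` natural with `8 / R < ε`; `κ x` = some `i` with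
`emb x / R ∈ A i` (choice). `Avoid κ R`: if `κ x = κ y = i`, `nm x, nm y ≤ 10 R`, then
`p = emb x / R`, `q = emb y / R` are in `A i`, of norm `≤ 10`, `dist p q = nm (x - y) / R` (`emb_sub`),
and `R - 8 ≤ nm (x - y) ≤ R + 8` gives `|dist p q - 1| ≤ 8 / R < ε`. So `disc`.
`some_realizes`: transport by the isometry `Complex.orthonormalBasisOneI.repr`, scale by `1 / d`:
the sets `{x | d • x ∈ A i}`.
-/

namespace Pool.Agent.Lib.MP_d577c7_co.CN

theorem eps_exists {A : Set ℂ} (hA : IsClosed A) (h : ∀ p ∈ A, ∀ q ∈ A, dist p q ≠ 1) :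
    ∃ ε : ℝ, 0 < ε ∧ ∀ p ∈ A, ∀ q ∈ A, ‖p‖ ≤ 11 → ‖q‖ ≤ 11 → ε ≤ |dist p q - 1| := by
  have hK : IsCompact (A ∩ Metric.closedBall (0 : ℂ) 11) :=
    (isCompact_closedBall (0 : ℂ) 11).inter_left hA
  rcases (A ∩ Metric.closedBall (0 : ℂ) 11).eq_empty_or_nonempty with h0 | h0
  · refine ⟨1, one_pos, ?_⟩
    intro p hp q _ hp1 _
    have : p ∈ A ∩ Metric.closedBall (0 : ℂ) 11 := ⟨hp, mem_closedBall_zero_iff.2 hp1⟩
    rw [h0] at this
    exact absurd this (Set.notMem_empty p)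
  · have hcont : Continuous (fun z : ℂ × ℂ => |dist z.1 z.2 - 1|) :=
      ((continuous_fst.dist continuous_snd).sub continuous_const).abs
    obtain ⟨⟨a, b⟩, hab, hmin⟩ := (hK.prod hK).exists_isMinOn (h0.prod h0) hcont.continuousOn
    refine ⟨|dist a b - 1|, abs_pos.2 (sub_ne_zero.2 (h a hab.1.1 b hab.2.1)), ?_⟩
    intro p hp q hq hp1 hq1
    have hpq : ((p, q) : ℂ × ℂ) ∈ (A ∩ Metric.closedBall (0 : ℂ) 11) ×ˢ (A ∩ Metric.closedBall (0 : ℂ) 11) :=
      ⟨⟨hp, mem_closedBall_zero_iff.2 hp1⟩, ⟨hq, mem_closedBall_zero_iff.2 hq1⟩⟩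
    exact hmin hpq

theorem no_six_complex (A : Fin 6 → Set ℂ) (hA : ∀ i, IsClosed (A i))
    (hcov : ∀ p : ℂ, ‖p‖ ≤ 10 → ∃ i, p ∈ A i) (h : ∀ i, ∀ p ∈ A i, ∀ q ∈ A i, dist p q ≠ 1) :
    False := by
  classical
  choose ε hε hεm using fun i => eps_exists (hA i) (h i)
  obtain ⟨i0, _, hmin⟩ := Finset.exists_min_image (Finset.univ : Finset (Fin 6)) ε ⟨0, Finset.mem_univ 0⟩
  obtain ⟨m, hm⟩ := exists_nat_gt (8 / ε i0)
  obtain ⟨R, hR1, hR2⟩ : ∃ R : ℕ, 100 ≤ R ∧ m ≤ R := ⟨max 100 m, le_max_left _ _, le_max_right _ _⟩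
  have hR0 : (0 : ℝ) < R := by
    have : (0 : ℕ) < R := by omega
    exact_mod_cast this
  have hR3 : 8 / (R : ℝ) < ε i0 := by
    have h1 : 8 / ε i0 < (R : ℝ) := lt_of_lt_of_le hm (by exact_mod_cast hR2)
    rw [div_lt_iff₀ (hε i0)] at h1
    rw [div_lt_iff₀ hR0]
    linarith [mul_comm (R : ℝ) (ε i0)]
  have hn : ∀ x : P, ‖emb x / (R : ℂ)‖ = nm x / R := by
    intro x
    rw [norm_div, Complex.norm_natCast]
    rfl
  have hex : ∀ x : P, ∃ i : Fin 6, nm x ≤ 10 * R → emb x / (R : ℂ) ∈ A i := by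
    intro x
    by_cases hx : nm x ≤ 10 * R
    · obtain ⟨i, hi⟩ := hcov (emb x / (R : ℂ)) (by
        rw [hn x, div_le_iff₀ hR0]
        exact hx)
      exact ⟨i, fun _ => hi⟩
    · exact ⟨0, fun hx' => absurd hx' hx⟩
  choose κ hκ using hex
  refine disc (κ := κ) (R := R) ?_ hR1
  intro x y hx hy h1 h2 hxy
  have hpx := hκ x hx
  have hpy := hκ y hy
  rw [← hxy] at hpy
  have hd : dist (emb x / (R : ℂ)) (emb y / (R : ℂ)) = nm (x - y) / R := by
    rw [dist_eq_norm, ← sub_div, ← emb_sub]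
    exact hn (x - y)
  have hnx : ‖emb x / (R : ℂ)‖ ≤ 11 := by
    rw [hn x, div_le_iff₀ hR0]
    linarith
  have hny : ‖emb y / (R : ℂ)‖ ≤ 11 := by
    rw [hn y, div_le_iff₀ hR0]
    linarith
  have h3 := hεm (κ x) _ hpx _ hpy hnx hny
  rw [hd] at h3
  have h4 : nm (x - y) / (R : ℝ) - 1 = (nm (x - y) - R) / R := by
    rw [sub_div, div_self hR0.ne']
  rw [h4, abs_div, abs_of_pos hR0] at h3
  have h5 : |nm (x - y) - (R : ℝ)| / R ≤ 8 / R :=
    div_le_div_of_nonneg_right (abs_le.2 ⟨by linarith, by linarith⟩) hR0.le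
  have h6 := hmin (κ x) (Finset.mem_univ _)
  linarith

/-- If six closed sets cover the disc of radius `10 d`, one of them realizes the distance `d`. -/
theorem some_realizes (A : Fin 6 → Set (EuclideanSpace ℝ (Fin 2))) (hA : ∀ i, IsClosed (A i))
    (d : ℝ) (hd : 0 < d) (hcov : ∀ p : EuclideanSpace ℝ (Fin 2), ‖p‖ ≤ 10 * d → ∃ i, p ∈ A i) :
    ∃ i, ∃ p ∈ A i, ∃ q ∈ A i, dist p q = d := by
  by_contra hno
  push Not at hno
  have hcont : Continuous (fun z : ℂ => d • Complex.orthonormalBasisOneI.repr z) :=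
    Complex.orthonormalBasisOneI.repr.continuous.const_smul d
  refine no_six_complex (fun i => (fun z : ℂ => d • Complex.orthonormalBasisOneI.repr z) ⁻¹' (A i)) ?_ ?_ ?_
  · intro i
    exact (hA i).preimage hcont
  · intro p hp
    apply hcov
    rw [norm_smul, Real.norm_of_nonneg hd.le, LinearIsometryEquiv.norm_map]
    nlinarith
  · intro i p hp q hq hpq
    refine hno i _ hp _ hq ?_
    show dist (d • Complex.orthonormalBasisOneI.repr p) (d • Complex.orthonormalBasisOneI.repr q) = d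
    rw [dist_smul₀, LinearIsometryEquiv.dist_map, hpq, Real.norm_of_nonneg hd.le, mul_one]

end Pool.Agent.Lib.MP_d577c7_co.CN
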