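import Pool.Agent.Lib.MP_d577c7_co.CN.CellZ

/-!
# Comp: decomposition into cells (45 min)

`closed_zero`: strong induction on the cardinality of `S` (statement for all `S` as in the theorem).
`S = ∅` trivial. Otherwise take `v ∈ S`, `C` = the points of `S` which are reachable from `v` by steps
`u → u'` with `u, u' ∈ S`, `nm (u' - u) ≤ 1`. `C` is a `Cell`: `col`, `reg` clear; `clo`: a neighbour of
colour `i` of a point of `C` is in `S` by `hclo`, hence in `C`; `con`: the relation is symmetric, paths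
stay in `C`; `dia`: let `x, y ∈ C`, follow a path from `x` to `y` in `C`: all its points `p` have
`nm (p - x) < R - 8`: true at the start, and a step changes `nm (p - x)` by at most `1`, while
`R - 8 ≤ nm (p - x) ≤ R + 8` is excluded by `Avoid` (both of colour `i`, `nm ≤ 6 R`). `S \ C` is again
closed under neighbours of colour `i`. So the sum over `S` is the sum over `C` (`cell_zero`) plus the
sum over `S \ C` (induction).
`vertex_zero`: `S = {p | κ p = i, nm (p - y) < R}` = image of a filter of `Ball R` under `z ↦ y + z`;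
closed: a point `p` of colour `i` adjacent to a point of `S` has `nm (p - y) < R + 1`, and not in
`[R - 8, R + 8]` (`Avoid`), so `< R`. `nm p ≤ 5 R ≤ 6 R`.
-/

namespace Pool.Agent.Lib.MP_d577c7_co.CN

open Finset

noncomputable section

variable {κ : P → Fin 6} {R : ℕ}

private theorem Comp_symm {α : Type*} {r : α → α → Prop} (hs : ∀ x y, r x y → r y x) {x y : α}
    (h : Relation.ReflTransGen r x y) : Relation.ReflTransGen r y x := by
  induction h with
  | refl => exact Relation.ReflTransGen.refl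
  | tail _ h2 h3 => exact Relation.ReflTransGen.head (hs _ _ h2) h3

private theorem Comp_dist (hA : Avoid κ R) (hR : 100 ≤ R) {i : Fin 6} {S : Finset P}
    (hcol : ∀ x ∈ S, κ x = i) (hreg : ∀ x ∈ S, nm x ≤ 6 * R) {x y : P} (hx : x ∈ S)
    (h : Relation.ReflTransGen (fun u v => u ∈ S ∧ v ∈ S ∧ nm (v - u) ≤ 1) x y) :
    nm (y - x) < (R : ℝ) - 8 := by
  have hR' : (100 : ℝ) ≤ R := by exact_mod_cast hR
  induction h with
  | refl => rw [sub_self, nm_zero]; linarith
  | tail _ hr ih =>
    rename_i y z _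
    obtain ⟨_, hz, hyz⟩ := hr
    by_contra hc
    push Not at hc
    have h1 := nm_tri z y x
    refine hA z x ?_ ?_ hc ?_ ?_
    · have := hreg z hz; linarith
    · have := hreg x hx; linarith
    · linarith
    · rw [hcol z hz, hcol x hx]

theorem closed_zero (hA : Avoid κ R) (hR : 100 ≤ R) {i j k : Fin 6} (hij : i ≠ j) (hik : i ≠ k)
    (hjk : j ≠ k) (S : Finset P) (hcol : ∀ x ∈ S, κ x = i)
    (hclo : ∀ x ∈ S, ∀ y, nm (y - x) ≤ 1 → κ y = i → y ∈ S) (hreg : ∀ x ∈ S, nm x ≤ 6 * R) :
    ∑ v ∈ S, om κ j k v = 0 := by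
  classical
  induction S using Finset.strongInduction with
  | H S ih =>
    rcases S.eq_empty_or_nonempty with rfl | ⟨v, hv⟩
    · simp
    set r : P → P → Prop := fun u v => u ∈ S ∧ v ∈ S ∧ nm (v - u) ≤ 1 with hr
    have hsym : ∀ u w, r u w → r w u := fun u w ⟨h1, h2, h3⟩ => ⟨h2, h1, by rwa [nm_comm]⟩
    set C : Finset P := S.filter (fun y => Relation.ReflTransGen r v y) with hC
    have hCS : C ⊆ S := filter_subset _ _
    have hvC : v ∈ C := mem_filter.2 ⟨hv, Relation.ReflTransGen.refl⟩
    have hpath : ∀ y, Relation.ReflTransGen r v y → Relation.ReflTransGen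
        (fun u v => u ∈ C ∧ v ∈ C ∧ nm (v - u) ≤ 1) v y := by
      intro y hy
      induction hy with
      | refl => exact Relation.ReflTransGen.refl
      | tail h1 h2 h3 =>
        exact h3.tail ⟨mem_filter.2 ⟨h2.1, h1⟩, mem_filter.2 ⟨h2.2.1, h1.tail h2⟩, h2.2.2⟩
    have hsymC : ∀ u w, (u ∈ C ∧ w ∈ C ∧ nm (w - u) ≤ 1) → (w ∈ C ∧ u ∈ C ∧ nm (u - w) ≤ 1) :=
      fun u w ⟨h1, h2, h3⟩ => ⟨h2, h1, by rwa [nm_comm]⟩
    have hcell : Cell κ R i C := by
      refine ⟨fun x hx => hcol x (hCS hx), ?_, ?_, ?_, fun x hx => hreg x (hCS hx)⟩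
      · intro x hx y hxy hy
        have hyS := hclo x (hCS hx) y hxy hy
        exact mem_filter.2 ⟨hyS, (mem_filter.1 hx).2.tail ⟨hCS hx, hyS, hxy⟩⟩
      · intro x hx y hy
        exact (Comp_symm hsymC (hpath x (mem_filter.1 hx).2)).trans
          (hpath y (mem_filter.1 hy).2)
      · intro x hx y hy
        have h1 : Relation.ReflTransGen r x y :=
          (Comp_symm hsym (mem_filter.1 hx).2).trans (mem_filter.1 hy).2
        have := Comp_dist hA hR hcol hreg (hCS hx) h1
        linarith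
    have h1 : ∑ v ∈ C, om κ j k v = 0 := cell_zero hA hR hij hik hjk hcell
    have h2 : ∑ v ∈ S \ C, om κ j k v = 0 := by
      refine ih (S \ C) ?_ ?_ ?_ ?_
      · refine (ssubset_iff_of_subset sdiff_subset).2 ⟨v, hv, ?_⟩
        simp [hvC]
      · exact fun x hx => hcol x (sdiff_subset hx)
      · intro x hx y hxy hy
        rw [mem_sdiff] at hx ⊢
        have hyS := hclo x hx.1 y hxy hy
        refine ⟨hyS, fun hyC => hx.2 ?_⟩
        exact mem_filter.2 ⟨hx.1, (mem_filter.1 hyC).2.tail ⟨hyS, hx.1, by rwa [nm_comm]⟩⟩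
      · exact fun x hx => hreg x (sdiff_subset hx)
    rw [← sum_sdiff hCS, h1, h2, add_zero]

theorem vertex_zero (hA : Avoid κ R) (hR : 100 ≤ R) {i j k : Fin 6} (hij : i ≠ j) (hik : i ≠ k)
    (hjk : j ≠ k) {y : P} (hy : nm y ≤ 4 * R) (hi : κ y = i) :
    ∑ z ∈ Ball R, (if κ (y + z) = i then om κ j k (y + z) else 0) = 0 := by
  classical
  have hR' : (100 : ℝ) ≤ R := by exact_mod_cast hR
  rw [← sum_filter]
  have hinj : Set.InjOn (fun z : P => y + z) ((Ball R).filter (fun z => κ (y + z) = i)) :=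
    fun a _ b _ h => add_left_cancel h
  rw [← sum_image (f := fun v => om κ j k v) hinj]
  have hmem : ∀ x, x ∈ ((Ball R).filter (fun z => κ (y + z) = i)).image (fun z : P => y + z) ↔
      κ x = i ∧ nm (x - y) < R := by
    intro x
    rw [mem_image]
    constructor
    · rintro ⟨z, hz, rfl⟩
      rw [mem_filter, mem_Ball] at hz
      exact ⟨hz.2, by rw [add_sub_cancel_left]; exact hz.1⟩
    · rintro ⟨h1, h2⟩
      refine ⟨x - y, ?_, by abel⟩
      rw [mem_filter, mem_Ball]
      exact ⟨h2, by rw [add_sub_cancel]; exact h1⟩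
  have hdist : ∀ x, nm (x - y) ≤ R + 1 → nm x ≤ 5 * R + 1 := by
    intro x hx
    have := nm_add_le (x - y) y
    rw [sub_add_cancel] at this
    linarith
  refine closed_zero hA hR hij hik hjk _ ?_ ?_ ?_
  · exact fun x hx => ((hmem x).1 hx).1
  · intro x hx w hxw hw
    rw [hmem] at hx ⊢
    refine ⟨hw, ?_⟩
    by_contra hc
    push Not at hc
    have h1 := nm_tri w x y
    have h2 := hdist w (by linarith [hx.2])
    refine hA w y ?_ ?_ ?_ ?_ ?_
    · linarith
    · linarith
    · linarith
    · linarith [hx.2]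
    · rw [hw, hi]
  · intro x hx
    rw [hmem] at hx
    have := nm_add_le (x - y) y
    rw [sub_add_cancel] at this
    linarith [hx.2]

end

end Pool.Agent.Lib.MP_d577c7_co.CN
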