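import Pool.Agent.Lib.MP_d577c7_co.CN.Defs

/-!
# Eps: the indicator of coloured triangles

With `δ x i = [x = i]` the indicator `E i j p q` is `δ p i δ q j - δ p j δ q i` and `eps i j k p q r` is the
determinant of `δ`; the symmetries are ring identities, and `eps_sum` uses
`δ x i + δ x j + δ x k + δ x l + δ x m + δ x n = 1`.
-/

namespace Pool.Agent.Lib.MP_d577c7_co.CN

open Finset

/-- the indicator of `x = i` -/
def dl (x i : Fin 6) : ℤ := if x = i then 1 else 0

theorem dl_pos {x i : Fin 6} (h : x = i) : dl x i = 1 := if_pos h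

theorem dl_neg {x i : Fin 6} (h : x ≠ i) : dl x i = 0 := if_neg h

theorem and_ite (A B : Prop) [Decidable A] [Decidable B] :
    (if A ∧ B then (1 : ℤ) else 0) = (if A then 1 else 0) * (if B then 1 else 0) := by
  by_cases hA : A
  · by_cases hB : B
    · rw [if_pos ⟨hA, hB⟩, if_pos hA, if_pos hB]; rfl
    · rw [if_neg (fun h => hB h.2), if_pos hA, if_neg hB]; rfl
  · rw [if_neg (fun h => hA h.1), if_neg hA, zero_mul]

theorem E_dl (i j p q : Fin 6) : E i j p q = dl p i * dl q j - dl p j * dl q i := by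
  unfold E dl
  rw [and_ite, and_ite]

theorem ite_dl (x i : Fin 6) (A : ℤ) : (if x = i then A else 0) = dl x i * A := by
  unfold dl
  by_cases h : x = i
  · rw [if_pos h, if_pos h, one_mul]
  · rw [if_neg h, if_neg h, zero_mul]

theorem eps_dl (i j k p q r : Fin 6) : eps i j k p q r =
    dl p i * (dl q j * dl r k - dl q k * dl r j) + dl q i * (dl r j * dl p k - dl r k * dl p j) +
      dl r i * (dl p j * dl q k - dl p k * dl q j) := by
  unfold eps
  rw [ite_dl, ite_dl, ite_dl, E_dl, E_dl, E_dl]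

theorem E_swap (i j p q : Fin 6) : E i j q p = -E i j p q := by
  rw [E_dl, E_dl]; ring

theorem E_swap' (i j p q : Fin 6) : E j i p q = -E i j p q := by
  rw [E_dl, E_dl]; ring

/-- rotation of the triangle -/
theorem eps_cyc (i j k p q r : Fin 6) : eps i j k q r p = eps i j k p q r := by
  rw [eps_dl, eps_dl]; ring

theorem eps_rot {i j k : Fin 6} (hij : i ≠ j) (hjk : j ≠ k) (hik : i ≠ k) (p q r : Fin 6) :
    eps j k i p q r = eps i j k p q r := by
  have _ := hij
  have _ := hjk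
  have _ := hik
  rw [eps_dl, eps_dl]; ring

theorem eps_swap {i j k : Fin 6} (p q r : Fin 6) : eps i k j p q r = -eps i j k p q r := by
  rw [eps_dl, eps_dl]; ring

theorem dl_prod {i j k p q r : Fin 6} (h : ¬ (p = i ∧ q = j ∧ r = k)) : dl p i * dl q j * dl r k = 0 := by
  by_cases h1 : p = i
  · by_cases h2 : q = j
    · have h3 : r ≠ k := fun h3 => h ⟨h1, h2, h3⟩
      rw [dl_neg h3, mul_zero]
    · rw [dl_neg h2, mul_zero, zero_mul]
  · rw [dl_neg h1, zero_mul, zero_mul]

theorem eps_ne {i j k p q r : Fin 6} (hij : i ≠ j) (hjk : j ≠ k) (hik : i ≠ k)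
    (h : eps i j k p q r ≠ 0) :
    (p = i ∧ q = j ∧ r = k) ∨ (p = j ∧ q = k ∧ r = i) ∨ (p = k ∧ q = i ∧ r = j) ∨
    (p = i ∧ q = k ∧ r = j) ∨ (p = k ∧ q = j ∧ r = i) ∨ (p = j ∧ q = i ∧ r = k) := by
  have _ := hij
  have _ := hjk
  have _ := hik
  by_contra hc
  rw [not_or, not_or, not_or, not_or, not_or] at hc
  obtain ⟨h1, h2, h3, h4, h5, h6⟩ := hc
  apply h
  rw [eps_dl]
  linear_combination dl_prod h1 + dl_prod h2 + dl_prod h3 - dl_prod h4 - dl_prod h5 - dl_prod h6

theorem six_mem {i j k l m n : Fin 6} (h : Six i j k l m n) (x : Fin 6) :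
    x = i ∨ x = j ∨ x = k ∨ x = l ∨ x = m ∨ x = n := by
  have h1 : ([i, j, k, l, m, n] : List (Fin 6)).toFinset = Finset.univ := by
    rw [← Finset.card_eq_iff_eq_univ, List.toFinset_card_of_nodup h]
    rfl
  have h2 : x ∈ ([i, j, k, l, m, n] : List (Fin 6)).toFinset := by
    rw [h1]; exact Finset.mem_univ x
  rw [List.mem_toFinset] at h2
  simpa using h2

theorem dl_sum {i j k l m n : Fin 6} (h : Six i j k l m n) (x : Fin 6) :
    dl x i + dl x j + dl x k + dl x l + dl x m + dl x n = 1 := by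
  have h0 := h
  unfold Six at h0
  simp only [List.nodup_cons, List.mem_cons, List.not_mem_nil, or_false, not_or, not_false_eq_true, List.nodup_nil,
    and_true] at h0
  obtain ⟨⟨h12, h13, h14, h15, h16⟩, ⟨h23, h24, h25, h26⟩, ⟨h34, h35, h36⟩, ⟨h45, h46⟩, h56⟩ := h0
  rcases six_mem h x with rfl | rfl | rfl | rfl | rfl | rfl
  · rw [dl_pos rfl, dl_neg h12, dl_neg h13, dl_neg h14, dl_neg h15, dl_neg h16]; rfl
  · rw [dl_neg (Ne.symm h12), dl_pos rfl, dl_neg h23, dl_neg h24, dl_neg h25, dl_neg h26]; rfl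
  · rw [dl_neg (Ne.symm h13), dl_neg (Ne.symm h23), dl_pos rfl, dl_neg h34, dl_neg h35, dl_neg h36]; rfl
  · rw [dl_neg (Ne.symm h14), dl_neg (Ne.symm h24), dl_neg (Ne.symm h34), dl_pos rfl, dl_neg h45, dl_neg h46]; rfl
  · rw [dl_neg (Ne.symm h15), dl_neg (Ne.symm h25), dl_neg (Ne.symm h35), dl_neg (Ne.symm h45), dl_pos rfl,
      dl_neg h56]; rfl
  · rw [dl_neg (Ne.symm h16), dl_neg (Ne.symm h26), dl_neg (Ne.symm h36), dl_neg (Ne.symm h46),
      dl_neg (Ne.symm h56), dl_pos rfl]; rfl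

theorem eps_sum {i j k l m n : Fin 6} (h : Six i j k l m n) (p q r : Fin 6) :
    eps i j k p q r + eps i j l p q r + eps i j m p q r + eps i j n p q r =
      E i j p q + E i j q r + E i j r p := by
  have hp := dl_sum h p
  have hq := dl_sum h q
  have hr := dl_sum h r
  rw [eps_dl, eps_dl, eps_dl, eps_dl, E_dl, E_dl, E_dl]
  linear_combination (dl q i * dl r j - dl r i * dl q j) * hp + (dl r i * dl p j - dl p i * dl r j) * hq +
    (dl p i * dl q j - dl q i * dl p j) * hr

/-- three different colours have a complement -/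
theorem six_compl {a b d : Fin 6} (hab : a ≠ b) (had : a ≠ d) (hbd : b ≠ d) :
    ∃ e f g, Six a b d e f g := by
  have h1 : (({a, b, d} : Finset (Fin 6))ᶜ).card = 3 := by
    rw [Finset.card_compl, Finset.card_eq_three.2 ⟨a, b, d, hab, had, hbd, rfl⟩]
    rfl
  obtain ⟨e, f, g, hef, heg, hfg, h2⟩ := Finset.card_eq_three.1 h1
  have he : e ∉ ({a, b, d} : Finset (Fin 6)) := by
    rw [← Finset.mem_compl, h2]; simp
  have hf : f ∉ ({a, b, d} : Finset (Fin 6)) := by
    rw [← Finset.mem_compl, h2]; simp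
  have hg : g ∉ ({a, b, d} : Finset (Fin 6)) := by
    rw [← Finset.mem_compl, h2]; simp
  simp only [Finset.mem_insert, Finset.mem_singleton, not_or] at he hf hg
  refine ⟨e, f, g, ?_⟩
  unfold Six
  simp only [List.nodup_cons, List.mem_cons, List.not_mem_nil, or_false, not_or, not_false_eq_true, List.nodup_nil,
    and_true]
  exact ⟨⟨hab, had, Ne.symm he.1, Ne.symm hf.1, Ne.symm hg.1⟩,
    ⟨hbd, Ne.symm he.2.1, Ne.symm hf.2.1, Ne.symm hg.2.1⟩,
    ⟨Ne.symm he.2.2, Ne.symm hf.2.2, Ne.symm hg.2.2⟩, ⟨hef, heg⟩, hfg⟩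

end Pool.Agent.Lib.MP_d577c7_co.CN
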