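import Pool.Agent.Lib.MP_d577c7_co.CN.Geo
import Pool.Agent.Lib.MP_d577c7_co.CN.Eps

/-!
# Core: the interface lemma, combinatorial part (60 min)

`U` a set of points of colour `a`, closed under neighbours of colour `a`; `d ≠ a`.
`core`: it suffices that
`∑ x ∈ U, ∑ m < 6, [κ (x + dir m) = d] f x [κ (x + dir (m + 1)) ∈ {a, d}]`
`= ∑ x ∈ U, ∑ m < 6, [κ (x + dir m) = d] f x [κ (x + dir (m + 5)) ∈ {a, d}]`.
Bijection of the index sets (pairs `(x, m)` whose term is not excluded): let `y = x + dir m`,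
`z = x + dir (m + 1)`.
If `κ z = d`: `(x, m) ↦ (x, m + 1)` (mod 6); the right neighbour of `(x, m + 1)` is `x + dir (m + 6) = y`.
If `κ z = a` (so `z ∈ U`): `(x, m) ↦ (z, m - 1)` i.e. `(z, m + 5)`: `y = z + dir (m + 5)`
(`dir m - dir (m + 1) = dir (m + 5)`), the right neighbour of `(z, m + 5)` is
`z + dir (m + 10) = z + dir (m + 4) = x`. `f x = f z` by `hf`.
The inverse is the mirror image (`m + 5` instead of `m + 1`).
`om_eq` (for `κ x = a`, `a, b, d` different): re-index the terms with `κ (x + dir m) = b`,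
`κ (x + dir (m + 1)) = d` by `m + 1`.
`intf`: Let `f x = 1` if there is `x0 ∈ U` with `Tp κ a b d x0` and `Φ x0 = Φ x`, else `0`; it
satisfies `hf` of `core`. If the conclusion is false, then for all `x ∈ U` with `f x = 1` and `κ (x +
dir m) = d` the colours `κ (x + dir (m ± 1))` are in `{a, d, b}` (otherwise `Tp κ a d e x`), and if one
of them is `b` then `f x = 1` (`x0 = x`). So the sum in `core` is `- ∑ v ∈ U, om κ b d v`.
`kir`: `core` with `f = 1`, and `om_eq` for the four colours.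
`om_tp`: a nonzero term of `om κ b d v` gives neighbours of `v` of the colours `b` and `d`.
-/

namespace Pool.Agent.Lib.MP_d577c7_co.CN

open Finset

noncomputable section

variable {κ : P → Fin 6}

private theorem Core_shift1 (T : ℕ → ℤ) (hT : ∀ m, T (m + 6) = T m) :
    ∑ m ∈ range 6, T (m + 1) = ∑ m ∈ range 6, T m := by
  have h := hT 0
  simp only [sum_range_succ, sum_range_zero, Nat.zero_add] at h ⊢
  norm_num
  rw [h]
  ring

private theorem Core_shift5 (T : ℕ → ℤ) (hT : ∀ m, T (m + 6) = T m) :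
    ∑ m ∈ range 6, T (m + 5) = ∑ m ∈ range 6, T m := by
  have h0 := hT 0
  have h1 := hT 1
  have h2 := hT 2
  have h3 := hT 3
  have h4 := hT 4
  simp only [sum_range_succ, sum_range_zero, Nat.zero_add] at h0 h1 h2 h3 h4 ⊢
  norm_num at h0 h1 h2 h3 h4 ⊢
  rw [h0, h1, h2, h3, h4]
  ring

private theorem Core_dir2 (m : ℕ) : dir (m + 2) = dir (m + 1) - dir m := by
  have h : ∀ z : P, rot (rot z) = rot z - z := by
    intro z
    ext
    · simp only [rot, Prod.fst_sub]
      ring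
    · simp only [rot, Prod.snd_sub]
      ring
  rw [dir_succ (m + 1), dir_succ m, h]

private theorem Core_dir3 (m : ℕ) : dir (m + 3) = -dir m := by
  rw [Core_dir2 (m + 1), Core_dir2 m]
  abel

private theorem Core_nm (x : P) (m : ℕ) : nm (x + dir m - x) ≤ 1 := by
  rw [add_sub_cancel_left, nm_dir]

/-- indicator -/
private def Core_I (κ : P → Fin 6) (x : P) (m : ℕ) (c : Fin 6) : ℤ := if κ (x + dir m) = c then 1 else 0

private theorem Core_I6 (κ : P → Fin 6) (x : P) (m : ℕ) (c : Fin 6) :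
    Core_I κ x (m + 6) c = Core_I κ x m c := by
  unfold Core_I
  rw [dir_add_six]

private theorem Core_swap {a d : Fin 6} {U : Finset P} (hcol : ∀ x ∈ U, κ x = a)
    (hclo : ∀ x ∈ U, ∀ y, nm (y - x) ≤ 1 → κ y = a → y ∈ U) (f : P → ℤ)
    (hf : ∀ x ∈ U, ∀ x' ∈ U, ∀ y, κ y = d → nm (y - x) ≤ 1 → nm (y - x') ≤ 1 → nm (x' - x) ≤ 1 →
      f x = f x') (m : ℕ) :
    ∑ x ∈ U, f x * (Core_I κ x m d * Core_I κ x (m + 1) a) =
      ∑ x ∈ U, f x * (Core_I κ x (m + 5) d * Core_I κ x (m + 5 + 5) a) := by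
  have e1 : ∀ (x : P) (k l : ℕ), f x * (Core_I κ x k d * Core_I κ x l a) =
      if κ (x + dir k) = d ∧ κ (x + dir l) = a then f x else 0 := by
    intro x k l
    unfold Core_I
    by_cases h1 : κ (x + dir k) = d
    · by_cases h2 : κ (x + dir l) = a
      · rw [if_pos h1, if_pos h2, if_pos ⟨h1, h2⟩]
        ring
      · have h3 : ¬ (κ (x + dir k) = d ∧ κ (x + dir l) = a) := fun h => h2 h.2
        rw [if_neg h2, if_neg h3]
        ring
    · have h3 : ¬ (κ (x + dir k) = d ∧ κ (x + dir l) = a) := fun h => h1 h.1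
      rw [if_neg h1, if_neg h3]
      ring
  simp only [e1]
  rw [← sum_filter, ← sum_filter]
  have hd1 : ∀ x : P, x + dir (m + 1) + dir (m + 5) = x + dir m := by
    intro x
    have h1 := Core_dir3 (m + 2)
    have h2 := Core_dir2 m
    rw [show m + 5 = m + 2 + 3 by ring, h1, h2]
    abel
  have hd2 : ∀ x : P, x + dir (m + 1) + dir (m + 4) = x := by
    intro x
    have h1 := Core_dir3 (m + 1)
    rw [show m + 4 = m + 1 + 3 by ring, h1]
    abel
  have hd3 : ∀ x : P, x + dir (m + 4) + dir (m + 1) = x := by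
    intro x
    rw [add_right_comm]
    exact hd2 x
  have hd10 : dir (m + 5 + 5) = dir (m + 4) := by
    rw [show m + 5 + 5 = m + 4 + 6 by ring, dir_add_six]
  refine sum_nbij' (fun x => x + dir (m + 1)) (fun x => x + dir (m + 4)) ?_ ?_ ?_ ?_ ?_
  · intro x hx
    rw [mem_filter] at hx ⊢
    obtain ⟨hx, hx1, hx2⟩ := hx
    refine ⟨hclo x hx _ (Core_nm x (m + 1)) hx2, ?_, ?_⟩
    · simp only [hd1]
      exact hx1
    · simp only [hd10, hd2]
      exact hcol x hx
  · intro x hx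
    rw [mem_filter] at hx ⊢
    obtain ⟨hx, hx1, hx2⟩ := hx
    rw [hd10] at hx2
    refine ⟨hclo x hx _ (Core_nm x (m + 4)) hx2, ?_, ?_⟩
    · have h1 := hd1 (x + dir (m + 4))
      rw [hd3] at h1
      simp only [← h1]
      exact hx1
    · simp only [hd3]
      exact hcol x hx
  · intro x _
    exact hd2 x
  · intro x _
    exact hd3 x
  · intro x hx
    rw [mem_filter] at hx
    obtain ⟨hx, hx1, hx2⟩ := hx
    refine hf x hx _ (hclo x hx _ (Core_nm x (m + 1)) hx2) (x + dir m) hx1 (Core_nm x m) ?_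
      (Core_nm x (m + 1))
    rw [← hd1 x]
    exact Core_nm (x + dir (m + 1)) (m + 5)

theorem core {a d : Fin 6} (hda : d ≠ a) {U : Finset P} (hcol : ∀ x ∈ U, κ x = a)
    (hclo : ∀ x ∈ U, ∀ y, nm (y - x) ≤ 1 → κ y = a → y ∈ U) (f : P → ℤ)
    (hf : ∀ x ∈ U, ∀ x' ∈ U, ∀ y, κ y = d → nm (y - x) ≤ 1 → nm (y - x') ≤ 1 → nm (x' - x) ≤ 1 →
      f x = f x') :
    ∑ x ∈ U, ∑ m ∈ range 6, (if κ (x + dir m) = d then f x *
      ((if κ (x + dir (m + 1)) = a ∨ κ (x + dir (m + 1)) = d then 0 else 1) -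
        (if κ (x + dir (m + 5)) = a ∨ κ (x + dir (m + 5)) = d then 0 else 1)) else 0) = 0 := by
  have e0 : ∀ (x : P) (k : ℕ), (if κ (x + dir k) = a ∨ κ (x + dir k) = d then (0 : ℤ) else 1) =
      1 - Core_I κ x k a - Core_I κ x k d := by
    intro x k
    unfold Core_I
    by_cases h1 : κ (x + dir k) = a
    · have h2 : ¬ κ (x + dir k) = d := fun h => hda (h.symm.trans h1)
      rw [if_pos (Or.inl h1), if_pos h1, if_neg h2]
      ring
    · by_cases h2 : κ (x + dir k) = d
      · rw [if_pos (Or.inr h2), if_neg h1, if_pos h2]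
        ring
      · rw [if_neg (fun h => h.elim h1 h2), if_neg h1, if_neg h2]
        ring
  have e1 : ∀ (x : P) (m : ℕ), (if κ (x + dir m) = d then f x *
      ((if κ (x + dir (m + 1)) = a ∨ κ (x + dir (m + 1)) = d then 0 else 1) -
        (if κ (x + dir (m + 5)) = a ∨ κ (x + dir (m + 5)) = d then 0 else 1)) else 0) =
      (f x * (Core_I κ x m d * Core_I κ x (m + 5) a) - f x * (Core_I κ x m d * Core_I κ x (m + 1) a)) +
        f x * (Core_I κ x m d * Core_I κ x (m + 5) d - Core_I κ x m d * Core_I κ x (m + 1) d) := by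
    intro x m
    rw [e0, e0]
    by_cases h : κ (x + dir m) = d
    · have h1 : Core_I κ x m d = 1 := if_pos h
      rw [if_pos h, h1]
      ring
    · have h1 : Core_I κ x m d = 0 := if_neg h
      rw [if_neg h, h1]
      ring
  have e2 : ∀ x : P, ∑ m ∈ range 6, f x * (Core_I κ x m d * Core_I κ x (m + 5) d -
      Core_I κ x m d * Core_I κ x (m + 1) d) = 0 := by
    intro x
    rw [← mul_sum, sum_sub_distrib]
    have h := Core_shift1 (fun m => Core_I κ x m d * Core_I κ x (m + 5) d) (by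
      intro m
      rw [show m + 6 + 5 = m + 5 + 6 by ring, Core_I6, Core_I6])
    rw [← h]
    have h2 : ∀ m, Core_I κ x (m + 1) d * Core_I κ x (m + 1 + 5) d =
        Core_I κ x m d * Core_I κ x (m + 1) d := by
      intro m
      rw [show m + 1 + 5 = m + 6 by ring, Core_I6]
      ring
    simp only [h2]
    ring
  simp only [e1, sum_add_distrib, e2, sum_const_zero, add_zero, sum_sub_distrib]
  rw [sum_comm, sum_comm (f := fun x m => f x * (Core_I κ x m d * Core_I κ x (m + 1) a))]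
  have h := Core_shift5 (fun m => ∑ x ∈ U, f x * (Core_I κ x m d * Core_I κ x (m + 5) a)) (by
    intro m
    refine sum_congr rfl ?_
    intro x _
    rw [show m + 6 + 5 = m + 5 + 6 by ring, Core_I6, Core_I6])
  rw [← h]
  simp only [Core_swap hcol hclo f hf]
  ring

theorem om_eq {b d : Fin 6} (hbd : b ≠ d) (x : P) :
    om κ b d x = ∑ m ∈ range 6, (if κ (x + dir m) = d then
      ((if κ (x + dir (m + 5)) = b then 1 else 0) - (if κ (x + dir (m + 1)) = b then 1 else 0))
      else 0) := by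
  have _ := hbd
  have e1 : ∀ m, (if κ (x + dir m) = d then
      ((if κ (x + dir (m + 5)) = b then (1 : ℤ) else 0) - (if κ (x + dir (m + 1)) = b then 1 else 0))
      else 0) = Core_I κ x m d * Core_I κ x (m + 5) b - Core_I κ x m d * Core_I κ x (m + 1) b := by
    intro m
    by_cases h : κ (x + dir m) = d
    · have h1 : Core_I κ x m d = 1 := if_pos h
      rw [if_pos h, h1]
      unfold Core_I
      ring
    · have h1 : Core_I κ x m d = 0 := if_neg h
      rw [if_neg h, h1]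
      ring
  have e2 : ∀ m, E b d (κ (x + dir m)) (κ (x + dir (m + 1))) =
      Core_I κ x m b * Core_I κ x (m + 1) d - Core_I κ x m d * Core_I κ x (m + 1) b := by
    intro m
    unfold E Core_I
    split_ifs <;> simp_all
  unfold om
  simp only [e1, e2, sum_sub_distrib]
  have h := Core_shift1 (fun m => Core_I κ x m d * Core_I κ x (m + 5) b) (by
    intro m
    rw [show m + 6 + 5 = m + 5 + 6 by ring, Core_I6, Core_I6])
  rw [← h]
  have h2 : ∀ m, Core_I κ x (m + 1) d * Core_I κ x (m + 1 + 5) b =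
      Core_I κ x m b * Core_I κ x (m + 1) d := by
    intro m
    rw [show m + 1 + 5 = m + 6 by ring, Core_I6]
    ring
  simp only [h2]

theorem om_tp {b d : Fin 6} {v : P} (h : om κ b d v ≠ 0) : Tp κ (κ v) b d v := by
  obtain ⟨m, _, hm⟩ := exists_ne_zero_of_sum_ne_zero h
  unfold E at hm
  by_cases h1 : κ (v + dir m) = b ∧ κ (v + dir (m + 1)) = d
  · exact ⟨rfl, ⟨v + dir m, Core_nm v m, h1.1⟩, v + dir (m + 1), Core_nm v (m + 1), h1.2⟩
  · by_cases h2 : κ (v + dir m) = d ∧ κ (v + dir (m + 1)) = b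
    · exact ⟨rfl, ⟨v + dir (m + 1), Core_nm v (m + 1), h2.2⟩, v + dir m, Core_nm v m, h2.1⟩
    · rw [if_neg h1, if_neg h2] at hm
      exact absurd (sub_self 0) hm

theorem om_swap (b d : Fin 6) (v : P) : om κ d b v = -om κ b d v := by
  unfold om
  rw [← sum_neg_distrib]
  refine sum_congr rfl ?_
  intro m _
  unfold E
  ring

theorem intf {a b d : Fin 6} (hab : a ≠ b) (had : a ≠ d) (hbd : b ≠ d) {U : Finset P}
    (hcol : ∀ x ∈ U, κ x = a) (hclo : ∀ x ∈ U, ∀ y, nm (y - x) ≤ 1 → κ y = a → y ∈ U)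
    {X : Type} (Φ : P → X)
    (hΦ : ∀ x ∈ U, ∀ x' ∈ U, ∀ y, κ y = d → nm (y - x) ≤ 1 → nm (y - x') ≤ 1 →
      nm (x' - x) ≤ 1 → Φ x = Φ x')
    (h : ∑ v ∈ U, om κ b d v ≠ 0) :
    ∃ x ∈ U, ∃ x' ∈ U, ∃ e, e ≠ a ∧ e ≠ b ∧ e ≠ d ∧ Tp κ a b d x ∧ Tp κ a d e x' ∧ Φ x = Φ x' := by
  classical
  by_contra hcon
  obtain ⟨f, hf1, hf0⟩ : ∃ f : P → ℤ, (∀ x, (∃ x0 ∈ U, Tp κ a b d x0 ∧ Φ x0 = Φ x) → f x = 1) ∧
      ∀ x, (¬ ∃ x0 ∈ U, Tp κ a b d x0 ∧ Φ x0 = Φ x) → f x = 0 :=
    ⟨fun x => if ∃ x0 ∈ U, Tp κ a b d x0 ∧ Φ x0 = Φ x then 1 else 0, fun x hx => if_pos hx,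
      fun x hx => if_neg hx⟩
  have hff : ∀ x x', Φ x = Φ x' → f x = f x' := by
    intro x x' hxx
    by_cases hp : ∃ x0 ∈ U, Tp κ a b d x0 ∧ Φ x0 = Φ x
    · rw [hf1 x hp]
      rw [hxx] at hp
      rw [hf1 x' hp]
    · rw [hf0 x hp]
      rw [hxx] at hp
      rw [hf0 x' hp]
  have hc := core had.symm hcol hclo f (fun x hx x' hx' y hy h1 h2 h3 =>
    hff x x' (hΦ x hx x' hx' y hy h1 h2 h3))
  apply h
  have e1 : ∑ v ∈ U, om κ b d v = -∑ x ∈ U, ∑ m ∈ range 6, (if κ (x + dir m) = d then f x *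
      ((if κ (x + dir (m + 1)) = a ∨ κ (x + dir (m + 1)) = d then 0 else 1) -
        (if κ (x + dir (m + 5)) = a ∨ κ (x + dir (m + 5)) = d then 0 else 1)) else 0) := by
    rw [← sum_neg_distrib]
    refine sum_congr rfl ?_
    intro x hx
    rw [om_eq hbd x, ← sum_neg_distrib]
    refine sum_congr rfl ?_
    intro m _
    by_cases hd : κ (x + dir m) = d
    · rw [if_pos hd, if_pos hd]
      -- one neighbour
      have key : ∀ k, f x * (if κ (x + dir k) = a ∨ κ (x + dir k) = d then (0 : ℤ) else 1) =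
          if κ (x + dir k) = b then 1 else 0 := by
        intro k
        by_cases hb : κ (x + dir k) = b
        · have h1 : ¬ (κ (x + dir k) = a ∨ κ (x + dir k) = d) := by
            rintro (h1 | h1)
            · exact hab (h1.symm.trans hb)
            · exact hbd (hb.symm.trans h1)
          rw [if_neg h1, if_pos hb, hf1 x ⟨x, hx, ⟨hcol x hx, ⟨x + dir k, Core_nm x k, hb⟩,
            x + dir m, Core_nm x m, hd⟩, rfl⟩]
          ring
        · rw [if_neg hb]
          by_cases h1 : κ (x + dir k) = a ∨ κ (x + dir k) = d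
          · rw [if_pos h1]
            ring
          · rw [if_neg h1]
            by_cases hp : ∃ x0 ∈ U, Tp κ a b d x0 ∧ Φ x0 = Φ x
            · obtain ⟨x0, hx0, hT, hΦ0⟩ := hp
              exact absurd ⟨x0, hx0, x, hx, κ (x + dir k), fun h => h1 (Or.inl h), hb,
                fun h => h1 (Or.inr h), hT, ⟨hcol x hx, ⟨x + dir m, Core_nm x m, hd⟩,
                x + dir k, Core_nm x k, rfl⟩, hΦ0⟩ hcon
            · rw [hf0 x hp]
              ring
      rw [mul_sub, key, key]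
      ring
    · rw [if_neg hd, if_neg hd]
      ring
  rw [e1, hc, neg_zero]

theorem kir {a d b₁ b₂ b₃ b₄ : Fin 6} (h6 : Six a d b₁ b₂ b₃ b₄) {U : Finset P}
    (hcol : ∀ x ∈ U, κ x = a) (hclo : ∀ x ∈ U, ∀ y, nm (y - x) ≤ 1 → κ y = a → y ∈ U) :
    ∑ v ∈ U, om κ b₁ d v + ∑ v ∈ U, om κ b₂ d v + ∑ v ∈ U, om κ b₃ d v +
      ∑ v ∈ U, om κ b₄ d v = 0 := by
  have hmem := six_mem h6
  unfold Six at h6
  simp only [List.nodup_cons, List.mem_cons, List.not_mem_nil, or_false, not_or, List.nodup_nil,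
    and_true, not_false_eq_true] at h6
  obtain ⟨⟨had, ha1, ha2, ha3, ha4⟩, ⟨hd1, hd2, hd3, hd4⟩, ⟨h12, h13, h14⟩, ⟨h23, h24⟩, h34⟩ := h6
  have hc := core (κ := κ) (Ne.symm had) hcol hclo (fun _ => 1) (fun _ _ _ _ _ _ _ _ _ => rfl)
  have key : ∀ p : Fin 6, (if p = a ∨ p = d then (0 : ℤ) else 1) = (if p = b₁ then 1 else 0) +
      (if p = b₂ then 1 else 0) + (if p = b₃ then 1 else 0) + (if p = b₄ then 1 else 0) := by
    intro p
    rcases hmem p with h | h | h | h | h | h <;> subst h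
    · rw [if_pos (Or.inl rfl), if_neg ha1, if_neg ha2, if_neg ha3, if_neg ha4]
      rfl
    · rw [if_pos (Or.inr rfl), if_neg hd1, if_neg hd2, if_neg hd3, if_neg hd4]
      rfl
    · rw [if_neg (fun h => h.elim (fun h => ha1 h.symm) (fun h => hd1 h.symm)), if_pos rfl,
        if_neg h12, if_neg h13, if_neg h14]
      rfl
    · rw [if_neg (fun h => h.elim (fun h => ha2 h.symm) (fun h => hd2 h.symm)), if_pos rfl,
        if_neg (Ne.symm h12), if_neg h23, if_neg h24]
      rfl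
    · rw [if_neg (fun h => h.elim (fun h => ha3 h.symm) (fun h => hd3 h.symm)), if_pos rfl,
        if_neg (Ne.symm h13), if_neg (Ne.symm h23), if_neg h34]
      rfl
    · rw [if_neg (fun h => h.elim (fun h => ha4 h.symm) (fun h => hd4 h.symm)), if_pos rfl,
        if_neg (Ne.symm h14), if_neg (Ne.symm h24), if_neg (Ne.symm h34)]
      rfl
  rw [← sum_add_distrib, ← sum_add_distrib, ← sum_add_distrib]
  have e1 : ∑ x ∈ U, (om κ b₁ d x + om κ b₂ d x + om κ b₃ d x + om κ b₄ d x) =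
      -∑ x ∈ U, ∑ m ∈ range 6, (if κ (x + dir m) = d then (1 : ℤ) *
      ((if κ (x + dir (m + 1)) = a ∨ κ (x + dir (m + 1)) = d then 0 else 1) -
        (if κ (x + dir (m + 5)) = a ∨ κ (x + dir (m + 5)) = d then 0 else 1)) else 0) := by
    rw [← sum_neg_distrib]
    refine sum_congr rfl ?_
    intro x _
    rw [om_eq (Ne.symm hd1) x, om_eq (Ne.symm hd2) x, om_eq (Ne.symm hd3) x, om_eq (Ne.symm hd4) x,
      ← sum_add_distrib, ← sum_add_distrib, ← sum_add_distrib, ← sum_neg_distrib]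
    refine sum_congr rfl ?_
    intro m _
    by_cases hd : κ (x + dir m) = d
    · simp only [if_pos hd, key]
      ring
    · simp only [if_neg hd]
      ring
  rw [e1, hc, neg_zero]

end

end Pool.Agent.Lib.MP_d577c7_co.CN
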