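import Mathlib

/-!
# Closed chromatic number of the plane: definitions

Discrete setting. `(a, b) : ℤ × ℤ` stands for `a + b ω`, `ω = exp (i π / 3)`, in the triangular
lattice. The forbidden distance is a large natural number `R`; a colouring `κ` avoids all
distances in `[R - 8, R + 8]` (inside the ball of radius `10 R`).
-/

namespace Pool.Agent.Lib.MP_d577c7_co.CN

noncomputable section

open Finset

/-- Lattice points. -/
abbrev P := ℤ × ℤ

/-- The norm form, square of the Euclidean length of `a + b ω`. -/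
def N (z : P) : ℤ := z.1 ^ 2 + z.1 * z.2 + z.2 ^ 2

/-- The embedding of the lattice into the complex plane. -/
def emb (z : P) : ℂ := ⟨(z.1 : ℝ) + (z.2 : ℝ) / 2, (z.2 : ℝ) * (Real.sqrt 3 / 2)⟩

/-- Euclidean length. -/
def nm (z : P) : ℝ := ‖emb z‖

/-- Rotation by 60 degrees. -/
def rot (z : P) : P := (-z.2, z.1 + z.2)

/-- The six unit vectors, `dir (m + 6) = dir m`. -/
def dir (m : ℕ) : P := rot^[m] (1, 0)

/-- Signed indicator of the transition `i → j`. -/
def E (i j p q : Fin 6) : ℤ :=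
  (if p = i ∧ q = j then 1 else 0) - (if p = j ∧ q = i then 1 else 0)

/-- Signed indicator of a counterclockwise triangle with colours `i, j, k`. -/
def eps (i j k p q r : Fin 6) : ℤ :=
  (if p = i then E j k q r else 0) + (if q = i then E j k r p else 0) +
    (if r = i then E j k p q else 0)

/-- Local corner count at `z`: signed number of the transitions `j → k` around `z`. -/
def om (κ : P → Fin 6) (j k : Fin 6) (z : P) : ℤ :=
  ∑ m ∈ range 6, E j k (κ (z + dir m)) (κ (z + dir (m + 1)))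

/-- The rhombi of the sector `0 ≤ a, b` below the staircase. -/
def Sect (R : ℕ) : Finset (ℕ × ℕ) :=
  (range R ×ˢ range R).filter (fun r => N ((r.1 : ℤ) + 1, (r.2 : ℤ) + 1) ≤ (R : ℤ) ^ 2)

/-- The sum of `F` over the two triangles of the rhombus with lowest corner `r`. -/
def rh (F : P → P → P → ℤ) (r : P) : ℤ :=
  F r (r + (1, 0)) (r + (0, 1)) + F (r + (1, 0)) (r + (1, 1)) (r + (0, 1))

/-- The sum of `F` over the triangles of the discrete disc of radius `R` about `0`. -/
def chain (R : ℕ) (F : P → P → P → ℤ) : ℤ :=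
  ∑ j ∈ range 6, ∑ r ∈ Sect R,
    rh (fun u v w => F (rot^[j] u) (rot^[j] v) (rot^[j] w)) ((r.1 : ℤ), (r.2 : ℤ))

/-- One step of the staircase. -/
def stepP (R : ℕ) (z : P) : P :=
  if N (z.1, z.2 + 1) ≤ (R : ℤ) ^ 2 then (z.1, z.2 + 1) else (z.1 - 1, z.2)

/-- The staircase from `(R, 0)` to `(0, R)`. -/
def g (R k : ℕ) : P := (stepP R)^[k] ((R : ℤ), 0)

/-- The discrete circle of radius `R` about `0`: a closed walk of length `12 R`. -/
def G (R k : ℕ) : P := rot^[k / (2 * R)] (g R (k % (2 * R)))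

/-- The lattice points of length `< R`. -/
def Ball (R : ℕ) : Finset P :=
  ((Icc (-(2 * R : ℤ)) (2 * R)) ×ˢ (Icc (-(2 * R : ℤ)) (2 * R))).filter
    (fun z => N z < (R : ℤ) ^ 2)

/-- The discrete disc about `x`: signed number of triangles coloured `i, j, k`. -/
def cc (κ : P → Fin 6) (R : ℕ) (x : P) (i j k : Fin 6) : ℤ :=
  chain R (fun u v w => eps i j k (κ (x + u)) (κ (x + v)) (κ (x + w)))

/-- The signed number of the transitions `i → j` on the discrete circle about `x`. -/
def ww (κ : P → Fin 6) (R : ℕ) (x : P) (i j : Fin 6) : ℤ :=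
  ∑ k ∈ range (12 * R), E i j (κ (x + G R k)) (κ (x + G R (k + 1)))

/-- The colouring avoids the distances in `[R - 8, R + 8]` in the ball of radius `10 R`. -/
def Avoid (κ : P → Fin 6) (R : ℕ) : Prop :=
  ∀ x y : P, nm x ≤ 10 * R → nm y ≤ 10 * R → (R : ℝ) - 8 ≤ nm (x - y) →
    nm (x - y) ≤ (R : ℝ) + 8 → κ x ≠ κ y

/-- `u` has colour `i` and neighbours of the colours `j` and `k`. -/
def Tp (κ : P → Fin 6) (i j k : Fin 6) (u : P) : Prop :=
  κ u = i ∧ (∃ v, nm (v - u) ≤ 1 ∧ κ v = j) ∧ ∃ w, nm (w - u) ≤ 1 ∧ κ w = k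

/-- All six colours are different. -/
def Six (i j k l m n : Fin 6) : Prop := [i, j, k, l, m, n].Nodup

/-- A cell: a component of a colour class. -/
structure Cell (κ : P → Fin 6) (R : ℕ) (a : Fin 6) (U : Finset P) : Prop where
  col : ∀ x ∈ U, κ x = a
  clo : ∀ x ∈ U, ∀ y, nm (y - x) ≤ 1 → κ y = a → y ∈ U
  con : ∀ x ∈ U, ∀ y ∈ U, Relation.ReflTransGen
    (fun u v => u ∈ U ∧ v ∈ U ∧ nm (v - u) ≤ 1) x y
  dia : ∀ x ∈ U, ∀ y ∈ U, nm (y - x) ≤ R
  reg : ∀ x ∈ U, nm x ≤ 6 * R

end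

end Pool.Agent.Lib.MP_d577c7_co.CN
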