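import Pool.Agent.Lib.MP_d577c7_co.CN.Walk

/-!
# Far: points of the circle in far sectors (30 min)

Let `z = g R p`, `z' = g R q` (coordinates `≥ 0`, `g_inv`) and `t ∈ {2, 3, 4}`. By `G_sector`,
`nm_rot_iter`, `rot_iter_sub` the distance in question is `nm (rot^[t] z' - z)` (and
`rot^[s + t] z' - rot^[s] z = rot^[s] (rot^[t] z' - z)`).
With `B z z' = 2 z.1 z'.1 + 2 z.2 z'.2 + z.1 z'.2 + z.2 z'.1` (twice the inner product)
`N (z' - z) = N z + N z' - B z z'`. `rot^[2] (a, b) = (-a - b, a)`, `rot^[3] (a, b) = (-a, -b)`,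
`rot^[4] (a, b) = (b, -a - b)`. For `z = (x, y)`, `z' = (a, b)`, all `≥ 0`:
`B z (rot^[2] z') = -a x - 2 b x + a y - b y ≤ a y`, `B z (rot^[3] z') ≤ 0`,
`B z (rot^[4] z') ≤ b x`, and `a ^ 2, b ^ 2 ≤ N z'`, `x ^ 2, y ^ 2 ≤ N z`, so that
`N (rot^[t] z' - z) ≥ N z + N z' - nm z * nm z' ≥ (R - 2) ^ 2`
(`s ^ 2 + t ^ 2 - s t ≥ (R - 2) ^ 2` if `s, t ≥ R - 2 ≥ 0`; for `R = 1` trivial).
-/

namespace Pool.Agent.Lib.MP_d577c7_co.CN

open Finset

noncomputable section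

private theorem Far_coord {z : P} (h1 : 0 ≤ z.1) (h2 : 0 ≤ z.2) :
    (z.1 : ℝ) ≤ nm z ∧ (z.2 : ℝ) ≤ nm z := by
  have h := nm_sq z
  have h0 := nm_nonneg z
  have e1 : (0 : ℝ) ≤ (z.1 : ℝ) := by exact_mod_cast h1
  have e2 : (0 : ℝ) ≤ (z.2 : ℝ) := by exact_mod_cast h2
  have hN : (N z : ℝ) = (z.1 : ℝ) ^ 2 + (z.1 : ℝ) * (z.2 : ℝ) + (z.2 : ℝ) ^ 2 := by
    simp only [N]
    push_cast
    ring
  rw [hN] at h
  have e3 : 0 ≤ (z.1 : ℝ) * (z.2 : ℝ) := mul_nonneg e1 e2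
  constructor
  · apply le_of_sq_le_sq _ h0
    rw [h]
    nlinarith [sq_nonneg (z.2 : ℝ)]
  · apply le_of_sq_le_sq _ h0
    rw [h]
    nlinarith [sq_nonneg (z.1 : ℝ)]

private theorem Far_sq {m u v w : ℝ} (hm : 0 ≤ m) (hu : m ≤ u) (hv : m ≤ v) (hw : 0 ≤ w)
    (h : u ^ 2 + v ^ 2 - u * v ≤ w ^ 2) : m ≤ w := by
  apply le_of_sq_le_sq _ hw
  nlinarith [sq_nonneg (u - v), mul_le_mul hu hv hm (hm.trans hu)]

private theorem Far_B {t : ℕ} (ht : t = 2 ∨ t = 3 ∨ t = 4) {z z' : P} (h1 : 0 ≤ z.1) (h2 : 0 ≤ z.2)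
    (h3 : 0 ≤ z'.1) (h4 : 0 ≤ z'.2) :
    (N z : ℝ) + (N z' : ℝ) - nm z * nm z' ≤ (N (rot^[t] z' - z) : ℝ) := by
  obtain ⟨a1, a2⟩ := Far_coord h1 h2
  obtain ⟨b1, b2⟩ := Far_coord h3 h4
  have n1 := nm_nonneg z
  have n2 := nm_nonneg z'
  obtain ⟨x, y⟩ := z
  obtain ⟨a, b⟩ := z'
  simp only at h1 h2 h3 h4 a1 a2 b1 b2
  have ex : (0 : ℝ) ≤ (x : ℝ) := by exact_mod_cast h1
  have ey : (0 : ℝ) ≤ (y : ℝ) := by exact_mod_cast h2
  have ea : (0 : ℝ) ≤ (a : ℝ) := by exact_mod_cast h3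
  have eb : (0 : ℝ) ≤ (b : ℝ) := by exact_mod_cast h4
  have m1 : (y : ℝ) * (a : ℝ) ≤ nm (x, y) * nm (a, b) := mul_le_mul a2 b1 ea n1
  have m2 : (x : ℝ) * (b : ℝ) ≤ nm (x, y) * nm (a, b) := mul_le_mul a1 b2 eb n1
  have p1 := mul_nonneg ex ea
  have p2 := mul_nonneg ex eb
  have p3 := mul_nonneg ey ea
  have p4 := mul_nonneg ey eb
  rcases ht with rfl | rfl | rfl
  · have e : ((N (rot^[2] (a, b) - (x, y)) : ℤ) : ℝ) = (N (x, y) : ℝ) + (N (a, b) : ℝ)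
        - (-(x * a) - 2 * (x * b) + y * a - y * b : ℝ) := by
      simp only [Function.iterate_succ, Function.iterate_zero, Function.comp, rot, id, N, Prod.fst_sub,
        Prod.snd_sub]
      push_cast
      ring
    rw [e]
    linarith
  · have e : ((N (rot^[3] (a, b) - (x, y)) : ℤ) : ℝ) = (N (x, y) : ℝ) + (N (a, b) : ℝ)
        - (-(2 * (x * a)) - 2 * (y * b) - x * b - y * a : ℝ) := by
      simp only [Function.iterate_succ, Function.iterate_zero, Function.comp, rot, id, N, Prod.fst_sub,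
        Prod.snd_sub]
      push_cast
      ring
    rw [e]
    have := mul_nonneg n1 n2
    linarith
  · have e : ((N (rot^[4] (a, b) - (x, y)) : ℤ) : ℝ) = (N (x, y) : ℝ) + (N (a, b) : ℝ)
        - (x * b - 2 * (y * a) - y * b - x * a : ℝ) := by
      simp only [Function.iterate_succ, Function.iterate_zero, Function.comp, rot, id, N, Prod.fst_sub,
        Prod.snd_sub]
      push_cast
      ring
    rw [e]
    linarith

theorem G_far {R : ℕ} (hR : 0 < R) (s t p q : ℕ) (ht : t = 2 ∨ t = 3 ∨ t = 4) (hp : p < 2 * R)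
    (hq : q < 2 * R) : (R : ℝ) - 2 ≤ nm (G R (2 * R * (s + t) + q) - G R (2 * R * s + p)) := by
  have e1 := G_sector hR (s + t) q hq.le
  have e2 := G_sector hR s p hp.le
  rw [e1, e2, Function.iterate_add_apply, ← rot_iter_sub, nm_rot_iter]
  have i1 := g_inv R p hp.le
  have i2 := g_inv R q hq.le
  have l1 : (R : ℝ) - 2 ≤ nm (g R p) := by
    have h := (G_nm hR (2 * R * 0 + p)).1
    rw [G_sector hR 0 p hp.le] at h
    exact h
  have l2 : (R : ℝ) - 2 ≤ nm (g R q) := by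
    have h := (G_nm hR (2 * R * 0 + q)).1
    rw [G_sector hR 0 q hq.le] at h
    exact h
  have hn := nm_nonneg (rot^[t] (g R q) - g R p)
  rcases le_or_gt (0 : ℝ) ((R : ℝ) - 2) with h0 | h0
  · apply Far_sq h0 l1 l2 hn
    have hB := Far_B ht i1.1 i1.2.1 i2.1 i2.2.1
    have s1 := nm_sq (g R p)
    have s2 := nm_sq (g R q)
    have s3 := nm_sq (rot^[t] (g R q) - g R p)
    rw [s1, s2, s3]
    exact hB
  · linarith

end

end Pool.Agent.Lib.MP_d577c7_co.CN
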