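import Pool.Agent.Lib.MP_d577c7_co.CN.Stokes
import Pool.Agent.Lib.MP_d577c7_co.CN.Supp
import Pool.Agent.Lib.MP_d577c7_co.CN.Far

/-!
# TEx: a triangle with three colours exists

Let `u ~ v` be the equivalence relation generated by `κ u = κ v ∧ nm (v - u) ≤ 1`. As in `Comp`: if
`nm u ≤ 2 R` and `u ~ v` then `nm (v - u) < R - 8` (follow the path from `u`; all points have
`nm ≤ 3 R`; `Avoid`). Suppose that no point `x` with `nm x ≤ R` has `Tp κ a b d x` with three
different colours.
There is `s : P → ZMod 6` with `s u = s v` whenever `κ u = κ v ∧ nm (v - u) ≤ 1` and,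
for `k < 12 R`, `s (G R k) = (k / (2 R) : ℕ)` or `= (k / (2 R) : ℕ) - 1` in `ZMod 6`. Proof: for a
class `q` let `Sec q` be the set of the `t : ZMod 6` such that `G R (2 R t + p) ∈ q` for some `p < 2 R`.
By `G_far` (`nm ≥ R - 2`) and the distance bound, elements of `Sec q` differ by `-1, 0, 1`. For each
nonempty `S : Finset (ZMod 6)` with this property there is `i ∈ S` with
`S ⊆ {i, i + 1}` (`decide`). Let `s = i` on `q` (`0` if `Sec q` is empty).
MAIN. `φ : ZMod 6 → ZMod 6 → ℤ`, `φ p q` = the representative of `q - p` in `{-2, .., 2}`, `0` if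
`q - p = 3`; antisymmetric. `F u v = φ (s u) (s v)`. On every triangle of the disc (`Trg`) at least two
of the three vertices have the same colour (otherwise `Tp`), so the same `s`, and the curl of `F` is
`0`. `stokes`, `chain_supp`: `∑ k < 12 R, F (G k) (G (k + 1)) = 0`. On the other hand let
`η k ∈ {0, -1}`, `s (G k) = k / (2 R) + η k`; `(k + 1) / (2 R) - k / (2 R) ∈ {0, 1}`, so
`φ (s (G k)) (s (G (k + 1))) = (k + 1) / (2 R) - k / (2 R) + η (k + 1) - η k` (the right side is in
`{-1, .., 2}`); at `k + 1 = 12 R`: `G (12 R) = G 0`, `η (12 R) := η 0`. The sum is `6`. Contradiction.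
-/

namespace Pool.Agent.Lib.MP_d577c7_co.CN

open Finset

noncomputable section

variable {κ : P → Fin 6} {R : ℕ}

/-- one step inside a colour class -/
private def texR (κ : P → Fin 6) (u v : P) : Prop := κ u = κ v ∧ nm (v - u) ≤ 1

private theorem texR_symm {u v : P} (h : texR κ u v) : texR κ v u :=
  ⟨h.1.symm, by rw [nm_comm]; exact h.2⟩

private theorem tex_rtg_symm {u v : P} (h : Relation.ReflTransGen (texR κ) u v) :
    Relation.ReflTransGen (texR κ) v u := by
  induction h with
  | refl => exact Relation.ReflTransGen.refl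
  | tail _ hbc ih => exact Relation.ReflTransGen.head (texR_symm hbc) ih

/-- components are short -/
private theorem tex_short (hA : Avoid κ R) (hR : 100 ≤ R) {u v : P} (hu : nm u ≤ 2 * R)
    (h : Relation.ReflTransGen (texR κ) u v) : κ v = κ u ∧ nm (v - u) < (R : ℝ) - 8 := by
  have hRr : (100 : ℝ) ≤ R := by exact_mod_cast hR
  induction h with
  | refl =>
    refine ⟨rfl, ?_⟩
    rw [sub_self, nm_zero]
    linarith
  | @tail b c _ hbc ih =>
    obtain ⟨h1, h2⟩ := ih
    have h3 : κ c = κ u := hbc.1.symm.trans h1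
    refine ⟨h3, ?_⟩
    by_contra h4
    push Not at h4
    have h5 : nm (c - u) ≤ nm (c - b) + nm (b - u) := nm_tri _ _ _
    have h6 := hbc.2
    have h7 : nm c ≤ nm (c - u) + nm u := by
      have := nm_add_le (c - u) u
      rwa [sub_add_cancel] at this
    exact hA c u (by linarith) (by linarith) h4 (by linarith) h3

private theorem tex_period (hR : 0 < R) (k : ℕ) : G R (k + 12 * R) = G R k := by
  have h1 : k = 2 * R * (k / (2 * R)) + k % (2 * R) := (Nat.div_add_mod k (2 * R)).symm
  have h2 : k % (2 * R) ≤ 2 * R := (Nat.mod_lt _ (by omega)).le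
  have h3 : G R k = rot^[k / (2 * R)] (g R (k % (2 * R))) := by
    conv_lhs => rw [h1]
    exact G_sector hR _ _ h2
  have h4 : k + 12 * R = 2 * R * (k / (2 * R) + 6) + k % (2 * R) := by
    conv_lhs => rw [h1]
    ring
  rw [h3, h4, G_sector hR _ _ h2, Function.iterate_add_apply, rot_six]

/-- the sectors met by the component of `u` -/
private def texSec (κ : P → Fin 6) (R : ℕ) (u : P) : Finset (ZMod 6) :=
  open Classical in
  univ.filter fun t => ∃ k < 12 * R, ((k / (2 * R) : ℕ) : ZMod 6) = t ∧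
    Relation.ReflTransGen (texR κ) u (G R k)

private theorem tex_sec_congr {u v : P} (h : texR κ u v) : texSec κ R u = texSec κ R v := by
  unfold texSec
  ext t
  simp only [mem_filter, mem_univ, true_and]
  constructor
  · rintro ⟨k, hk, ht, hr⟩
    exact ⟨k, hk, ht, Relation.ReflTransGen.head (texR_symm h) hr⟩
  · rintro ⟨k, hk, ht, hr⟩
    exact ⟨k, hk, ht, Relation.ReflTransGen.head h hr⟩

private theorem tex_choose : ∀ S : Finset (ZMod 6), S.Nonempty →
    (∀ i ∈ S, ∀ j ∈ S, j - i = 0 ∨ j - i = 1 ∨ j - i = 5) → ∃ i ∈ S, ∀ j ∈ S, j = i ∨ j = i + 1 := by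
  decide

private theorem tex_natcast : ∀ a b : ℕ, a < 6 → b < 6 → ∀ t : ℕ, t < 6 →
    (((b : ℕ) : ZMod 6) - ((a : ℕ) : ZMod 6) = ((t : ℕ) : ZMod 6)) → b = a + t ∨ b + 6 = a + t := by
  intro a b ha hb t ht
  interval_cases a <;> interval_cases b <;> interval_cases t <;> revert ht <;> decide

private theorem tex_far (hA : Avoid κ R) (hR : 100 ≤ R) {k k' : ℕ} (hk : k < 12 * R)
    (hk' : k' < 12 * R) (h : Relation.ReflTransGen (texR κ) (G R k) (G R k')) :
    ((k' / (2 * R) : ℕ) : ZMod 6) - ((k / (2 * R) : ℕ) : ZMod 6) = 0 ∨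
      ((k' / (2 * R) : ℕ) : ZMod 6) - ((k / (2 * R) : ℕ) : ZMod 6) = 1 ∨
      ((k' / (2 * R) : ℕ) : ZMod 6) - ((k / (2 * R) : ℕ) : ZMod 6) = 5 := by
  have hR0 : 0 < R := by omega
  have hs : k / (2 * R) < 6 := by
    rw [Nat.div_lt_iff_lt_mul (by omega)]
    omega
  have hs' : k' / (2 * R) < 6 := by
    rw [Nat.div_lt_iff_lt_mul (by omega)]
    omega
  have hp : k % (2 * R) < 2 * R := Nat.mod_lt _ (by omega)
  have hp' : k' % (2 * R) < 2 * R := Nat.mod_lt _ (by omega)
  have hk1 : 2 * R * (k / (2 * R)) + k % (2 * R) = k := Nat.div_add_mod k (2 * R)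
  have hk1' : 2 * R * (k' / (2 * R)) + k' % (2 * R) = k' := Nat.div_add_mod k' (2 * R)
  have hshort := (tex_short hA hR (by
    have h1 := (G_nm hR0 k).2
    have h2 : (0 : ℝ) ≤ R := Nat.cast_nonneg R
    linarith) h).2
  have hno : ∀ t : ℕ, (t = 2 ∨ t = 3 ∨ t = 4) →
      ((k' / (2 * R) : ℕ) : ZMod 6) - ((k / (2 * R) : ℕ) : ZMod 6) ≠ ((t : ℕ) : ZMod 6) := by
    intro t ht he
    have ht6 : t < 6 := by omega
    have hfar := G_far hR0 (k / (2 * R)) t (k % (2 * R)) (k' % (2 * R)) ht hp hp'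
    rw [hk1] at hfar
    have hk2 : G R (2 * R * (k / (2 * R) + t) + k' % (2 * R)) = G R k' := by
      rcases tex_natcast _ _ hs hs' t ht6 he with h1 | h1
      · rw [← h1, hk1']
      · rw [← h1]
        have h2 : 2 * R * (k' / (2 * R) + 6) + k' % (2 * R) = k' + 12 * R := by
          conv_rhs => rw [← hk1']
          ring
        rw [h2, tex_period hR0]
    rw [hk2] at hfar
    linarith
  have key : ∀ d : ZMod 6, d ≠ ((2 : ℕ) : ZMod 6) → d ≠ ((3 : ℕ) : ZMod 6) →
      d ≠ ((4 : ℕ) : ZMod 6) → d = 0 ∨ d = 1 ∨ d = 5 := by decide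
  exact key _ (hno 2 (by decide)) (hno 3 (by decide)) (hno 4 (by decide))

/-- the sector function -/
private theorem tex_s (hA : Avoid κ R) (hR : 100 ≤ R) :
    ∃ s : P → ZMod 6, (∀ u v, texR κ u v → s u = s v) ∧
      ∀ k < 12 * R, s (G R k) = ((k / (2 * R) : ℕ) : ZMod 6) ∨
        s (G R k) = ((k / (2 * R) : ℕ) : ZMod 6) - 1 := by
  classical
  let ch : Finset (ZMod 6) → ZMod 6 := fun S =>
    if h : ∃ i ∈ S, ∀ j ∈ S, j = i ∨ j = i + 1 then h.choose else 0
  refine ⟨fun u => ch (texSec κ R u), ?_, ?_⟩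
  · intro u v h
    show ch (texSec κ R u) = ch (texSec κ R v)
    rw [tex_sec_congr h]
  · intro k hk
    have hmem : ((k / (2 * R) : ℕ) : ZMod 6) ∈ texSec κ R (G R k) := by
      unfold texSec
      simp only [mem_filter, mem_univ, true_and]
      exact ⟨k, hk, rfl, Relation.ReflTransGen.refl⟩
    have hex : ∃ i ∈ texSec κ R (G R k), ∀ j ∈ texSec κ R (G R k), j = i ∨ j = i + 1 := by
      refine tex_choose _ ⟨_, hmem⟩ ?_
      intro i hi j hj
      unfold texSec at hi hj
      simp only [mem_filter, mem_univ, true_and] at hi hj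
      obtain ⟨l, hl, hil, hrl⟩ := hi
      obtain ⟨m, hm, hjm, hrm⟩ := hj
      rw [← hil, ← hjm]
      exact tex_far hA hR hl hm ((tex_rtg_symm hrl).trans hrm)
    have hch : ch (texSec κ R (G R k)) = hex.choose := dif_pos hex
    show ch (texSec κ R (G R k)) = _ ∨ ch (texSec κ R (G R k)) = _
    rw [hch]
    rcases hex.choose_spec.2 _ hmem with h | h
    · exact Or.inl h.symm
    · right
      rw [h]
      ring

/-- the representative in `{-2, .., 2}` -/
private def texPsi (d : ZMod 6) : ℤ :=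
  if d = 1 then 1 else if d = 2 then 2 else if d = 4 then -2 else if d = 5 then -1 else 0

private theorem texPsi_neg : ∀ d : ZMod 6, texPsi (-d) = -texPsi d := by decide

private theorem texPsi_curl (p q r : ZMod 6) (h : p = q ∨ q = r ∨ p = r) :
    texPsi (q - p) + texPsi (r - q) + texPsi (p - r) = 0 := by
  have h0 : texPsi 0 = 0 := by decide
  rcases h with rfl | rfl | rfl
  · have h1 : p - r = -(r - p) := by ring
    rw [sub_self, h0, h1, texPsi_neg]
    ring
  · have h1 : p - q = -(q - p) := by ring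
    rw [sub_self, h0, h1, texPsi_neg]
    ring
  · have h1 : p - q = -(q - p) := by ring
    rw [sub_self, h0, h1, texPsi_neg]
    ring

private theorem texPsi_val (D : ℤ) (h1 : -1 ≤ D) (h2 : D ≤ 2) : texPsi ((D : ℤ) : ZMod 6) = D := by
  interval_cases D <;> decide

theorem tri_exists (hA : Avoid κ R) (hR : 100 ≤ R) :
    ∃ x : P, nm x ≤ R ∧ ∃ a b d : Fin 6, a ≠ b ∧ a ≠ d ∧ b ≠ d ∧ Tp κ a b d x := by
  by_contra hno
  have hR0 : 0 < R := by omega
  obtain ⟨s, hs, hsG⟩ := tex_s hA hR
  let F : P → P → ℤ := fun u v => texPsi (s v - s u)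
  have hF : ∀ u v, F u v = -F v u := by
    intro u v
    show texPsi (s v - s u) = -texPsi (s u - s v)
    rw [← texPsi_neg]
    congr 1
    ring
  have hst := stokes hR0 F hF
  have hzero : chain R (fun u v w => F u v + F v w + F w u) = 0 := by
    by_contra hne
    obtain ⟨u, v, w, ⟨hu, hv, hw, h1, h2, h3⟩, h4⟩ := chain_supp hne
    apply h4
    show texPsi (s v - s u) + texPsi (s w - s v) + texPsi (s u - s w) = 0
    apply texPsi_curl
    by_cases e1 : κ u = κ v
    · exact Or.inl (hs u v ⟨e1, h1.le⟩)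
    by_cases e2 : κ v = κ w
    · exact Or.inr (Or.inl (hs v w ⟨e2, h2.le⟩))
    by_cases e3 : κ u = κ w
    · exact Or.inr (Or.inr (hs w u ⟨e3.symm, h3.le⟩).symm)
    exfalso
    refine hno ⟨u, hu, κ u, κ v, κ w, e1, e3, e2, rfl, ⟨v, h1.le, rfl⟩, w, ?_, rfl⟩
    rw [nm_comm]
    exact h3.le
  rw [hzero] at hst
  -- the sector function on the circle
  have hη : ∃ η : ℕ → ℤ, (∀ k, η k = 0 ∨ η k = -1) ∧ η (12 * R) = η 0 ∧
      ∀ k ≤ 12 * R, s (G R k) = (((k / (2 * R) : ℕ) : ℤ) + η k : ℤ) := by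
    classical
    let η0 : ℕ → ℤ := fun k => if s (G R k) = ((k / (2 * R) : ℕ) : ZMod 6) then 0 else -1
    have h01 : ∀ k, η0 k = 0 ∨ η0 k = -1 := by
      intro k
      show (if _ then (0 : ℤ) else -1) = 0 ∨ (if _ then (0 : ℤ) else -1) = -1
      by_cases h : s (G R k) = ((k / (2 * R) : ℕ) : ZMod 6)
      · exact Or.inl (if_pos h)
      · exact Or.inr (if_neg h)
    have hval : ∀ k < 12 * R, s (G R k) = (((k / (2 * R) : ℕ) : ℤ) + η0 k : ℤ) := by
      intro k hk
      by_cases h : s (G R k) = ((k / (2 * R) : ℕ) : ZMod 6)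
      · have h1 : η0 k = 0 := if_pos h
        rw [h1, add_zero, h, Int.cast_natCast]
      · have h1 : η0 k = -1 := if_neg h
        rcases hsG k hk with h2 | h2
        · exact absurd h2 h
        · rw [h1, h2]
          simp only [Int.cast_add, Int.cast_natCast, Int.cast_neg, Int.cast_one]
          ring
    refine ⟨fun k => if k = 12 * R then η0 0 else η0 k, ?_, ?_, ?_⟩
    · intro k
      show (if k = 12 * R then η0 0 else η0 k) = 0 ∨ (if k = 12 * R then η0 0 else η0 k) = -1
      by_cases h : k = 12 * R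
      · rw [if_pos h]; exact h01 0
      · rw [if_neg h]; exact h01 k
    · show (if 12 * R = 12 * R then η0 0 else η0 (12 * R)) = if 0 = 12 * R then η0 0 else η0 0
      rw [if_pos rfl, ite_self]
    · intro k hk
      show s (G R k) = (((k / (2 * R) : ℕ) : ℤ) + (if k = 12 * R then η0 0 else η0 k) : ℤ)
      by_cases h : k = 12 * R
      · rw [if_pos h, h]
        have h1 : G R (12 * R) = G R 0 := by
          have := tex_period hR0 0
          rwa [zero_add] at this
        have h2 : 12 * R / (2 * R) = 6 := by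
          rw [show 12 * R = 6 * (2 * R) by ring]
          exact Nat.mul_div_cancel _ (by omega)
        rw [h1, h2, hval 0 (by omega), Nat.zero_div]
        push_cast
        have h3 : (6 : ZMod 6) = 0 := by decide
        rw [h3]
      · rw [if_neg h]
        exact hval k (by omega)
  obtain ⟨η, hη1, hη2, hη3⟩ := hη
  have hstep : ∀ k ∈ range (12 * R), F (G R k) (G R (k + 1)) =
      ((((k + 1) / (2 * R) : ℕ) : ℤ) + η (k + 1)) - (((k / (2 * R) : ℕ) : ℤ) + η k) := by
    intro k hk
    have hk' := mem_range.1 hk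
    show texPsi (s (G R (k + 1)) - s (G R k)) = _
    rw [hη3 (k + 1) (by omega), hη3 k (by omega), ← Int.cast_sub]
    have hd : (k + 1) / (2 * R) = k / (2 * R) ∨ (k + 1) / (2 * R) = k / (2 * R) + 1 := by
      rw [Nat.succ_div]
      by_cases h : 2 * R ∣ k + 1
      · rw [if_pos h]; exact Or.inr rfl
      · rw [if_neg h]; exact Or.inl rfl
    have h1 := hη1 k
    have h2 := hη1 (k + 1)
    apply texPsi_val
    · rcases hd with hd | hd <;> rw [hd] <;> push_cast <;> omega
    · rcases hd with hd | hd <;> rw [hd] <;> push_cast <;> omega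
  rw [sum_congr rfl hstep, sum_range_sub (fun k => (((k / (2 * R) : ℕ) : ℤ) + η k))] at hst
  have h2 : 12 * R / (2 * R) = 6 := by
    rw [show 12 * R = 6 * (2 * R) by ring]
    exact Nat.mul_div_cancel _ (by omega)
  rw [h2, hη2, Nat.zero_div] at hst
  push_cast at hst
  omega

end

end Pool.Agent.Lib.MP_d577c7_co.CN
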