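import Pool.Agent.Lib.MP_d577c7_co.CN.Comp
import Pool.Agent.Lib.MP_d577c7_co.CN.TEx

/-!
# Disc: the discrete theorem (25 min)

`tri_exists`, `six_compl`: `Six a b d e f g`, `Tp κ a b d x`, `nm x ≤ R`. `cc_stokes` for `(e, f)`:
`cc e f a + cc e f b + cc e f d + cc e f g = ww e f`, odd (`ww_odd`). `cc e f g = 0` (`cc_zero`, `x' = x`).
`cc e f a = cc a e f = 0` by `cc_rot`, `cc_eq_vertex` with `y = x` and `vertex_zero`; for the neighbour
`v` of colour `b`: `cc κ R x b e f` by `cc_eq_vertex` with `y = v` (`nm (x - v) ≤ 1`), `vertex_zero`;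
the same for `d`.
-/

namespace Pool.Agent.Lib.MP_d577c7_co.CN

open Finset

variable {κ : P → Fin 6} {R : ℕ}

private theorem disc_cc (hA : Avoid κ R) (hR : 100 ≤ R) {x y : P} {i e f : Fin 6} (hie : i ≠ e)
    (hif : i ≠ f) (hef : e ≠ f) (hy : nm y ≤ 4 * R) (hi : κ y = i) (hxy : nm (x - y) ≤ 1) :
    cc κ R x e f i = 0 := by
  have hR0 : (0 : ℝ) ≤ R := Nat.cast_nonneg R
  rw [cc_rot x hie hef hif, cc_eq_vertex hA hR (by linarith) hi hxy]
  exact vertex_zero hA hR hie hif hef hy hi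

theorem disc (hA : Avoid κ R) (hR : 100 ≤ R) : False := by
  obtain ⟨x, hx, a, b, d, hab, had, hbd, ht⟩ := tri_exists hA hR
  obtain ⟨e, f, g, h6⟩ := six_compl hab had hbd
  have hR1 : (100 : ℝ) ≤ R := by exact_mod_cast hR
  have h6' : Six e f a b d g := by
    simp only [Six, List.nodup_cons, List.mem_cons, List.not_mem_nil, or_false, not_or,
      not_false_eq_true, List.nodup_nil, and_true] at h6 ⊢
    obtain ⟨⟨h1, h2, h3, h4, h5⟩, ⟨h7, h8, h9, h10⟩, ⟨h11, h12, h13⟩, ⟨h14, h15⟩, h16⟩ := h6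
    exact ⟨⟨h14, Ne.symm h3, Ne.symm h8, Ne.symm h11, h15⟩, ⟨Ne.symm h4, Ne.symm h9, Ne.symm h12, h16⟩,
      ⟨h1, h2, h5⟩, ⟨h7, h10⟩, h13⟩
  have hne := h6
  simp only [Six, List.nodup_cons, List.mem_cons, List.not_mem_nil, or_false, not_or,
      not_false_eq_true, List.nodup_nil, and_true] at hne
  obtain ⟨⟨h1, h2, h3, h4, h5⟩, ⟨h7, h8, h9, h10⟩, ⟨h11, h12, h13⟩, ⟨h14, h15⟩, h16⟩ := hne
  have hs := cc_stokes (κ := κ) (R := R) (by omega) x h6'
  have hodd := (ww_odd hA hR h6 (by linarith) ht).2.2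
  have hg : cc κ R x e f g = 0 :=
    cc_zero hA hR h6 (by linarith) (by linarith) (by rw [sub_self, nm_zero]; linarith) ht
  obtain ⟨hka, ⟨v, hv1, hv2⟩, w, hw1, hw2⟩ := ht
  have ha : cc κ R x e f a = 0 :=
    disc_cc hA hR h3 h4 h14 (by linarith) hka (by rw [sub_self, nm_zero]; norm_num)
  have hnv : nm v ≤ 4 * R := by
    have := nm_add_le (v - x) x
    rw [sub_add_cancel] at this
    linarith
  have hnw : nm w ≤ 4 * R := by
    have := nm_add_le (w - x) x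
    rw [sub_add_cancel] at this
    linarith
  have hb : cc κ R x e f b = 0 :=
    disc_cc hA hR h8 h9 h14 hnv hv2 (by rw [nm_comm]; exact hv1)
  have hd : cc κ R x e f d = 0 :=
    disc_cc hA hR h11 h12 h14 hnw hw2 (by rw [nm_comm]; exact hw1)
  rw [ha, hb, hd, hg] at hs
  rw [← hs] at hodd
  simp at hodd

end Pool.Agent.Lib.MP_d577c7_co.CN
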