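import Pool.Agent.Lib.MP_d577c7_co.CN.Geo

/-!
# Par: the winding number of a 3-coloured circle is odd (50 min)

Let `c : Fin 6 → ℤ`, `c e = 0, c f = 1, c g = 2` (other values irrelevant), `φ k = c (q k)`, and
`l k ∈ {-1, 0, 1}` the representative of `φ (k + 1) - φ k` mod 3.
`J k = ∑ i < M, l (k + i)`, so `J k ≡ φ (k + M) - φ k` (mod 3), never `0` mod 3.
`J (k + 1) - J k = l (k + M) - l k`. The sets `{q k, q (k + 1)}` and `{q (k + M), q (k + M + 1)}` are
disjoint subsets of a set of three colours, hence at most one of them has two elements, at most one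
of `l k`, `l (k + M)` is not zero and `|J (k + 1) - J k| ≤ 1`. As `J` never is `0` mod 3,
`J k / 3` is constant `= m` and `J k ∈ {3 m + 1, 3 m + 2}` for all `k`.
`∑ k < 6 M, l k = ∑ i < 6, J (i M)`, also `= ∑ i < 6, J (k + i M)` for all `k` (periodicity).
Let `ν k = #{i < 6 | J (k + i M) = 3 m + 2}`. Then `∑ l = 18 m + 6 + ν k`. And `∑ k < 6 M, l k ≡ 0`
mod 3 (`q (6 M) = q 0`), so `ν ∈ {0, 3, 6}` (the same for all `k`). `ν = 0` or `6`: `J` is constant,
`l (k + M) = l k`, so both are `0` for all `k`, `q` is constant, against `q (k + M) ≠ q k`.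
So `ν = 3`, `∑ l = 18 m + 9 = 3 (6 m + 3)`.
RELATION WITH THE NET TRANSITIONS. `W i j = ∑ k < 6 M, E i j (q k) (q (k + 1))`.
`l k = E e f + E f g + E g e` (at `q k, q (k + 1)`) (cases). `W e f = W f g`: for all `k`
`E e f (q k) (q (k+1)) - E f g (q k) (q (k+1)) = [q (k+1) = f] - [q k = f]` (cases on the colours), the
sum telescopes and `q` is periodic. In the same way `W f g = W g e`. So `3 W e f = 3 (6 m + 3)`.
-/

namespace Pool.Agent.Lib.MP_d577c7_co.CN

open Finset

noncomputable section

/-- lift of an element of `ZMod 3` to `{-1,0,1}` -/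
private def Par_lift (x : ZMod 3) : ℤ := if x = 0 then 0 else if x = 1 then 1 else -1

private theorem Par_lift_cast (x : ZMod 3) : ((Par_lift x : ℤ) : ZMod 3) = x := by
  revert x; decide

private theorem Par_lift_bd (x : ZMod 3) : Par_lift x = -1 ∨ Par_lift x = 0 ∨ Par_lift x = 1 := by
  revert x; decide

private theorem Par_lift_zero {x : ZMod 3} : Par_lift x = 0 → x = 0 := by
  revert x; decide

/-- disjointness of two pairs in three colours -/
private theorem Par_disj : ∀ a b c d : ZMod 3, a ≠ c → b ≠ d → a ≠ d → b ≠ c → a = b ∨ c = d := by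
  decide

private theorem Par_core (M : ℕ) (f : ℕ → ZMod 3)
    (hper : ∀ k, f (k + 6 * M) = f k)
    (h1 : ∀ k, f k ≠ f (k + M)) (h2 : ∀ k, f k ≠ f (k + M + 1))
    (h3 : ∀ k, f (k + 1) ≠ f (k + M)) :
    ∃ m : ℤ, ∑ i ∈ Finset.range (6 * M), Par_lift (f (i + 1) - f i) = 3 * (2 * m + 1) := by
  set l : ℕ → ℤ := fun k => Par_lift (f (k + 1) - f k) with hl
  have hlper : ∀ k, l (k + 6 * M) = l k := by
    intro k
    simp only [hl]
    rw [show k + 6 * M + 1 = (k + 1) + 6 * M by ring, hper, hper]
  set J : ℕ → ℤ := fun k => ∑ i ∈ Finset.range M, l (k + i) with hJ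
  have hstep : ∀ k, J (k + 1) - J k = l (k + M) - l k := by
    intro k
    have e1 : J (k + 1) = ∑ i ∈ Finset.range M, l (k + (i + 1)) := by
      simp only [hJ]
      apply Finset.sum_congr rfl
      intro i _
      congr 1
      ring
    have e2 : ∑ i ∈ Finset.range (M + 1), l (k + i) = J k + l (k + M) := by
      rw [Finset.sum_range_succ]
    have e3 : ∑ i ∈ Finset.range (M + 1), l (k + i) = J (k + 1) + l k := by
      rw [Finset.sum_range_succ', e1]; simp
    linarith
  have htel : ∀ (n : ℕ) (k : ℕ), ((∑ i ∈ Finset.range n, l (k + i) : ℤ) : ZMod 3) = f (k + n) - f k := by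
    intro n k
    induction n with
    | zero => simp
    | succ n ih =>
      rw [Finset.sum_range_succ, Int.cast_add, ih]
      simp only [hl]
      rw [Par_lift_cast]
      rw [show k + n + 1 = k + (n + 1) by ring]
      ring
  have hJm : ∀ k, ((J k : ℤ) : ZMod 3) ≠ 0 := by
    intro k h
    have := htel M k
    simp only [hJ] at h
    rw [h] at this
    exact h1 k (by rw [eq_comm, sub_eq_zero] at this; exact this.symm)
  have hone : ∀ k, l k = 0 ∨ l (k + M) = 0 := by
    intro k
    have := Par_disj (f k) (f (k + 1)) (f (k + M)) (f (k + M + 1)) (h1 k)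
      (by have := h1 (k + 1); rwa [show k + 1 + M = k + M + 1 by ring] at this) (h2 k) (h3 k)
    rcases this with h | h
    · left; simp only [hl]; rw [h, sub_self]; decide
    · right; simp only [hl]; rw [h, sub_self]; decide
  have hbd : ∀ k, |J (k + 1) - J k| ≤ 1 := by
    intro k
    rw [hstep]
    rcases hone k with h | h <;> rw [h] <;>
    · rcases Par_lift_bd (f (k + M + 1) - f (k + M)) with h' | h' | h' <;>
      rcases Par_lift_bd (f (k + 1) - f k) with h'' | h'' | h'' <;>
      simp only [hl, h', h''] <;> norm_num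
  have hJ3 : ∀ k, J k % 3 = 1 ∨ J k % 3 = 2 := by
    intro k
    have h0 : J k % 3 ≠ 0 := by
      intro h
      apply hJm k
      have : (3 : ℤ) ∣ J k := Int.dvd_of_emod_eq_zero h
      exact (ZMod.intCast_zmod_eq_zero_iff_dvd (J k) 3).2 (by exact_mod_cast this)
    omega
  have hdiv : ∀ k, J (k + 1) / 3 = J k / 3 := by
    intro k
    have a := hJ3 k; have b := hJ3 (k + 1); have c := abs_le.1 (hbd k)
    omega
  have hdivn : ∀ (n : ℕ), J n / 3 = J 0 / 3 := by
    intro n
    induction n with
    | zero => simp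
    | succ n ih => rw [← ih]; exact hdiv n
  set m := J 0 / 3 with hm
  have htot : ∀ k : ℕ, ∑ i ∈ Finset.range (6 * M), l (k + i)
      = J k + J (k + M) + J (k + 2 * M) + J (k + 3 * M) + J (k + 4 * M) + J (k + 5 * M) := by
    intro k
    have hs : ∀ n : ℕ, ∑ i ∈ Finset.range ((n + 1) * M), l (k + i)
        = ∑ i ∈ Finset.range (n * M), l (k + i) + J (k + n * M) := by
      intro n
      rw [show (n + 1) * M = n * M + M by ring, Finset.sum_range_add]
      congr 1
      simp only [hJ]
      apply Finset.sum_congr rfl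
      intro i _
      congr 1
      ring
    have a0 := hs 0; have a1 := hs 1; have a2 := hs 2; have a3 := hs 3; have a4 := hs 4; have a5 := hs 5
    norm_num at a0 a1 a2 a3 a4 a5
    rw [a5, a4, a3, a2, a1, a0]
  have hinv1 : ∀ k : ℕ, ∑ i ∈ Finset.range (6 * M), l (k + 1 + i) = ∑ i ∈ Finset.range (6 * M), l (k + i) := by
    intro k
    have e1 : ∑ i ∈ Finset.range (6 * M + 1), l (k + i)
        = ∑ i ∈ Finset.range (6 * M), l (k + i) + l k := by
      rw [Finset.sum_range_succ, hlper]
    have e2 : ∑ i ∈ Finset.range (6 * M + 1), l (k + i)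
        = ∑ i ∈ Finset.range (6 * M), l (k + 1 + i) + l k := by
      rw [Finset.sum_range_succ', add_zero]
      congr 1
      apply Finset.sum_congr rfl
      intro i _
      congr 1
      ring
    linarith
  set S := ∑ i ∈ Finset.range (6 * M), l (0 + i) with hS
  have hinv : ∀ n : ℕ, ∑ i ∈ Finset.range (6 * M), l (n + i) = S := by
    intro n
    induction n with
    | zero => rfl
    | succ n ih => rw [← ih]; exact hinv1 n
  have hS3 : (3 : ℤ) ∣ S := by
    have := htel (6 * M) 0
    rw [hper, sub_self] at this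
    exact (ZMod.intCast_zmod_eq_zero_iff_dvd S 3).1 (by exact_mod_cast this)
  have hval : ∀ n : ℕ, J n = 3 * m + 1 ∨ J n = 3 * m + 2 := by
    intro n
    have a := hJ3 n; have b := hdivn n
    omega
  have hvals : ∀ n : ℕ, S = J n + J (n + M) + J (n + 2 * M) + J (n + 3 * M) + J (n + 4 * M) + J (n + 5 * M) := by
    intro n; rw [← hinv n, htot]
  have key : S = 3 * (2 * (3 * m + 1) + 1) ∨ (∀ n : ℕ, J (n + 1) = J n) := by
    by_cases hS1 : S = 3 * (2 * (3 * m + 1) + 1)
    · exact Or.inl hS1
    · right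
      have hc : ∀ n : ℕ, J n = J 0 := by
        have aux : ∀ n : ℕ, (S = 6 * (3 * m + 1) ∧ J n = 3 * m + 1) ∨ (S = 6 * (3 * m + 2) ∧ J n = 3 * m + 2) := by
          intro n
          have h0 := hvals n
          have a0 := hval n
          have a1 := hval (n + M); have a2 := hval (n + 2 * M); have a3 := hval (n + 3 * M)
          have a4 := hval (n + 4 * M); have a5 := hval (n + 5 * M)
          omega
        intro n
        have p := aux n; have q := aux 0
        omega
      intro n
      rw [hc (n + 1), hc n]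
  rcases key with h | h
  · refine ⟨3 * m + 1, ?_⟩
    rw [← h, hS]
    apply Finset.sum_congr rfl
    intro i _
    simp only [hl, zero_add]
  · exfalso
    have hz : ∀ n : ℕ, l n = 0 := by
      intro n
      have a := hstep n; have b := hone n
      rw [h n, sub_self] at a
      rcases b with b | b
      · exact b
      · rw [b] at a; omega
    have hf : ∀ n : ℕ, f n = f 0 := by
      intro n
      induction n with
      | zero => rfl
      | succ n ih =>
        have := hz n
        simp only [hl] at this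
        rw [← ih]
        exact sub_eq_zero.1 (Par_lift_zero this)
    have := h1 0
    rw [zero_add, hf M] at this
    exact this rfl

private theorem Par_tel {n : ℕ} (F : ℕ → ℤ) : ∑ k ∈ range n, (F (k + 1) - F k) = F n - F 0 :=
  Finset.sum_range_sub F n

theorem parity {M : ℕ} (hM : 0 < M) (q : ℕ → Fin 6) {e f g : Fin 6} (hef : e ≠ f) (hfg : f ≠ g)
    (heg : e ≠ g) (hq : ∀ k, q k = e ∨ q k = f ∨ q k = g) (hper : ∀ k, q (k + 6 * M) = q k)
    (h0 : ∀ k, q (k + M) ≠ q k) (h1 : ∀ k, q (k + M + 1) ≠ q k) (h2 : ∀ k, q (k + M) ≠ q (k + 1)) :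
    ∑ k ∈ range (6 * M), E e f (q k) (q (k + 1)) = ∑ k ∈ range (6 * M), E f g (q k) (q (k + 1)) ∧
    ∑ k ∈ range (6 * M), E f g (q k) (q (k + 1)) = ∑ k ∈ range (6 * M), E g e (q k) (q (k + 1)) ∧
    Odd (∑ k ∈ range (6 * M), E e f (q k) (q (k + 1))) := by
  have _ := hM
  have hq0 : q (6 * M) = q 0 := by have := hper 0; rwa [zero_add] at this
  have A : ∑ k ∈ range (6 * M), E e f (q k) (q (k + 1)) = ∑ k ∈ range (6 * M), E f g (q k) (q (k + 1)) := by
    have h := Par_tel (n := 6 * M) (fun k => if q k = f then (1 : ℤ) else 0)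
    simp only [hq0, sub_self] at h
    have h' : ∑ k ∈ range (6 * M), (E e f (q k) (q (k + 1)) - E f g (q k) (q (k + 1))) = 0 := by
      rw [← h]
      apply Finset.sum_congr rfl
      intro k _
      rcases hq k with a | a | a <;> rcases hq (k + 1) with b | b | b <;>
        simp [E, a, b, hef, hfg, heg, hef.symm, hfg.symm, heg.symm]
    rw [Finset.sum_sub_distrib] at h'
    linarith
  have B : ∑ k ∈ range (6 * M), E f g (q k) (q (k + 1)) = ∑ k ∈ range (6 * M), E g e (q k) (q (k + 1)) := by
    have h := Par_tel (n := 6 * M) (fun k => if q k = g then (1 : ℤ) else 0)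
    simp only [hq0, sub_self] at h
    have h' : ∑ k ∈ range (6 * M), (E f g (q k) (q (k + 1)) - E g e (q k) (q (k + 1))) = 0 := by
      rw [← h]
      apply Finset.sum_congr rfl
      intro k _
      rcases hq k with a | a | a <;> rcases hq (k + 1) with b | b | b <;>
        simp [E, a, b, hef, hfg, heg, hef.symm, hfg.symm, heg.symm]
    rw [Finset.sum_sub_distrib] at h'
    linarith
  refine ⟨A, B, ?_⟩
  set ph : Fin 6 → ZMod 3 := fun x => if x = e then 0 else if x = f then 1 else 2 with hph
  have inj : ∀ {x y : Fin 6}, (x = e ∨ x = f ∨ x = g) → (y = e ∨ y = f ∨ y = g) → x ≠ y → ph x ≠ ph y := by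
    intro x y hx hy hxy
    rcases hx with a | a | a <;> rcases hy with b | b | b <;> subst a <;> subst b <;>
      simp [hph, hef, hfg, heg, hef.symm, hfg.symm, heg.symm] at hxy ⊢ <;> decide
  obtain ⟨m, hm⟩ := Par_core M (fun k => ph (q k)) (fun k => by simp only [hper])
    (fun k => inj (hq _) (hq _) (h0 k).symm) (fun k => inj (hq _) (hq _) (h1 k).symm)
    (fun k => inj (hq _) (hq _) (h2 k).symm)
  have C : ∑ k ∈ range (6 * M), Par_lift (ph (q (k + 1)) - ph (q k)) =
      ∑ k ∈ range (6 * M), E e f (q k) (q (k + 1)) + ∑ k ∈ range (6 * M), E f g (q k) (q (k + 1)) +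
      ∑ k ∈ range (6 * M), E g e (q k) (q (k + 1)) := by
    rw [← Finset.sum_add_distrib, ← Finset.sum_add_distrib]
    apply Finset.sum_congr rfl
    intro k _
    have d1 : Par_lift (0 - 0) = 0 := by decide
    have d2 : Par_lift (1 - 0) = 1 := by decide
    have d3 : Par_lift (2 - 0) = -1 := by decide
    have d4 : Par_lift (0 - 1) = -1 := by decide
    have d5 : Par_lift (1 - 1) = 0 := by decide
    have d6 : Par_lift (2 - 1) = 1 := by decide
    have d7 : Par_lift (0 - 2) = 1 := by decide
    have d8 : Par_lift (1 - 2) = -1 := by decide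
    have d9 : Par_lift (2 - 2) = 0 := by decide
    have pe : ph e = 0 := by simp [hph]
    have pf : ph f = 1 := by simp [hph, hef.symm]
    have pg : ph g = 2 := by simp [hph, hfg.symm, heg.symm]
    rcases hq k with a | a | a <;> rcases hq (k + 1) with b | b | b <;>
      rw [a, b] <;> simp only [pe, pf, pg, d1, d2, d3, d4, d5, d6, d7, d8, d9] <;>
      simp [E, hef, hfg, heg, hef.symm, hfg.symm, heg.symm]
  rw [C] at hm
  refine ⟨m, ?_⟩
  linarith

end

end Pool.Agent.Lib.MP_d577c7_co.CN
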