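import Pool.Agent.Lib.MP_d577c7_co.CN.Geo
import Pool.Agent.Lib.MP_d577c7_co.CN.Eps

/-!
# Sep: triangles of complementary colours are far apart (45 min)

`mid`: Let `z = emb (u' - u)`, `|z| ≤ 2 R + 2`. There is a complex `c` with `|c| = |c - z| =: ρ` and
`R ≤ ρ ≤ R + 1`: if `z = 0` take `c = R`; otherwise `c = z / 2 + t I z / |z|` with
`t = sqrt (max 0 (R ^ 2 - |z| ^ 2 / 4))`, then `ρ = max R (|z| / 2) ≤ R + 1`. Take the lattice point
`y0` within `1` of `c` (`round_exists`), `y = u + y0`.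
`sep`: the point `y` of `mid` has distance in `[R - 3, R + 3]` from `u`, `u'`, hence in
`[R - 4, R + 4]` from their neighbours with the other colours; `nm y ≤ 8 R + R + 3 ≤ 10 R`. By `Avoid`
`κ y` is none of the six colours, `six_mem`.
-/

namespace Pool.Agent.Lib.MP_d577c7_co.CN

open Finset

noncomputable section

variable {κ : P → Fin 6} {R : ℕ}

private theorem sep_centre (z : ℂ) (r : ℝ) (hr : 0 ≤ r) (hz : ‖z‖ ≤ 2 * r + 2) :
    ∃ c : ℂ, r ≤ ‖c‖ ∧ ‖c‖ ≤ r + 1 ∧ ‖c - z‖ = ‖c‖ := by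
  by_cases h0 : z = 0
  · refine ⟨(r : ℂ), ?_, ?_, ?_⟩
    · rw [Complex.norm_of_nonneg hr]
    · rw [Complex.norm_of_nonneg hr]; linarith
    · rw [h0, sub_zero]
  · have hn : 0 < ‖z‖ := norm_pos_iff.2 h0
    set n := ‖z‖ with hndef
    set m : ℝ := max 0 (r ^ 2 - n ^ 2 / 4) with hm
    have hm0 : 0 ≤ m := le_max_left _ _
    have hm1 : r ^ 2 - n ^ 2 / 4 ≤ m := le_max_right _ _
    have hm2 : m + n ^ 2 / 4 ≤ (r + 1) ^ 2 := by
      rcases max_choice 0 (r ^ 2 - n ^ 2 / 4) with h | h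
      · rw [hm, h]; nlinarith
      · rw [hm, h]; nlinarith
    set t : ℝ := Real.sqrt m / n with ht
    have ht2 : n ^ 2 * t ^ 2 = m := by
      rw [ht, div_pow, Real.sq_sqrt hm0]
      field_simp
    have e1 : ‖z * (⟨1 / 2, t⟩ : ℂ)‖ ^ 2 = n ^ 2 / 4 + m := by
      rw [norm_mul, mul_pow, ← Complex.normSq_eq_norm_sq (⟨1 / 2, t⟩ : ℂ), Complex.normSq_mk, ← hndef]
      nlinarith
    have e2 : ‖z * (⟨-(1 / 2), t⟩ : ℂ)‖ ^ 2 = n ^ 2 / 4 + m := by
      rw [norm_mul, mul_pow, ← Complex.normSq_eq_norm_sq (⟨-(1 / 2), t⟩ : ℂ), Complex.normSq_mk, ← hndef]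
      nlinarith
    have e3 : z * (⟨1 / 2, t⟩ : ℂ) - z = z * (⟨-(1 / 2), t⟩ : ℂ) := by
      have : (⟨-(1 / 2), t⟩ : ℂ) = (⟨1 / 2, t⟩ : ℂ) - 1 := by
        apply Complex.ext
        · simp; norm_num
        · simp
      rw [this]; ring
    have h1 := norm_nonneg (z * (⟨1 / 2, t⟩ : ℂ))
    have h2 := norm_nonneg (z * (⟨-(1 / 2), t⟩ : ℂ))
    refine ⟨z * (⟨1 / 2, t⟩ : ℂ), ?_, ?_, ?_⟩
    · apply le_of_sq_le_sq _ h1
      rw [e1]; linarith
    · apply le_of_sq_le_sq _ (by linarith : (0 : ℝ) ≤ r + 1)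
      rw [e1]; linarith
    · rw [e3]
      have := e1.trans e2.symm
      exact ((sq_eq_sq₀ h1 h2).1 this).symm

theorem mid (u u' : P) (h : nm (u - u') ≤ 2 * R + 2) :
    ∃ y : P, |nm (y - u) - R| ≤ 3 ∧ |nm (y - u') - R| ≤ 3 := by
  have hR : (0 : ℝ) ≤ R := Nat.cast_nonneg R
  rw [nm_comm] at h
  obtain ⟨c, h1, h2, h3⟩ := sep_centre (emb (u' - u)) (R : ℝ) hR h
  obtain ⟨y0, hy⟩ := round_exists c
  refine ⟨u + y0, ?_, ?_⟩
  · have e : u + y0 - u = y0 := by abel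
    rw [e, nm]
    have a1 : ‖emb y0‖ ≤ ‖emb y0 - c‖ + ‖c‖ := by
      have := norm_add_le (emb y0 - c) c
      rwa [sub_add_cancel] at this
    have a2 : ‖c‖ ≤ ‖emb y0 - c‖ + ‖emb y0‖ := by
      have := norm_sub_le (emb y0) (emb y0 - c)
      rw [sub_sub_cancel] at this
      linarith
    rw [abs_le]
    constructor <;> linarith
  · have e : u + y0 - u' = y0 - (u' - u) := by abel
    rw [e, nm, emb_sub]
    set z := emb (u' - u)
    have a1 : ‖emb y0 - z‖ ≤ ‖emb y0 - c‖ + ‖c - z‖ := by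
      have := norm_add_le (emb y0 - c) (c - z)
      rwa [sub_add_sub_cancel] at this
    have a2 : ‖c - z‖ ≤ ‖emb y0 - c‖ + ‖emb y0 - z‖ := by
      have := norm_sub_le (emb y0 - z) (emb y0 - c)
      rw [sub_sub_sub_cancel_left] at this
      linarith
    rw [abs_le]
    constructor <;> linarith

private theorem sep_avoid (hA : Avoid κ R) (hR : 100 ≤ R) {y u v : P} (hy : nm y ≤ 10 * R)
    (h1 : nm u ≤ 8 * R) (h2 : |nm (y - u) - R| ≤ 3) (h3 : nm (v - u) ≤ 1) : κ y ≠ κ v := by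
  have hR' : (100 : ℝ) ≤ R := by exact_mod_cast hR
  have a1 := nm_tri y v u
  have a2 := nm_tri y u v
  rw [nm_comm u v] at a2
  have a3 : nm v ≤ nm (v - u) + nm u := by
    have := nm_add_le (v - u) u
    rwa [sub_add_cancel] at this
  rw [abs_le] at h2
  apply hA y v hy (by linarith) (by linarith [h2.1]) (by linarith [h2.2])

theorem sep (hA : Avoid κ R) (hR : 100 ≤ R) {i j k l m n : Fin 6} (h6 : Six i j k l m n) {u u' : P}
    (hu : Tp κ i j k u) (hu' : Tp κ l m n u') (h1 : nm u ≤ 8 * R) (h2 : nm u' ≤ 8 * R)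
    (h3 : nm (u - u') ≤ 2 * R + 2) : False := by
  have hR' : (100 : ℝ) ≤ R := by exact_mod_cast hR
  obtain ⟨y, hy1, hy2⟩ := mid (R := R) u u' h3
  have hy : nm y ≤ 10 * R := by
    have a1 : nm y ≤ nm (y - u) + nm u := by
      have := nm_add_le (y - u) u
      rwa [sub_add_cancel] at this
    rw [abs_le] at hy1
    linarith [hy1.2]
  obtain ⟨c1, ⟨v, hv1, hv2⟩, w, hw1, hw2⟩ := hu
  obtain ⟨c1', ⟨v', hv1', hv2'⟩, w', hw1', hw2'⟩ := hu'
  have z1 : nm (u - u) ≤ 1 := by rw [sub_self, nm_zero]; norm_num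
  have z2 : nm (u' - u') ≤ 1 := by rw [sub_self, nm_zero]; norm_num
  rcases six_mem h6 (κ y) with h | h | h | h | h | h
  · exact sep_avoid hA hR hy h1 hy1 z1 (h.trans c1.symm)
  · exact sep_avoid hA hR hy h1 hy1 hv1 (h.trans hv2.symm)
  · exact sep_avoid hA hR hy h1 hy1 hw1 (h.trans hw2.symm)
  · exact sep_avoid hA hR hy h2 hy2 z2 (h.trans c1'.symm)
  · exact sep_avoid hA hR hy h2 hy2 hv1' (h.trans hv2'.symm)
  · exact sep_avoid hA hR hy h2 hy2 hw1' (h.trans hw2'.symm)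

end

end Pool.Agent.Lib.MP_d577c7_co.CN
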