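import Pool.Agent.Lib.MP_d577c7_co.CN.Alg
import Pool.Agent.Lib.MP_d577c7_co.CN.Sep
import Pool.Agent.Lib.MP_d577c7_co.CN.Par

/-!
# Wind: the circle about a point with three colours (40 min)

`Tp κ a b d x`, `nm x ≤ 7 R`. The points `x + G R k` have distance `nm (G R k) ∈ [R - 2, R]` from `x`
and in `[R - 3, R + 1]` from the neighbours of the colours `b`, `d`: by `Avoid` they do not have the
colours `a, b, d`, so they have the colours `e, f, g` (`six_mem`).
`ww_zero`: all terms are zero (`E i j p q ≠ 0` needs `{p, q} = {i, j}`).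
`ww_odd`: `parity` with `M = 2 R`, `q k = κ (x + G R k)`: period `12 R` by `G_shift` six times
(`rot_six`); `x + G R (k + 2 R) = x + rot (G R k)` has distance `nm (G R k) ∈ [R - 2, R]` from
`x + G R k` (`nm_sub_rot`), and the neighbouring points (`G_adj`) change the distance by at most 1.
`cc_zero`: if not zero, `cc_supp` gives `u` with `Tp κ e f g u`, `nm (u - x') ≤ R`,
`nm (u - x) ≤ 2 R`, contradiction to `sep`.
-/

namespace Pool.Agent.Lib.MP_d577c7_co.CN

open Finset

noncomputable section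

variable {κ : P → Fin 6} {R : ℕ}

private theorem wind_nm {x : P} {r : ℝ} (hx : nm x ≤ r) (y : P) {s : ℝ} (hy : nm (y - x) ≤ s) : nm y ≤ r + s := by
  have h := nm_tri y x 0
  rw [sub_zero, sub_zero] at h
  linarith

private theorem wind_ne (hA : Avoid κ R) (hR : 100 ≤ R) {x v : P} (hx : nm x ≤ 7 * R) (hv : nm (v - x) ≤ 1) (k : ℕ) :
    κ (x + G R k) ≠ κ v := by
  have hR' : (100 : ℝ) ≤ R := by exact_mod_cast hR
  obtain ⟨h1, h2⟩ := G_nm (R := R) (by omega) k
  have h3 : nm (x + G R k - x) = nm (G R k) := by rw [add_sub_cancel_left]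
  have h4 := nm_tri (x + G R k) x v
  have h5 := nm_tri (x + G R k) v x
  rw [nm_comm x v] at h4
  refine hA _ _ ?_ ?_ ?_ ?_
  · have := wind_nm hx (x + G R k) (le_of_eq h3)
    linarith
  · have := wind_nm hx v hv
    linarith
  · linarith
  · linarith

private theorem wind_abd (hA : Avoid κ R) (hR : 100 ≤ R) {a b d : Fin 6} {x : P} (hx : nm x ≤ 7 * R)
    (ht : Tp κ a b d x) (k : ℕ) : κ (x + G R k) ≠ a ∧ κ (x + G R k) ≠ b ∧ κ (x + G R k) ≠ d := by
  obtain ⟨h1, ⟨v, hv1, hv2⟩, w, hw1, hw2⟩ := ht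
  refine ⟨?_, ?_, ?_⟩
  · rw [← h1]
    refine wind_ne hA hR hx ?_ k
    rw [sub_self, nm_zero]
    exact zero_le_one
  · rw [← hv2]
    exact wind_ne hA hR hx hv1 k
  · rw [← hw2]
    exact wind_ne hA hR hx hw1 k

private theorem wind_E {i j p q : Fin 6} (hp : p ≠ i) (hq : q ≠ i) : E i j p q = 0 ∧ E j i p q = 0 := by
  simp only [E]
  rw [if_neg (fun h => hp h.1), if_neg (fun h => hq h.2)]
  exact ⟨rfl, rfl⟩

theorem ww_zero (hA : Avoid κ R) (hR : 100 ≤ R) {a b d : Fin 6} {x : P} (hx : nm x ≤ 7 * R)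
    (ht : Tp κ a b d x) {i : Fin 6} (hi : i = a ∨ i = b ∨ i = d) (j : Fin 6) :
    ww κ R x i j = 0 ∧ ww κ R x j i = 0 := by
  have hne : ∀ k, κ (x + G R k) ≠ i := by
    intro k
    obtain ⟨h1, h2, h3⟩ := wind_abd hA hR hx ht k
    rcases hi with rfl | rfl | rfl
    · exact h1
    · exact h2
    · exact h3
  constructor
  · refine Finset.sum_eq_zero fun k _ => (wind_E (hne k) (hne (k + 1))).1
  · refine Finset.sum_eq_zero fun k _ => (wind_E (hne k) (hne (k + 1))).2

private theorem wind_per {R : ℕ} (hR : 0 < R) (k : ℕ) : G R (k + 6 * (2 * R)) = G R k := by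
  have h : ∀ n, G R (k + n * (2 * R)) = rot^[n] (G R k) := by
    intro n
    induction n with
    | zero => simp
    | succ n ih =>
      rw [Function.iterate_succ_apply', ← ih, ← G_shift hR]
      ring_nf
  rw [h 6, rot_six]

private theorem wind_avoid (hA : Avoid κ R) (hR : 100 ≤ R) {x : P} (hx : nm x ≤ 7 * R) {k l : ℕ}
    (h1 : (R : ℝ) - 8 ≤ nm (G R k - G R l)) (h2 : nm (G R k - G R l) ≤ (R : ℝ) + 8) :
    κ (x + G R k) ≠ κ (x + G R l) := by
  have hR' : (100 : ℝ) ≤ R := by exact_mod_cast hR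
  have h3 : ∀ m, nm (x + G R m) ≤ 10 * R := by
    intro m
    have h4 : nm (x + G R m - x) = nm (G R m) := by rw [add_sub_cancel_left]
    have := wind_nm hx (x + G R m) (le_of_eq h4)
    have := (G_nm (R := R) (by omega) m).2
    linarith
  have h5 : x + G R k - (x + G R l) = G R k - G R l := by abel
  refine hA _ _ (h3 k) (h3 l) ?_ ?_
  · rw [h5]; exact h1
  · rw [h5]; exact h2

theorem ww_odd (hA : Avoid κ R) (hR : 100 ≤ R) {a b d e f g : Fin 6} (h6 : Six a b d e f g) {x : P}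
    (hx : nm x ≤ 7 * R) (ht : Tp κ a b d x) :
    ww κ R x e f = ww κ R x f g ∧ ww κ R x f g = ww κ R x g e ∧ Odd (ww κ R x e f) := by
  have hR' : (100 : ℝ) ≤ R := by exact_mod_cast hR
  have hR0 : 0 < R := by omega
  have hne : e ≠ f ∧ f ≠ g ∧ e ≠ g := by
    have h := h6
    simp only [Six, List.nodup_cons, List.mem_cons, not_or] at h
    exact ⟨h.2.2.2.1.1, h.2.2.2.2.1.1, h.2.2.2.1.2.1⟩
  have hd : ∀ k, nm (G R (k + 2 * R) - G R k) = nm (G R k) := by
    intro k
    rw [G_shift hR0, nm_comm, nm_sub_rot]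
  have h := parity (M := 2 * R) (by omega) (fun k => κ (x + G R k)) hne.1 hne.2.1 hne.2.2 (by
      intro k
      obtain ⟨h1, h2, h3⟩ := wind_abd hA hR hx ht k
      rcases six_mem h6 (κ (x + G R k)) with h | h | h | h | h | h
      · exact absurd h h1
      · exact absurd h h2
      · exact absurd h h3
      · exact Or.inl h
      · exact Or.inr (Or.inl h)
      · exact Or.inr (Or.inr h)) (by
      intro k
      show κ (x + G R (k + 6 * (2 * R))) = κ (x + G R k)
      rw [wind_per hR0]) (by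
      intro k
      obtain ⟨h1, h2⟩ := G_nm hR0 k
      refine wind_avoid hA hR hx ?_ ?_
      · rw [hd]; linarith
      · rw [hd]; linarith) (by
      intro k
      obtain ⟨h1, h2⟩ := G_nm hR0 k
      have h3 := G_adj hR0 (k + 2 * R)
      have h4 := hd k
      have h5 := nm_tri (G R (k + 2 * R + 1)) (G R (k + 2 * R)) (G R k)
      have h6 := nm_tri (G R (k + 2 * R)) (G R (k + 2 * R + 1)) (G R k)
      rw [nm_comm (G R (k + 2 * R)) (G R (k + 2 * R + 1))] at h6
      refine wind_avoid hA hR hx ?_ ?_ <;> linarith) (by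
      intro k
      obtain ⟨h1, h2⟩ := G_nm hR0 k
      have h3 := G_adj hR0 k
      have h4 := hd k
      have h5 := nm_tri (G R (k + 2 * R)) (G R k) (G R (k + 1))
      have h6 := nm_tri (G R (k + 2 * R)) (G R (k + 1)) (G R k)
      rw [nm_comm (G R k) (G R (k + 1))] at h5
      refine wind_avoid hA hR hx ?_ ?_ <;> linarith)
  have e12 : 6 * (2 * R) = 12 * R := by ring
  rw [e12] at h
  exact h

theorem cc_zero (hA : Avoid κ R) (hR : 100 ≤ R) {a b d e f g : Fin 6} (h6 : Six a b d e f g)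
    {x x' : P} (hx : nm x ≤ 7 * R) (hx' : nm x' ≤ 7 * R) (hd : nm (x' - x) ≤ R)
    (ht : Tp κ a b d x) : cc κ R x' e f g = 0 := by
  have hR' : (100 : ℝ) ≤ R := by exact_mod_cast hR
  by_contra hc
  have hne : e ≠ f ∧ f ≠ g ∧ e ≠ g := by
    have h := h6
    simp only [Six, List.nodup_cons, List.mem_cons, not_or] at h
    exact ⟨h.2.2.2.1.1, h.2.2.2.2.1.1, h.2.2.2.1.2.1⟩
  obtain ⟨u, h1, h2⟩ := cc_supp x' hne.1 hne.2.1 hne.2.2 hc
  refine sep hA hR h6 ht h2 (by linarith) ?_ ?_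
  · have := wind_nm hx' u h1
    linarith
  · have := nm_tri x x' u
    rw [nm_comm x x', nm_comm x' u] at this
    linarith

end

end Pool.Agent.Lib.MP_d577c7_co.CN
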