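import Pool.Agent.Lib.MP_d577c7_co.CN.Loc
import Pool.Agent.Lib.MP_d577c7_co.CN.Wind
import Pool.Agent.Lib.MP_d577c7_co.CN.Core

/-!
# Edge: the edge rule (50 min)

`cc_const`: induction along `hU.con`; neighbours `u, v ∈ U` are within `1` of `u` (colour `a`):
`cc_loc` with `y = u` (`nm u ≤ 6 R`).
`edge_rule`: write `c = cc κ R x`, `c' = cc κ R x'`. `w = ww κ R x g e` is odd (`ww_odd` for
`Tp κ a b d x`). By `cc_zero` (`Tp κ a b d x`): `c g e f = c' g e f = 0` (`cc_rot`). `cc_stokes` for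
the pair `(g, e)` at `x`: `c g e a + c g e d + c g e b + c g e f = w`; at `x'`:
`c' g e a + c' g e d + c' g e b + c' g e f = ww κ R x' g e = 0` (`ww_zero` for `Tp κ a d e x'`, colour
`e`). `c g e a = c' g e a` and `c g e d = c' g e d` by `hc` (after `cc_rot`). So
`c g e b - c' g e b = w ≠ 0`; let `x1 ∈ {x, x'}` with `cc κ R x1 g e b ≠ 0`; `cc_supp` gives `u` with
`Tp κ g e b u`, `nm (u - x1) ≤ R`. If `y ∈ U`, `Tp κ a d f y`: `nm (y - u) ≤ 2 R`, `sep`. If `y ∈ U`,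
`cc κ R y a d f ≠ 0`: then `cc κ R x1 a d f ≠ 0` by `cc_const`, `cc_supp` gives `v` with `Tp κ a d f v`,
`nm (v - x1) ≤ R`, so `nm (u - v) ≤ 2 R`, `sep`.
`nonback`: `intf` with `Φ x = fun t : Fin 6 × Fin 6 × Fin 6 => if (t.1 = a ∨ t.1 = d) and t.1, t.2.1,
t.2.2 are different then cc κ R x t.1 t.2.1 t.2.2 else 0`; `hΦ` by `cc_loc` with `y` (colour `d`) and by
`cc_const`.
-/

namespace Pool.Agent.Lib.MP_d577c7_co.CN

open Finset

noncomputable section

variable {κ : P → Fin 6} {R : ℕ}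

theorem cc_const (hA : Avoid κ R) (hR : 100 ≤ R) {a : Fin 6} {U : Finset P} (hU : Cell κ R a U)
    {x y : P} (hx : x ∈ U) (hy : y ∈ U) (j k : Fin 6) : cc κ R x a j k = cc κ R y a j k := by
  have h := hU.con x hx y hy
  have hR0 : (0 : ℝ) ≤ R := Nat.cast_nonneg R
  clear hy
  induction h with
  | refl => rfl
  | @tail u v _ hbc ih =>
    obtain ⟨hu, _, huv⟩ := hbc
    have h1 : nm u ≤ 8 * R := by
      have := hU.reg u hu
      linarith
    have h2 : nm (u - u) ≤ 1 := by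
      rw [sub_self, nm_zero]
      exact zero_le_one
    exact ih.trans (cc_loc hA hR h1 (hU.col u hu) h2 huv j k)

private theorem edge_near (hR : 100 ≤ R) {a : Fin 6} {U : Finset P} (hU : Cell κ R a U) {x u : P} (hx : x ∈ U)
    (hu : nm (u - x) ≤ R) : nm u ≤ 8 * R := by
  have h1 := nm_add_le (u - x) x
  rw [sub_add_cancel] at h1
  have h2 := hU.reg x hx
  have hR0 : (100 : ℝ) ≤ R := by exact_mod_cast hR
  linarith

theorem edge_rule (hA : Avoid κ R) (hR : 100 ≤ R) {a b d e f g : Fin 6} (h6 : Six a b d e f g)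
    {U : Finset P} (hU : Cell κ R a U) {x x' : P} (hx : x ∈ U) (hx' : x' ∈ U)
    (ht : Tp κ a b d x) (ht' : Tp κ a d e x')
    (hc : ∀ i j k, i ≠ j → j ≠ k → i ≠ k → (i = a ∨ i = d) → cc κ R x i j k = cc κ R x' i j k) :
    (∀ y ∈ U, cc κ R y a d f = 0) ∧ ∀ y ∈ U, ¬ Tp κ a d f y := by
  have hR0 : (100 : ℝ) ≤ R := by exact_mod_cast hR
  have hRp : 0 < R := by omega
  have h6' := h6
  unfold Six at h6'
  simp only [List.nodup_cons, List.mem_cons, List.not_mem_nil, or_false, not_or,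
    List.nodup_nil, and_true, not_false_eq_true] at h6'
  obtain ⟨⟨hab, had, hae, haf, hag⟩, ⟨hbd, hbe, hbf, hbg⟩, ⟨hde, hdf, hdg⟩, ⟨hef, heg⟩, hfg⟩ := h6'
  have s1 : Six g e a d b f := by
    unfold Six
    simp only [List.nodup_cons, List.mem_cons, List.not_mem_nil, or_false, not_or,
      List.nodup_nil, and_true, not_false_eq_true]
    exact ⟨⟨Ne.symm heg, Ne.symm hag, Ne.symm hdg, Ne.symm hbg, Ne.symm hfg⟩,
      ⟨Ne.symm hae, Ne.symm hde, Ne.symm hbe, hef⟩, ⟨had, hab, haf⟩, ⟨Ne.symm hbd, hdf⟩, hbf⟩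
  have s2 : Six g e b a d f := by
    unfold Six
    simp only [List.nodup_cons, List.mem_cons, List.not_mem_nil, or_false, not_or,
      List.nodup_nil, and_true, not_false_eq_true]
    exact ⟨⟨Ne.symm heg, Ne.symm hbg, Ne.symm hag, Ne.symm hdg, Ne.symm hfg⟩,
      ⟨Ne.symm hbe, Ne.symm hae, Ne.symm hde, hef⟩, ⟨Ne.symm hab, hbd, hbf⟩, ⟨had, haf⟩, hdf⟩
  have nx : nm x ≤ 7 * R := by
    have := hU.reg x hx
    linarith
  have nx' : nm x' ≤ 7 * R := by
    have := hU.reg x' hx'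
    linarith
  -- the values `g e f`
  have z0 : nm (x - x) ≤ R := by
    rw [sub_self, nm_zero]
    linarith
  have z1 : cc κ R x g e f = 0 := by
    rw [← cc_rot x (Ne.symm heg) hef (Ne.symm hfg)]
    exact cc_zero hA hR h6 nx nx z0 ht
  have z2 : cc κ R x' g e f = 0 := by
    rw [← cc_rot x' (Ne.symm heg) hef (Ne.symm hfg)]
    exact cc_zero hA hR h6 nx nx' (hU.dia x hx x' hx') ht
  have st1 := cc_stokes (κ := κ) hRp x s1
  have st2 := cc_stokes (κ := κ) hRp x' s1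
  have w2 : ww κ R x' g e = 0 := (ww_zero hA hR nx' ht' (Or.inr (Or.inr rfl)) g).2
  have w1 : ww κ R x g e ≠ 0 := by
    obtain ⟨o1, o2, o3⟩ := ww_odd hA hR h6 nx ht
    rw [← o2, ← o1]
    intro h
    rw [h] at o3
    exact (by decide : ¬ Odd (0 : ℤ)) o3
  have ea : cc κ R x g e a = cc κ R x' g e a := by
    rw [cc_rot x hag (Ne.symm heg) hae, cc_rot x' hag (Ne.symm heg) hae]
    exact hc a g e hag (Ne.symm heg) hae (Or.inl rfl)
  have ed : cc κ R x g e d = cc κ R x' g e d := by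
    rw [cc_rot x hdg (Ne.symm heg) hde, cc_rot x' hdg (Ne.symm heg) hde]
    exact hc d g e hdg (Ne.symm heg) hde (Or.inr rfl)
  obtain ⟨x1, hx1, hne⟩ : ∃ x1 ∈ U, cc κ R x1 g e b ≠ 0 := by
    by_contra hcon
    push Not at hcon
    have h1 := hcon x hx
    have h2 := hcon x' hx'
    apply w1
    rw [← st1, z1, h1, ea, ed]
    rw [z2, h2, w2] at st2
    exact st2
  obtain ⟨u, hu1, hu2⟩ := cc_supp x1 (Ne.symm heg) (Ne.symm hbe) (Ne.symm hbg) hne
  have hu8 : nm u ≤ 8 * R := edge_near hR hU hx1 hu1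
  constructor
  · intro y hy
    by_contra hy0
    rw [← cc_const hA hR hU hx1 hy d f] at hy0
    obtain ⟨v, hv1, hv2⟩ := cc_supp x1 had hdf haf hy0
    have hv8 : nm v ≤ 8 * R := edge_near hR hU hx1 hv1
    refine sep hA hR s2 hu2 hv2 hu8 hv8 ?_
    have t1 := nm_tri u x1 v
    have t2 := nm_comm x1 v
    linarith
  · intro y hy hty
    have hy8 : nm y ≤ 8 * R := by
      have := hU.reg y hy
      linarith
    refine sep hA hR s2 hu2 hty hu8 hy8 ?_
    have t1 := nm_tri u x1 y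
    have t2 := hU.dia y hy x1 hx1
    linarith

theorem nonback (hA : Avoid κ R) (hR : 100 ≤ R) {a b d : Fin 6} (hab : a ≠ b) (had : a ≠ d)
    (hbd : b ≠ d) {U : Finset P} (hU : Cell κ R a U) (h : ∑ v ∈ U, om κ b d v ≠ 0) :
    ∃ x ∈ U, ∃ x' ∈ U, ∃ e, e ≠ a ∧ e ≠ b ∧ e ≠ d ∧ Tp κ a b d x ∧ Tp κ a d e x' ∧
      ∀ i j k, i ≠ j → j ≠ k → i ≠ k → (i = a ∨ i = d) → cc κ R x i j k = cc κ R x' i j k := by
  have hR0 : (100 : ℝ) ≤ R := by exact_mod_cast hR
  have hΦ : ∀ x ∈ U, ∀ x' ∈ U, ∀ y, κ y = d → nm (y - x) ≤ 1 → nm (y - x') ≤ 1 →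
      nm (x' - x) ≤ 1 →
      (fun t : Fin 6 × Fin 6 × Fin 6 => if (t.1 = a ∨ t.1 = d) then cc κ R x t.1 t.2.1 t.2.2 else 0) =
      (fun t : Fin 6 × Fin 6 × Fin 6 => if (t.1 = a ∨ t.1 = d) then cc κ R x' t.1 t.2.1 t.2.2 else 0) := by
    intro x hx x' hx' y hy h1 h2 _
    funext t
    by_cases ht : t.1 = a ∨ t.1 = d
    · rw [if_pos ht, if_pos ht]
      rcases ht with ht | ht
      · rw [ht]
        exact cc_const hA hR hU hx hx' _ _
      · rw [ht]
        have hy8 : nm y ≤ 8 * R := by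
          have t1 := nm_add_le (y - x) x
          rw [sub_add_cancel] at t1
          have t2 := hU.reg x hx
          linarith
        have h1' : nm (x - y) ≤ 1 := by
          rw [nm_comm]
          exact h1
        have h2' : nm (x' - y) ≤ 1 := by
          rw [nm_comm]
          exact h2
        exact cc_loc hA hR hy8 hy h1' h2' _ _
    · rw [if_neg ht, if_neg ht]
  obtain ⟨x, hx, x', hx', e, he1, he2, he3, ht, ht', hΦe⟩ :=
    intf hab had hbd hU.col hU.clo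
      (fun x => fun t : Fin 6 × Fin 6 × Fin 6 => if (t.1 = a ∨ t.1 = d) then cc κ R x t.1 t.2.1 t.2.2 else 0) hΦ h
  refine ⟨x, hx, x', hx', e, he1, he2, he3, ht, ht', ?_⟩
  intro i j k _ _ _ hi
  have h1 := congrFun hΦe (i, j, k)
  have h2 : (if (i = a ∨ i = d) then cc κ R x i j k else 0) = (if (i = a ∨ i = d) then cc κ R x' i j k else 0) := h1
  rw [if_pos hi, if_pos hi] at h2
  exact h2

end

end Pool.Agent.Lib.MP_d577c7_co.CN
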