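import Pool.Agent.Lib.MP_d577c7_co.CN.Defs

/-!
# Geo: the triangular lattice
-/

namespace Pool.Agent.Lib.MP_d577c7_co.CN

open Finset

noncomputable section

private theorem geo_s3 : Real.sqrt 3 ^ 2 = 3 := Real.sq_sqrt (by norm_num)

theorem nm_sq (z : P) : nm z ^ 2 = (N z : ℝ) := by
  have h : nm z ^ 2 = Complex.normSq (emb z) := by
    rw [nm, Complex.normSq_eq_norm_sq]
  rw [h, Complex.normSq_apply]
  simp only [emb, N]
  push_cast
  have := geo_s3
  nlinarith [this]

theorem nm_nonneg (z : P) : 0 ≤ nm z := norm_nonneg _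

theorem emb_add (x y : P) : emb (x + y) = emb x + emb y := by
  apply Complex.ext <;> simp [emb] <;> ring

theorem emb_sub (x y : P) : emb (x - y) = emb x - emb y := by
  apply Complex.ext <;> simp [emb] <;> ring

theorem emb_neg (x : P) : emb (-x) = -emb x := by
  apply Complex.ext <;> simp [emb] <;> ring

theorem nm_zero : nm 0 = 0 := by
  have : emb 0 = 0 := by apply Complex.ext <;> simp [emb]
  rw [nm, this, norm_zero]

theorem nm_neg (x : P) : nm (-x) = nm x := by rw [nm, emb_neg, norm_neg, nm]

theorem nm_add_le (x y : P) : nm (x + y) ≤ nm x + nm y := by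
  rw [nm, emb_add]; exact norm_add_le _ _

theorem nm_comm (x y : P) : nm (x - y) = nm (y - x) := by
  rw [← nm_neg, neg_sub]

/-- triangle inequality -/
theorem nm_tri (x y z : P) : nm (x - z) ≤ nm (x - y) + nm (y - z) := by
  have := nm_add_le (x - y) (y - z)
  rwa [sub_add_sub_cancel] at this

/-- reverse triangle inequality -/
theorem nm_tri' (x y z : P) : |nm (x - z) - nm (y - z)| ≤ nm (x - y) := by
  rw [abs_le]
  constructor
  · have := nm_tri y x z
    rw [nm_comm y x] at this
    linarith
  · have := nm_tri x y z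
    linarith

theorem nm_le_of_sq {z : P} {r : ℝ} (hr : 0 ≤ r) (h : (N z : ℝ) ≤ r ^ 2) : nm z ≤ r := by
  rw [← nm_sq] at h
  exact le_of_sq_le_sq h hr

theorem nm_lt_of_sq {z : P} {r : ℝ} (hr : 0 ≤ r) (h : (N z : ℝ) < r ^ 2) : nm z < r := by
  rw [← nm_sq] at h
  exact lt_of_pow_lt_pow_left₀ 2 hr h

theorem N_rot (z : P) : N (rot z) = N z := by simp only [N, rot]; ring

theorem nm_congr {x y : P} (h : N x = N y) : nm x = nm y := by
  have h1 := nm_sq x
  have h2 := nm_sq y
  rw [h, ← h2] at h1
  exact (sq_eq_sq₀ (nm_nonneg _) (nm_nonneg _)).1 h1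

theorem nm_rot (z : P) : nm (rot z) = nm z := nm_congr (N_rot z)

theorem nm_sub_rot (z : P) : nm (z - rot z) = nm z := by
  apply nm_congr
  simp only [N, rot, Prod.fst_sub, Prod.snd_sub]; ring

theorem rot_add (x y : P) : rot (x + y) = rot x + rot y := by
  ext <;> simp [rot] <;> ring

theorem rot_sub (x y : P) : rot (x - y) = rot x - rot y := by
  ext <;> simp [rot] <;> ring

theorem rot_iter_add (j : ℕ) (x y : P) : rot^[j] (x + y) = rot^[j] x + rot^[j] y := by
  induction j with
  | zero => rfl
  | succ n ih => rw [Function.iterate_succ_apply', Function.iterate_succ_apply',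
      Function.iterate_succ_apply', ih, rot_add]

theorem rot_iter_sub (j : ℕ) (x y : P) : rot^[j] (x - y) = rot^[j] x - rot^[j] y := by
  induction j with
  | zero => rfl
  | succ n ih => rw [Function.iterate_succ_apply', Function.iterate_succ_apply',
      Function.iterate_succ_apply', ih, rot_sub]

theorem nm_rot_iter (j : ℕ) (x : P) : nm (rot^[j] x) = nm x := by
  induction j with
  | zero => rfl
  | succ n ih => rw [Function.iterate_succ_apply', nm_rot, ih]

theorem rot_six (z : P) : rot^[6] z = z := by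
  simp only [Function.iterate_succ, Function.iterate_zero, Function.comp, rot, id]
  ext <;> simp

theorem dir_succ (m : ℕ) : dir (m + 1) = rot (dir m) := by
  rw [dir, dir, Function.iterate_succ_apply']

theorem dir_add_six (m : ℕ) : dir (m + 6) = dir m := by
  rw [dir, dir, Function.iterate_add_apply, rot_six]

theorem rot_dir (j m : ℕ) : rot^[j] (dir m) = dir (m + j) := by
  rw [dir, dir, add_comm, Function.iterate_add_apply]

theorem dir0 : dir 0 = (1, 0) := by decide
theorem dir1 : dir 1 = (0, 1) := by decide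
theorem dir2 : dir 2 = (-1, 1) := by decide
theorem dir3 : dir 3 = (-1, 0) := by decide
theorem dir4 : dir 4 = (0, -1) := by decide
theorem dir5 : dir 5 = (1, -1) := by decide

theorem nm_dir (m : ℕ) : nm (dir m) = 1 := by
  rw [dir, nm_rot_iter]
  have h := nm_sq (1, 0)
  simp only [N] at h
  norm_num at h
  rcases h with h | h
  · exact h
  · have := nm_nonneg (1, 0); linarith

/-- the only lattice points of length `≤ 1` -/
theorem nm_le_one {z : P} (h : nm z ≤ 1) : z = 0 ∨ ∃ m ∈ range 6, z = dir m := by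
  have h1 : (N z : ℝ) ≤ 1 := by
    rw [← nm_sq]; have := nm_nonneg z; nlinarith
  have h2 : N z ≤ 1 := by exact_mod_cast h1
  obtain ⟨a, b⟩ := z
  simp only [N] at h2
  have ha : -1 ≤ a ∧ a ≤ 1 := by
    constructor <;> nlinarith [sq_nonneg (a + 2 * b), sq_nonneg (a - 1), sq_nonneg (a + 1)]
  have hb : -1 ≤ b ∧ b ≤ 1 := by
    constructor <;> nlinarith [sq_nonneg (b + 2 * a), sq_nonneg (b - 1), sq_nonneg (b + 1)]
  obtain ⟨ha1, ha2⟩ := ha
  obtain ⟨hb1, hb2⟩ := hb
  interval_cases a <;> interval_cases b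
  · norm_num at h2
  · right; exact ⟨3, by simp, by decide⟩
  · right; exact ⟨2, by simp, by decide⟩
  · right; exact ⟨4, by simp, by decide⟩
  · left; rfl
  · right; exact ⟨1, by simp, by decide⟩
  · right; exact ⟨5, by simp, by decide⟩
  · right; exact ⟨0, by simp, by decide⟩
  · norm_num at h2

theorem mem_Ball {R : ℕ} {z : P} : z ∈ Ball R ↔ nm z < R := by
  have hR : (0 : ℝ) ≤ R := Nat.cast_nonneg R
  have key : N z < (R : ℤ) ^ 2 ↔ nm z < R := by
    constructor
    · intro h
      apply nm_lt_of_sq hR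
      exact_mod_cast h
    · intro h
      have h1 : nm z ^ 2 < (R : ℝ) ^ 2 := by
        have := nm_nonneg z
        nlinarith
      rw [nm_sq] at h1
      exact_mod_cast h1
  constructor
  · intro h
    simp only [Ball, mem_filter] at h
    exact key.1 h.2
  · intro h
    have h2 := key.2 h
    simp only [Ball, mem_filter, mem_product, mem_Icc]
    refine ⟨?_, h2⟩
    obtain ⟨a, b⟩ := z
    simp only [N] at h2
    have hR' : (0 : ℤ) ≤ R := Int.natCast_nonneg R
    refine ⟨⟨?_, ?_⟩, ?_, ?_⟩
    · simp only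
      by_contra hc
      push Not at hc
      nlinarith [sq_nonneg (a + 2 * b)]
    · simp only
      by_contra hc
      push Not at hc
      nlinarith [sq_nonneg (a + 2 * b)]
    · simp only
      by_contra hc
      push Not at hc
      nlinarith [sq_nonneg (b + 2 * a)]
    · simp only
      by_contra hc
      push Not at hc
      nlinarith [sq_nonneg (b + 2 * a)]

/-- every point of the plane is within `1` of a lattice point -/
theorem round_exists (c : ℂ) : ∃ y : P, ‖emb y - c‖ ≤ 1 := by
  set s : ℝ := Real.sqrt 3 / 2 with hs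
  have hs2 : s ^ 2 = 3 / 4 := by rw [hs, div_pow, geo_s3]; norm_num
  have hs0 : 0 < s := by rw [hs]; positivity
  refine ⟨(round (c.re - (round (c.im / s) : ℤ) / 2), round (c.im / s)), ?_⟩
  set b : ℤ := round (c.im / s) with hb
  set a : ℤ := round (c.re - (b : ℝ) / 2) with ha
  have h1 : |c.im / s - b| ≤ 1 / 2 := abs_sub_round _
  have h2 : |c.re - (b : ℝ) / 2 - a| ≤ 1 / 2 := abs_sub_round _
  have h3 : ‖emb (a, b) - c‖ ^ 2 ≤ 1 := by
    rw [← Complex.normSq_eq_norm_sq, Complex.normSq_apply]
    simp only [emb, Complex.sub_re, Complex.sub_im]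
    have e1 : ((a : ℝ) + (b : ℝ) / 2 - c.re) = -(c.re - (b : ℝ) / 2 - a) := by ring
    have e2 : ((b : ℝ) * s - c.im) = -(c.im / s - b) * s := by field_simp; ring
    rw [← hs, e1, e2]
    have q1 := sq_le_sq' (by linarith [(abs_le.1 h2).1] : -(1 / 2 : ℝ) ≤ c.re - (b : ℝ) / 2 - a)
      (abs_le.1 h2).2
    have q2 := sq_le_sq' (by linarith [(abs_le.1 h1).1] : -(1 / 2 : ℝ) ≤ c.im / s - b)
      (abs_le.1 h1).2
    nlinarith
  have h4 := norm_nonneg (emb (a, b) - c)
  nlinarith

end

end Pool.Agent.Lib.MP_d577c7_co.CN
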