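import Pool.Agent.Lib.MP_d577c7_co.CN.Vert
import Pool.Agent.Lib.MP_d577c7_co.CN.Eps

/-!
# Loc: locality (40 min)

`κ y = i`, `nm y ≤ 8 R`: no `z` with `R - 8 ≤ nm (z - y) ≤ R + 8` has colour `i` (`Avoid`,
`nm z ≤ 9 R + 8 ≤ 10 R`). `cc κ R x i j k` is `chain R (H u v w + H v w u + H w u v)` for
`H z s t = if κ (x + z) = i then E j k (κ (x + s)) (κ (x + t)) else 0` (definition of `eps`), and
`H z = 0` for `R - 4 ≤ nm z ≤ R`, since `nm (x - y) ≤ 1` (so `R - 5 ≤ nm (x + z - y) ≤ R + 1`).
`chain_vertex`: `cc κ R x i j k = ∑ z ∈ Ball R, if κ (x + z) = i then om κ j k (x + z) else 0`.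
Re-index `x + z = y + z'`: for a point of colour `i`: `nm (p - x) < R ↔ nm (p - y) < R`
(`nm (p - y) < R - 8` or `> R + 8`).
-/

namespace Pool.Agent.Lib.MP_d577c7_co.CN

open Finset

variable {κ : P → Fin 6} {R : ℕ}

private theorem loc_far (hA : Avoid κ R) (hR : 100 ≤ R) {p y : P} {i : Fin 6}
    (hy : nm y ≤ 8 * R) (hi : κ y = i) (hp : κ p = i) (h : nm (p - y) ≤ R + 8) :
    nm (p - y) < (R : ℝ) - 8 := by
  by_contra hc
  push Not at hc
  have hR' : (100 : ℝ) ≤ R := by exact_mod_cast hR
  have h1 : nm p ≤ nm (p - y) + nm y := by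
    have := nm_add_le (p - y) y
    rwa [sub_add_cancel] at this
  exact hA p y (by linarith) (by linarith) hc h (by rw [hp, hi])

theorem cc_eq_vertex (hA : Avoid κ R) (hR : 100 ≤ R) {x y : P} {i j k : Fin 6} (hy : nm y ≤ 8 * R)
    (hi : κ y = i) (hxy : nm (x - y) ≤ 1) :
    cc κ R x i j k = ∑ z ∈ Ball R, if κ (y + z) = i then om κ j k (y + z) else 0 := by
  have hR' : (100 : ℝ) ≤ R := by exact_mod_cast hR
  have h1 : cc κ R x i j k = ∑ z ∈ Ball R, ∑ m ∈ range 6,
      (if κ (x + z) = i then E j k (κ (x + (z + dir m))) (κ (x + (z + dir (m + 1)))) else 0) := by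
    refine chain_vertex R
      (fun z s t => if κ (x + z) = i then E j k (κ (x + s)) (κ (x + t)) else 0) ?_
    intro z s t hz1 hz2
    have hne : κ (x + z) ≠ i := by
      intro hxz
      have e : x + z - y = (x - y) + z := by abel
      have h2 : nm (x + z - y) ≤ nm (x - y) + nm z := by rw [e]; exact nm_add_le _ _
      have h3 := loc_far hA hR hy hi hxz (by linarith)
      have e2 : z = (x + z - y) + -(x - y) := by abel
      have h4 : nm z ≤ nm (x + z - y) + nm (-(x - y)) := by
        conv_lhs => rw [e2]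
        exact nm_add_le _ _
      rw [nm_neg] at h4
      linarith
    simp only [hne, if_false]
  have h2 : cc κ R x i j k = ∑ z ∈ Ball R, if κ (x + z) = i then om κ j k (x + z) else 0 := by
    rw [h1]
    refine Finset.sum_congr rfl fun z _ => ?_
    by_cases hz : κ (x + z) = i
    · simp only [hz, if_true, om, add_assoc]
    · simp only [hz, if_false, Finset.sum_const_zero]
  rw [h2]
  refine Finset.sum_bij_ne_zero (fun z _ _ => (x - y) + z) ?_ ?_ ?_ ?_
  · intro z hz hne
    have hc : κ (x + z) = i := by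
      by_contra hc
      simp only [hc, if_false, ne_eq, not_true_eq_false] at hne
    rw [mem_Ball] at hz ⊢
    have e : (x - y) + z = x + z - y := by abel
    have h3 : nm ((x - y) + z) ≤ nm (x - y) + nm z := nm_add_le _ _
    have h4 : nm (x + z - y) < (R : ℝ) - 8 := loc_far hA hR hy hi hc (by rw [← e]; linarith)
    rw [e]; linarith
  · intro z hz h z' hz' h' he
    exact add_left_cancel he
  · intro z hz hne
    have hc : κ (y + z) = i := by
      by_contra hc
      simp only [hc, if_false, ne_eq, not_true_eq_false] at hne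
    rw [mem_Ball] at hz
    have e : y + z - y = z := by abel
    have h4 : nm (y + z - y) < (R : ℝ) - 8 := loc_far hA hR hy hi hc (by rw [e]; linarith)
    rw [e] at h4
    have e3 : x + (z - (x - y)) = y + z := by abel
    refine ⟨z - (x - y), ?_, ?_, ?_⟩
    · rw [mem_Ball]
      have h5 : nm (z + -(x - y)) ≤ nm z + nm (-(x - y)) := nm_add_le _ _
      rw [nm_neg, ← sub_eq_add_neg] at h5
      linarith
    · rw [e3]; exact hne
    · abel
  · intro z hz hne
    have e3 : y + ((x - y) + z) = x + z := by abel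
    rw [e3]

theorem cc_loc (hA : Avoid κ R) (hR : 100 ≤ R) {x x' y : P} {i : Fin 6} (hy : nm y ≤ 8 * R)
    (hi : κ y = i) (hxy : nm (x - y) ≤ 1) (hxy' : nm (x' - y) ≤ 1) (j k : Fin 6) :
    cc κ R x i j k = cc κ R x' i j k := by
  rw [cc_eq_vertex hA hR hy hi hxy, cc_eq_vertex hA hR hy hi hxy']

end Pool.Agent.Lib.MP_d577c7_co.CN
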