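import Pool.Agent.Lib.MP_d577c7_co.CN.Edge

/-!
# Rule: the cell rule

`nonback` gives `x, x', e`; for `f ∉ {a, b, d, e}` let `g` be the sixth colour and use `edge_rule`. So for
both colours `f ∉ {a, b, d, e}` no point of `U` has `Tp κ a d f`, hence `∑ om κ f d = 0`. `kir` with the
four colours `b, e, f, g`: `∑ om κ b d + ∑ om κ e d = 0`, so `∑ om κ d e = - ∑ om κ e d ≠ 0`.
-/

namespace Pool.Agent.Lib.MP_d577c7_co.CN

open Finset

noncomputable section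

variable {κ : P → Fin 6} {R : ℕ}

theorem Tp_swap {a b d : Fin 6} {x : P} (h : Tp κ a b d x) : Tp κ a d b x := by
  obtain ⟨h1, h2, h3⟩ := h
  exact ⟨h1, h3, h2⟩

private theorem rule_new (l : List (Fin 6)) (h : l.length < 6) : ∃ g, g ∉ l := by
  by_contra hcon
  push Not at hcon
  have h1 : l.toFinset = Finset.univ := by
    ext x
    simp only [List.mem_toFinset, Finset.mem_univ, iff_true]
    exact hcon x
  have h2 := List.toFinset_card_le l
  rw [h1, Finset.card_univ, Fintype.card_fin] at h2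
  omega

private theorem rule_six {a b d e f : Fin 6} (hab : a ≠ b) (had : a ≠ d) (hbd : b ≠ d) (hea : e ≠ a)
    (heb : e ≠ b) (hed : e ≠ d) (hfa : f ≠ a) (hfb : f ≠ b) (hfd : f ≠ d) (hfe : f ≠ e) :
    ∃ g, Six a b d e f g := by
  obtain ⟨g, hg⟩ := rule_new [a, b, d, e, f] (by simp)
  refine ⟨g, ?_⟩
  simp only [List.mem_cons, List.not_mem_nil, or_false, not_or] at hg
  obtain ⟨h1, h2, h3, h4, h5⟩ := hg
  unfold Six
  simp only [List.nodup_cons, List.mem_cons, List.not_mem_nil, or_false, not_or,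
    List.nodup_nil, and_true, not_false_eq_true]
  exact ⟨⟨hab, had, hea.symm, hfa.symm, Ne.symm h1⟩, ⟨hbd, heb.symm, hfb.symm, Ne.symm h2⟩,
    ⟨hed.symm, hfd.symm, Ne.symm h3⟩, ⟨hfe.symm, Ne.symm h4⟩, Ne.symm h5⟩

theorem rule (hA : Avoid κ R) (hR : 100 ≤ R) {a b d : Fin 6} (hab : a ≠ b) (had : a ≠ d)
    (hbd : b ≠ d) {U : Finset P} (hU : Cell κ R a U) (h : ∑ v ∈ U, om κ b d v ≠ 0) :
    ∃ e, e ≠ a ∧ e ≠ b ∧ e ≠ d ∧ ∑ v ∈ U, om κ d e v ≠ 0 ∧
      ∀ f, f ≠ a → f ≠ b → f ≠ d → f ≠ e →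
        (∀ y ∈ U, cc κ R y a d f = 0) ∧ ∀ y ∈ U, ¬ Tp κ a d f y := by
  obtain ⟨x, hx, x', hx', e, hea, heb, hed, ht, ht', hc⟩ := nonback hA hR hab had hbd hU h
  have key : ∀ f, f ≠ a → f ≠ b → f ≠ d → f ≠ e →
      (∀ y ∈ U, cc κ R y a d f = 0) ∧ ∀ y ∈ U, ¬ Tp κ a d f y := by
    intro f hfa hfb hfd hfe
    obtain ⟨g, h6⟩ := rule_six hab had hbd hea heb hed hfa hfb hfd hfe
    exact edge_rule hA hR h6 hU hx hx' ht ht' hc
  refine ⟨e, hea, heb, hed, ?_, key⟩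
  have zer : ∀ f, f ≠ a → f ≠ b → f ≠ d → f ≠ e → ∑ v ∈ U, om κ f d v = 0 := by
    intro f hfa hfb hfd hfe
    refine Finset.sum_eq_zero ?_
    intro v hv
    by_contra hne
    have h1 := om_tp hne
    rw [hU.col v hv] at h1
    exact (key f hfa hfb hfd hfe).2 v hv (Tp_swap h1)
  obtain ⟨f, hf⟩ := rule_new [a, b, d, e] (by simp)
  simp only [List.mem_cons, List.not_mem_nil, or_false, not_or] at hf
  obtain ⟨hfa, hfb, hfd, hfe⟩ := hf
  obtain ⟨g, h6⟩ := rule_six hab had hbd hea heb hed hfa hfb hfd hfe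
  have h6' := h6
  unfold Six at h6'
  simp only [List.nodup_cons, List.mem_cons, List.not_mem_nil, or_false, not_or,
    List.nodup_nil, and_true, not_false_eq_true] at h6'
  obtain ⟨⟨-, -, -, -, hag⟩, ⟨-, -, -, hbg⟩, ⟨-, -, hdg⟩, ⟨-, heg⟩, hfg⟩ := h6'
  have s : Six a d b e f g := by
    unfold Six
    simp only [List.nodup_cons, List.mem_cons, List.not_mem_nil, or_false, not_or,
      List.nodup_nil, and_true, not_false_eq_true]
    exact ⟨⟨had, hab, hea.symm, Ne.symm hfa, hag⟩, ⟨hbd.symm, hed.symm, Ne.symm hfd, hdg⟩,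
      ⟨heb.symm, Ne.symm hfb, hbg⟩, ⟨Ne.symm hfe, heg⟩, hfg⟩
  have hk := kir (κ := κ) s hU.col hU.clo
  have hf0 := zer f hfa hfb hfd hfe
  have hg0 := zer g (Ne.symm hag) (Ne.symm hbg) (Ne.symm hdg) (Ne.symm heg)
  rw [hf0, hg0, add_zero, add_zero] at hk
  have hsw : ∑ v ∈ U, om κ d e v = -∑ v ∈ U, om κ e d v := by
    rw [← Finset.sum_neg_distrib]
    exact Finset.sum_congr rfl (fun v _ => om_swap e d v)
  rw [hsw]
  intro h0
  apply h
  have h1 : ∑ v ∈ U, om κ e d v = 0 := neg_eq_zero.mp h0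
  rw [h1, add_zero] at hk
  exact hk

end

end Pool.Agent.Lib.MP_d577c7_co.CN
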