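import Pool.Agent.Lib.MP_d577c7_co.CN.Geo

/-!
# Vert: vertex form of the sum over the disc (60 min)

`rh (fun u v w => H u v w + H v w u + H w u v) r` is the sum of the six terms
`H (r + o m) (r + o m + dir m) (r + o m + dir (m + 1))`, `m < 6`, with the offsets
`o 0 = 0, o 1 = (1,0), o 2 = (1,0), o 3 = (1,1), o 4 = (0,1), o 5 = (0,1)`
(`m = 0, 2, 4` from the triangle `r, r + 1, r + ω`, `m = 1, 3, 5` from `r + 1, r + 1 + ω, r + ω`).
With `rot^[j] (z + dir m) = rot^[j] z + dir (m + j)` the left side is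
`∑ j < 6, ∑ m < 6, ∑ r ∈ Sect R, H z' (z' + dir (m + j)) (z' + dir (m + j + 1))`,
`z' = rot^[j] (r + o m)`. Re-index by `z'` (injective) and by `m' = m + j mod 6` (`dir_add_six`):
`∑ z', ∑ m' < 6, c z' m' * H z' (z' + dir m') (z' + dir (m' + 1))`, where `c z' m'` is the number of
`j < 6` such that `rot^[6 - j] z' - o (m' - j mod 6)` is (the image of) an element of `Sect R`.
CLAIM: if `nm z' < R - 4` then `c z' m' = 1`; if `nm z' > R` then `c z' m' = 0`; otherwise the `H`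
terms vanish. Proof: all vertices of a rhombus `r = (a, b)`, `a, b ≥ 0`, have `N ≤ N (a + 1, b + 1)`
(so the second statement), and `nm (a + 1, b + 1) ≤ nm (vertex) + 2`, so in the first case the norm
condition in `Sect R` is automatically true (also `a, b < R`) and `c` is the number of `j` for which
the rhombus `rot^[6 - j] z' - o (..)` has coordinates `≥ 0`. With `z' = (a, b)`, for every `m'` exactly
one of the six conditions is true (`omega`; e.g. the triangle `z', z' + 1, z' + ω` lies in the sector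
0: `a ≥ 0, b ≥ 0`; 1: `a ≤ -1, a + b ≥ 0`; 2: `b ≥ 0, a + b ≤ -1`; 3: `a ≤ -1, b ≤ -1`;
4: `a ≥ 0, a + b ≤ -1`; 5: `b ≤ -1, a + b ≥ 0`).
Hint: `rot^[j]` is a bijection; all sums may be taken over `Ball (R + 3)`, which is invariant under
`rot` (`mem_Ball`, `nm_rot`); every `z'` which occurs has `nm z' ≤ R`.
-/

namespace Pool.Agent.Lib.MP_d577c7_co.CN

open Finset

noncomputable section

/-- the offsets of the six corners of a rhombus -/
private def vert_o (m : ℕ) : P :=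
  if m = 0 then (0, 0) else if m = 1 then (1, 0) else if m = 2 then (1, 0) else if m = 3 then (1, 1) else (0, 1)

/-- the term of the vertex `z` and of the direction `m` -/
private def vert_f (H : P → P → P → ℤ) (z : P) (m : ℕ) : ℤ := H z (z + dir m) (z + dir (m + 1))

private theorem vert_f_six (H : P → P → P → ℤ) (z : P) (m : ℕ) : vert_f H z (m + 6) = vert_f H z m := by
  unfold vert_f
  rw [dir_add_six, show m + 6 + 1 = m + 1 + 6 by omega, dir_add_six]

private theorem vert_f_rot (H : P → P → P → ℤ) (j m : ℕ) (p : P) :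
    vert_f H (rot^[j] p) (m + j) = H (rot^[j] p) (rot^[j] (p + dir m)) (rot^[j] (p + dir (m + 1))) := by
  unfold vert_f
  rw [rot_iter_add, rot_iter_add, rot_dir, rot_dir, show m + 1 + j = m + j + 1 by omega]

private theorem vert_rh (H : P → P → P → ℤ) (j : ℕ) (r : P) :
    rh (fun u v w => H (rot^[j] u) (rot^[j] v) (rot^[j] w) + H (rot^[j] v) (rot^[j] w) (rot^[j] u) +
      H (rot^[j] w) (rot^[j] u) (rot^[j] v)) r =
      ∑ m ∈ range 6, vert_f H (rot^[j] (r + vert_o m)) (m + j) := by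
  obtain ⟨a, b⟩ := r
  simp only [vert_f_rot, sum_range_succ, sum_range_zero, rh, vert_o]
  simp only [dir0, dir1, dir2, dir3, dir4, dir5, show dir 6 = (1, 0) by decide, Nat.reduceAdd, zero_add,
    Prod.mk_add_mk, if_true, Nat.reduceEqDiff, if_false, OfNat.ofNat_ne_zero, one_ne_zero, OfNat.ofNat_ne_one,
    add_zero]
  simp only [show a + 1 + -1 = a by ring, show b + 1 + -1 = b by ring]
  ring

/-- coordinates of a rotated point -/
private theorem vert_inv (j : ℕ) (hj : j < 6) (z : P) : rot^[j] (rot^[6 - j] z) = z := by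
  rw [← Function.iterate_add_apply, show j + (6 - j) = 6 by omega, rot_six]

private theorem vert_inv' (j : ℕ) (hj : j < 6) (z : P) : rot^[6 - j] (rot^[j] z) = z := by
  rw [← Function.iterate_add_apply, show 6 - j + j = 6 by omega, rot_six]

private theorem vert_o_mem (m : ℕ) : 0 ≤ (vert_o m).1 ∧ (vert_o m).1 ≤ 1 ∧ 0 ≤ (vert_o m).2 ∧ (vert_o m).2 ≤ 1 := by
  unfold vert_o
  split_ifs <;> simp

private theorem vert_N_mono {a b c d : ℤ} (ha : 0 ≤ a) (hb : 0 ≤ b) (hac : a ≤ c) (hbd : b ≤ d) :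
    N (a, b) ≤ N (c, d) := by
  simp only [N]
  nlinarith [mul_nonneg ha hb, mul_nonneg (sub_nonneg.2 hac) (sub_nonneg.2 hbd), mul_nonneg ha (sub_nonneg.2 hbd),
    mul_nonneg hb (sub_nonneg.2 hac), mul_nonneg ha (sub_nonneg.2 hac), mul_nonneg hb (sub_nonneg.2 hbd),
    sq_nonneg (c - a), sq_nonneg (d - b)]

/-- membership of the lower corner in the sector -/
private def vert_c (R j m : ℕ) (z : P) : Prop :=
  0 ≤ (rot^[6 - j] z - vert_o m).1 ∧ 0 ≤ (rot^[6 - j] z - vert_o m).2 ∧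
    N ((rot^[6 - j] z - vert_o m).1 + 1, (rot^[6 - j] z - vert_o m).2 + 1) ≤ (R : ℤ) ^ 2

private theorem vert_mem_Sect (R : ℕ) (q : P) (h1 : 0 ≤ q.1) (h2 : 0 ≤ q.2)
    (h3 : N (q.1 + 1, q.2 + 1) ≤ (R : ℤ) ^ 2) : (q.1.toNat, q.2.toNat) ∈ Sect R := by
  unfold Sect
  rw [mem_filter, mem_product, mem_range, mem_range]
  have e1 : ((q.1.toNat : ℕ) : ℤ) = q.1 := Int.toNat_of_nonneg h1
  have e2 : ((q.2.toNat : ℕ) : ℤ) = q.2 := Int.toNat_of_nonneg h2
  have hR : (0 : ℤ) ≤ R := Int.natCast_nonneg R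
  have h3' := h3
  simp only [N] at h3'
  have l1 : q.1 < R := by
    by_contra hc
    push Not at hc
    nlinarith [mul_nonneg h1 h2]
  have l2 : q.2 < R := by
    by_contra hc
    push Not at hc
    nlinarith [mul_nonneg h1 h2]
  refine ⟨⟨by omega, by omega⟩, ?_⟩
  simp only [e1, e2]
  exact h3

open Classical in
private theorem vert_sum (R : ℕ) (H : P → P → P → ℤ)
    (hH : ∀ z s t, (R : ℝ) - 4 ≤ nm z → nm z ≤ R → H z s t = 0) (j m : ℕ) (hj : j < 6) :
    ∑ r ∈ Sect R, vert_f H (rot^[j] (((r.1 : ℤ), (r.2 : ℤ)) + vert_o m)) (m + j) =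
      ∑ z ∈ Ball R, if vert_c R j m z then vert_f H z (m + j) else 0 := by
  rw [← sum_filter]
  have hle : ∀ r ∈ Sect R, nm (rot^[j] (((r.1 : ℤ), (r.2 : ℤ)) + vert_o m)) ≤ R := by
    intro r hr
    unfold Sect at hr
    rw [mem_filter] at hr
    rw [nm_rot_iter]
    apply nm_le_of_sq (Nat.cast_nonneg R)
    obtain ⟨o1, o2, o3, o4⟩ := vert_o_mem m
    have h1 : N (((r.1 : ℤ), (r.2 : ℤ)) + vert_o m) ≤ N ((r.1 : ℤ) + 1, (r.2 : ℤ) + 1) := by
      have : ((r.1 : ℤ), (r.2 : ℤ)) + vert_o m = ((r.1 : ℤ) + (vert_o m).1, (r.2 : ℤ) + (vert_o m).2) := rfl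
      rw [this]
      apply vert_N_mono <;> omega
    have h2 := le_trans h1 hr.2
    exact_mod_cast h2
  have hsplit : ∑ r ∈ Sect R, vert_f H (rot^[j] (((r.1 : ℤ), (r.2 : ℤ)) + vert_o m)) (m + j) =
      ∑ r ∈ (Sect R).filter (fun r => rot^[j] (((r.1 : ℤ), (r.2 : ℤ)) + vert_o m) ∈ Ball R),
        vert_f H (rot^[j] (((r.1 : ℤ), (r.2 : ℤ)) + vert_o m)) (m + j) := by
    symm
    apply sum_subset (filter_subset _ _)
    intro r hr hn
    rw [mem_filter, mem_Ball] at hn
    have h1 : ¬ nm (rot^[j] (((r.1 : ℤ), (r.2 : ℤ)) + vert_o m)) < R := fun h => hn ⟨hr, h⟩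
    push Not at h1
    exact hH _ _ _ (by linarith) (hle r hr)
  rw [hsplit]
  refine sum_nbij' (fun r => rot^[j] (((r.1 : ℤ), (r.2 : ℤ)) + vert_o m))
    (fun z => ((rot^[6 - j] z - vert_o m).1.toNat, (rot^[6 - j] z - vert_o m).2.toNat)) ?_ ?_ ?_ ?_ ?_
  · intro r hr
    rw [mem_filter] at hr
    rw [mem_filter]
    refine ⟨hr.2, ?_⟩
    unfold vert_c
    rw [vert_inv' j hj, add_sub_cancel_right]
    refine ⟨Int.natCast_nonneg _, Int.natCast_nonneg _, ?_⟩
    have := hr.1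
    unfold Sect at this
    rw [mem_filter] at this
    exact this.2
  · intro z hz
    rw [mem_filter] at hz
    obtain ⟨hz, h1, h2, h3⟩ := hz
    rw [mem_filter]
    refine ⟨vert_mem_Sect R _ h1 h2 h3, ?_⟩
    have e : ((((rot^[6 - j] z - vert_o m).1.toNat : ℕ) : ℤ), (((rot^[6 - j] z - vert_o m).2.toNat : ℕ) : ℤ)) =
        rot^[6 - j] z - vert_o m := Prod.ext (Int.toNat_of_nonneg h1) (Int.toNat_of_nonneg h2)
    simp only [e, sub_add_cancel, vert_inv j hj]
    exact hz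
  · intro r _
    simp only [vert_inv' j hj, add_sub_cancel_right, Int.toNat_natCast]
  · intro z hz
    rw [mem_filter] at hz
    obtain ⟨hz, h1, h2, h3⟩ := hz
    have e : ((((rot^[6 - j] z - vert_o m).1.toNat : ℕ) : ℤ), (((rot^[6 - j] z - vert_o m).2.toNat : ℕ) : ℤ)) =
        rot^[6 - j] z - vert_o m := Prod.ext (Int.toNat_of_nonneg h1) (Int.toNat_of_nonneg h2)
    simp only [e, sub_add_cancel, vert_inv j hj]
  · intro r _
    rfl

/-- the condition far from the boundary -/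
private theorem vert_c_iff (R j m : ℕ) (z : P) (hz : nm z < (R : ℝ) - 4) :
    vert_c R j m z ↔ 0 ≤ (rot^[6 - j] z - vert_o m).1 ∧ 0 ≤ (rot^[6 - j] z - vert_o m).2 := by
  constructor
  · exact fun h => ⟨h.1, h.2.1⟩
  · intro h
    refine ⟨h.1, h.2, ?_⟩
    have e : ((rot^[6 - j] z - vert_o m).1 + 1, (rot^[6 - j] z - vert_o m).2 + 1) =
        rot^[6 - j] z + ((1 : ℤ) - (vert_o m).1, (1 : ℤ) - (vert_o m).2) := by
      apply Prod.ext
      · simp only [Prod.fst_add, Prod.fst_sub]; ring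
      · simp only [Prod.snd_add, Prod.snd_sub]; ring
    rw [e]
    have h2 : nm ((1 : ℤ) - (vert_o m).1, (1 : ℤ) - (vert_o m).2) ≤ 2 := by
      apply nm_le_of_sq (by norm_num)
      obtain ⟨o1, o2, o3, o4⟩ := vert_o_mem m
      have h3 : N ((1 : ℤ) - (vert_o m).1, (1 : ℤ) - (vert_o m).2) ≤ N (1, 1) := by
        apply vert_N_mono <;> omega
      have h4 : N ((1 : ℤ) - (vert_o m).1, (1 : ℤ) - (vert_o m).2) ≤ 3 := by
        refine le_trans h3 ?_
        simp [N]
      have h5 : ((N ((1 : ℤ) - (vert_o m).1, (1 : ℤ) - (vert_o m).2) : ℤ) : ℝ) ≤ 3 := by exact_mod_cast h4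
      linarith
    have h3 := nm_add_le (rot^[6 - j] z) ((1 : ℤ) - (vert_o m).1, (1 : ℤ) - (vert_o m).2)
    rw [nm_rot_iter] at h3
    have h4 := nm_nonneg (rot^[6 - j] z + ((1 : ℤ) - (vert_o m).1, (1 : ℤ) - (vert_o m).2))
    have h5 : nm (rot^[6 - j] z + ((1 : ℤ) - (vert_o m).1, (1 : ℤ) - (vert_o m).2)) ≤ R := by linarith
    have h6 : nm (rot^[6 - j] z + ((1 : ℤ) - (vert_o m).1, (1 : ℤ) - (vert_o m).2)) ^ 2 ≤ (R : ℝ) ^ 2 :=
      pow_le_pow_left₀ h4 h5 2
    rw [nm_sq] at h6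
    exact_mod_cast h6

/-- the indicator -/
private def vert_e (j m : ℕ) (z : P) : ℤ :=
  if 0 ≤ (rot^[6 - j] z - vert_o m).1 ∧ 0 ≤ (rot^[6 - j] z - vert_o m).2 then 1 else 0

private theorem vert_r6 (a b : ℤ) : rot^[6] (a, b) = (a, b) := rot_six _
private theorem vert_r5 (a b : ℤ) : rot^[5] (a, b) = (a + b, -a) := by
  simp only [Function.iterate_succ, Function.iterate_zero, Function.comp, rot, id]
  ext <;> simp <;> ring
private theorem vert_r4 (a b : ℤ) : rot^[4] (a, b) = (b, -a - b) := by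
  simp only [Function.iterate_succ, Function.iterate_zero, Function.comp, rot, id]
  ext <;> simp <;> ring
private theorem vert_r3 (a b : ℤ) : rot^[3] (a, b) = (-a, -b) := by
  simp only [Function.iterate_succ, Function.iterate_zero, Function.comp, rot, id]
  ext <;> simp
private theorem vert_r2 (a b : ℤ) : rot^[2] (a, b) = (-a - b, a) := by
  simp only [Function.iterate_succ, Function.iterate_zero, Function.comp, rot, id]
  ext <;> simp <;> ring
private theorem vert_r1 (a b : ℤ) : rot^[1] (a, b) = (-b, a + b) := by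
  simp only [Function.iterate_succ, Function.iterate_zero, Function.comp, rot, id]

private theorem vert_count (z : P) :
    (vert_e 0 0 z + vert_e 1 5 z + vert_e 2 4 z + vert_e 3 3 z + vert_e 4 2 z + vert_e 5 1 z = 1) ∧
    (vert_e 0 1 z + vert_e 1 0 z + vert_e 2 5 z + vert_e 3 4 z + vert_e 4 3 z + vert_e 5 2 z = 1) ∧
    (vert_e 0 2 z + vert_e 1 1 z + vert_e 2 0 z + vert_e 3 5 z + vert_e 4 4 z + vert_e 5 3 z = 1) ∧
    (vert_e 0 3 z + vert_e 1 2 z + vert_e 2 1 z + vert_e 3 0 z + vert_e 4 5 z + vert_e 5 4 z = 1) ∧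
    (vert_e 0 4 z + vert_e 1 3 z + vert_e 2 2 z + vert_e 3 1 z + vert_e 4 0 z + vert_e 5 5 z = 1) ∧
    (vert_e 0 5 z + vert_e 1 4 z + vert_e 2 3 z + vert_e 3 2 z + vert_e 4 1 z + vert_e 5 0 z = 1) := by
  obtain ⟨a, b⟩ := z
  simp only [vert_e, vert_o, Nat.reduceSub, vert_r1, vert_r2, vert_r3, vert_r4, vert_r5, vert_r6,
    Prod.fst_sub, Prod.snd_sub, if_true, Nat.reduceEqDiff, if_false, OfNat.ofNat_ne_zero, one_ne_zero,
    OfNat.ofNat_ne_one, sub_zero]
  refine ⟨?_, ?_, ?_, ?_, ?_, ?_⟩ <;> split_ifs <;> omega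

theorem chain_vertex (R : ℕ) (H : P → P → P → ℤ)
    (hH : ∀ z s t, (R : ℝ) - 4 ≤ nm z → nm z ≤ R → H z s t = 0) :
    chain R (fun u v w => H u v w + H v w u + H w u v) =
      ∑ z ∈ Ball R, ∑ m ∈ range 6, H z (z + dir m) (z + dir (m + 1)) := by
  classical
  have h1 : chain R (fun u v w => H u v w + H v w u + H w u v) =
      ∑ j ∈ range 6, ∑ m ∈ range 6, ∑ r ∈ Sect R,
        vert_f H (rot^[j] (((r.1 : ℤ), (r.2 : ℤ)) + vert_o m)) (m + j) := by
    unfold chain
    refine sum_congr rfl fun j _ => ?_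
    rw [sum_comm]
    refine sum_congr rfl fun r _ => ?_
    exact vert_rh H j _
  have h2 : ∑ j ∈ range 6, ∑ m ∈ range 6, ∑ r ∈ Sect R,
        vert_f H (rot^[j] (((r.1 : ℤ), (r.2 : ℤ)) + vert_o m)) (m + j) =
      ∑ j ∈ range 6, ∑ m ∈ range 6, ∑ z ∈ Ball R, if vert_c R j m z then vert_f H z (m + j) else 0 := by
    refine sum_congr rfl fun j hj => sum_congr rfl fun m _ => ?_
    exact vert_sum R H hH j m (mem_range.1 hj)
  have h3 : ∑ j ∈ range 6, ∑ m ∈ range 6, ∑ z ∈ Ball R, (if vert_c R j m z then vert_f H z (m + j) else 0) =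
      ∑ z ∈ Ball R, ∑ j ∈ range 6, ∑ m ∈ range 6, if vert_c R j m z then vert_f H z (m + j) else 0 := by
    have h4 : ∀ j ∈ range 6, ∑ m ∈ range 6, ∑ z ∈ Ball R, (if vert_c R j m z then vert_f H z (m + j) else 0) =
        ∑ z ∈ Ball R, ∑ m ∈ range 6, if vert_c R j m z then vert_f H z (m + j) else 0 :=
      fun j _ => sum_comm
    rw [sum_congr rfl h4, sum_comm]
  rw [h1, h2, h3]
  refine sum_congr rfl fun z hz => ?_
  have hz' : nm z < R := mem_Ball.1 hz
  rcases le_or_gt ((R : ℝ) - 4) (nm z) with h5 | h5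
  · have h6 : ∀ k, vert_f H z k = 0 := fun k => hH _ _ _ h5 hz'.le
    have h7 : ∀ m ∈ range 6, H z (z + dir m) (z + dir (m + 1)) = 0 := fun m _ => hH _ _ _ h5 hz'.le
    rw [sum_eq_zero h7]
    refine sum_eq_zero fun j _ => sum_eq_zero fun m _ => ?_
    rw [h6, ite_self]
  · have h6 : ∀ j ∈ range 6, ∀ m ∈ range 6, (if vert_c R j m z then vert_f H z (m + j) else 0) =
        vert_e j m z * vert_f H z (m + j) := by
      intro j _ m _
      unfold vert_e
      by_cases hc : vert_c R j m z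
      · rw [if_pos hc, if_pos ((vert_c_iff R j m z h5).1 hc), one_mul]
      · rw [if_neg hc, if_neg (fun h => hc ((vert_c_iff R j m z h5).2 h)), zero_mul]
    rw [sum_congr rfl fun j hj => sum_congr rfl fun m hm => h6 j hj m hm]
    have h7 : ∑ m ∈ range 6, H z (z + dir m) (z + dir (m + 1)) = ∑ m ∈ range 6, vert_f H z m := rfl
    rw [h7]
    simp only [sum_range_succ, sum_range_zero, zero_add, Nat.reduceAdd]
    have p0 : vert_f H z 6 = vert_f H z 0 := vert_f_six H z 0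
    have p1 : vert_f H z 7 = vert_f H z 1 := vert_f_six H z 1
    have p2 : vert_f H z 8 = vert_f H z 2 := vert_f_six H z 2
    have p3 : vert_f H z 9 = vert_f H z 3 := vert_f_six H z 3
    have p4 : vert_f H z 10 = vert_f H z 4 := vert_f_six H z 4
    simp only [p0, p1, p2, p3, p4]
    obtain ⟨c0, c1, c2, c3, c4, c5⟩ := vert_count z
    linear_combination vert_f H z 0 * c0 + vert_f H z 1 * c1 + vert_f H z 2 * c2 + vert_f H z 3 * c3 +
      vert_f H z 4 * c4 + vert_f H z 5 * c5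

end

end Pool.Agent.Lib.MP_d577c7_co.CN
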