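import Pool.Agent.Lib.MP_d577c7_co.CN.Geo

/-!
# Walk: the staircase and the discrete circle (45 min)

`g R k = (a, b)` for `k ≤ 2 R` satisfies `0 ≤ a`, `0 ≤ b`, `N (a, b) ≤ R ^ 2`,
`R ^ 2 < N (a + 1, b + 1)`, `b - a = k - R`. Induction on `k` (`stepP`, `Function.iterate_succ_apply'`):
start `(R, 0)`; up step (if `N (a, b + 1) ≤ R ^ 2`): `N (a + 1, b + 2) > N (a + 1, b + 1)`; left step
(if `R ^ 2 < N (a, b + 1)`): the new point `(a - 1, b)` has `N (a - 1 + 1, b + 1) > R ^ 2`, and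
`a ≥ 1`, since `a = 0` gives `(b + 1) ^ 2 > R ^ 2`, `b ≥ R`, `b = b - a = k - R < R` for `k < 2 R`.
At `k = 2 R`: `b = a + R` and `N ≤ R ^ 2` give `(0, R)`.
`G R (k + 2 R) = rot (G R k)` by `Nat.add_div_right`, `Nat.add_mod_right`.
Steps of `g` are `(0, 1)` or `(-1, 0)`, of length 1; at `k = 2 R j + (2 R - 1)` the next point is
`rot^[j + 1] (R, 0) = rot^[j] (0, R) = rot^[j] (g R (2 R))`.
Length: `nm (1, 1) ^ 2 = 3`, `nm (a, b) ≥ nm (a + 1, b + 1) - nm (1, 1) > R - 2`.
-/

namespace Pool.Agent.Lib.MP_d577c7_co.CN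

open Finset

noncomputable section

theorem g_inv (R k : ℕ) (hk : k ≤ 2 * R) :
    0 ≤ (g R k).1 ∧ 0 ≤ (g R k).2 ∧ N (g R k) ≤ (R : ℤ) ^ 2 ∧
      (R : ℤ) ^ 2 < N ((g R k).1 + 1, (g R k).2 + 1) ∧ (g R k).2 - (g R k).1 = (k : ℤ) - R := by
  induction k with
  | zero =>
    have h0 : g R 0 = ((R : ℤ), 0) := rfl
    have hR : (0 : ℤ) ≤ R := Int.natCast_nonneg R
    rw [h0]
    refine ⟨hR, le_refl 0, ?_, ?_, ?_⟩
    · simp only [N]; nlinarith
    · simp only [N]; nlinarith
    · push_cast; ring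
  | succ k ih =>
    obtain ⟨h1, h2, h3, h4, h5⟩ := ih (by omega)
    have hs : g R (k + 1) = stepP R (g R k) := Function.iterate_succ_apply' _ _ _
    rw [hs]
    generalize g R k = z at h1 h2 h3 h4 h5 ⊢
    obtain ⟨a, b⟩ := z
    simp only at h1 h2 h3 h4 h5
    have hR : (0 : ℤ) ≤ R := Int.natCast_nonneg R
    have hk' : (k : ℤ) + 1 ≤ 2 * R := by exact_mod_cast hk
    by_cases hc : N (a, b + 1) ≤ (R : ℤ) ^ 2
    · have e : stepP R (a, b) = (a, b + 1) := if_pos hc
      rw [e]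
      refine ⟨h1, by show (0 : ℤ) ≤ b + 1; omega, hc, ?_, ?_⟩
      · refine lt_of_lt_of_le h4 ?_
        simp only [N]
        nlinarith
      · show b + 1 - a = ((k + 1 : ℕ) : ℤ) - R
        push_cast
        linarith
    · have e : stepP R (a, b) = (a - 1, b) := if_neg hc
      rw [e]
      have hc' : (R : ℤ) ^ 2 < N (a, b + 1) := lt_of_not_ge hc
      have ha : 1 ≤ a := by
        by_contra hlt
        have ha0 : a = 0 := by omega
        subst ha0
        simp only [N] at hc'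
        have hb : b + 1 ≤ (R : ℤ) := by linarith
        nlinarith
      refine ⟨by show (0 : ℤ) ≤ a - 1; omega, h2, ?_, ?_, ?_⟩
      · refine le_trans ?_ h3
        simp only [N]
        nlinarith
      · show (R : ℤ) ^ 2 < N (a - 1 + 1, b + 1)
        rw [sub_add_cancel]
        exact hc'
      · show b - (a - 1) = ((k + 1 : ℕ) : ℤ) - R
        push_cast
        linarith

theorem g_end (R : ℕ) : g R (2 * R) = (0, (R : ℤ)) := by
  obtain ⟨h1, h2, h3, h4, h5⟩ := g_inv R (2 * R) le_rfl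
  generalize g R (2 * R) = z at h1 h2 h3 h4 h5 ⊢
  obtain ⟨a, b⟩ := z
  simp only at h1 h2 h3 h4 h5
  have hR : (0 : ℤ) ≤ R := Int.natCast_nonneg R
  push_cast at h5
  have hb : b = a + R := by linarith
  subst hb
  simp only [N] at h3
  have ha : a = 0 := by
    by_contra hne
    have ha1 : 1 ≤ a := by omega
    nlinarith [mul_nonneg h1 hR]
  subst ha
  rw [zero_add]

theorem G_shift {R : ℕ} (hR : 0 < R) (k : ℕ) : G R (k + 2 * R) = rot (G R k) := by
  rw [G, G, Nat.add_div_right _ (by omega), Nat.add_mod_right, Function.iterate_succ_apply']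

private theorem walk_sector {R : ℕ} (hR : 0 < R) (j k : ℕ) (hk : k ≤ 2 * R) :
    G R (2 * R * j + k) = rot^[j] (g R k) := by
  rcases Nat.lt_or_ge k (2 * R) with h | h
  · have e1 : (2 * R * j + k) / (2 * R) = j := by
      rw [Nat.mul_add_div (by omega), Nat.div_eq_of_lt h, add_zero]
    have e2 : (2 * R * j + k) % (2 * R) = k := by
      rw [Nat.mul_add_mod, Nat.mod_eq_of_lt h]
    rw [G, e1, e2]
  · have hk2 : k = 2 * R := le_antisymm hk h
    subst hk2
    have e0 : 2 * R * j + 2 * R = 2 * R * (j + 1) := by ring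
    have e1 : (2 * R * j + 2 * R) / (2 * R) = j + 1 := by
      rw [e0, Nat.mul_div_cancel_left _ (by omega)]
    have e2 : (2 * R * j + 2 * R) % (2 * R) = 0 := by
      rw [e0, Nat.mul_mod_right]
    have e3 : rot (g R 0) = (0, (R : ℤ)) := by
      show rot ((R : ℤ), 0) = (0, (R : ℤ))
      ext <;> simp [rot]
    rw [G, e1, e2, Function.iterate_succ_apply, e3, g_end]

private theorem walk_step (R k : ℕ) : nm (g R (k + 1) - g R k) = 1 := by
  have hs : g R (k + 1) = stepP R (g R k) := Function.iterate_succ_apply' _ _ _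
  rw [hs]
  generalize g R k = z
  have n1 : nm ((0, 1) : P) = 1 := by
    have := nm_dir 1
    rwa [dir1] at this
  have n2 : nm ((-1, 0) : P) = 1 := by
    have := nm_dir 3
    rwa [dir3] at this
  by_cases hc : N (z.1, z.2 + 1) ≤ (R : ℤ) ^ 2
  · have e : stepP R z = (z.1, z.2 + 1) := if_pos hc
    have e2 : stepP R z - z = (0, 1) := by
      rw [e]; ext <;> simp
    rw [e2, n1]
  · have e : stepP R z = (z.1 - 1, z.2) := if_neg hc
    have e2 : stepP R z - z = (-1, 0) := by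
      rw [e]; ext <;> simp
    rw [e2, n2]

theorem G_adj {R : ℕ} (hR : 0 < R) (k : ℕ) : nm (G R (k + 1) - G R k) = 1 := by
  have hm : k % (2 * R) < 2 * R := Nat.mod_lt _ (by omega)
  have hk : k = 2 * R * (k / (2 * R)) + k % (2 * R) := (Nat.div_add_mod k (2 * R)).symm
  have e1 : G R k = rot^[k / (2 * R)] (g R (k % (2 * R))) := rfl
  have e2 : G R (k + 1) = rot^[k / (2 * R)] (g R (k % (2 * R) + 1)) := by
    have h := walk_sector hR (k / (2 * R)) (k % (2 * R) + 1) hm
    rw [← add_assoc, ← hk] at h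
    exact h
  rw [e1, e2, ← rot_iter_sub, nm_rot_iter]
  exact walk_step R (k % (2 * R))

theorem G_nm {R : ℕ} (hR : 0 < R) (k : ℕ) : (R : ℝ) - 2 ≤ nm (G R k) ∧ nm (G R k) ≤ R := by
  have hm : k % (2 * R) < 2 * R := Nat.mod_lt _ (by omega)
  obtain ⟨h1, h2, h3, h4, h5⟩ := g_inv R (k % (2 * R)) hm.le
  have e : nm (G R k) = nm (g R (k % (2 * R))) := nm_rot_iter _ _
  rw [e]
  have hR0 : (0 : ℝ) ≤ R := Nat.cast_nonneg R
  generalize g R (k % (2 * R)) = z at h1 h2 h3 h4 h5 ⊢
  constructor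
  · have a1 : (R : ℝ) ≤ nm (z + (1, 1)) := by
      have a2 : ((R : ℝ)) ^ 2 ≤ nm (z + (1, 1)) ^ 2 := by
        rw [nm_sq]
        have a3 : (R : ℤ) ^ 2 ≤ N (z + (1, 1)) := by
          have : z + (1, 1) = (z.1 + 1, z.2 + 1) := rfl
          rw [this]
          exact h4.le
        exact_mod_cast a3
      exact le_of_sq_le_sq a2 (nm_nonneg _)
    have a4 : nm ((1, 1) : P) ≤ 2 := by
      apply nm_le_of_sq (by norm_num)
      have : N ((1, 1) : P) = 3 := by decide
      rw [this]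
      norm_num
    have a5 := nm_add_le z (1, 1)
    linarith
  · apply nm_le_of_sq hR0
    exact_mod_cast h3

/-- `G` on the `j`-th sector, including its end point. -/
theorem G_sector {R : ℕ} (hR : 0 < R) (j k : ℕ) (hk : k ≤ 2 * R) :
    G R (2 * R * j + k) = rot^[j] (g R k) := by
  exact walk_sector hR j k hk

end

end Pool.Agent.Lib.MP_d577c7_co.CN
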